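import Pool.Agent.H63.LBW.Exch

/-!
# Fullness given an implicit label in boxes

The position in the boxes has two full dimensions given the label, and the coordinate `i₀` has
`lam` more full digits.
-/

set_option autoImplicit false

namespace Pool.LBW

open Finset Real
open Pool.Agent.H49.Ent Pool.Agent.H32.Dense Pool.STK Pool.KA Pool.KSAT Pool.K2S Pool.K3 Pool.PB
  Pool.KS6

open Rows in
open Classical in
/-- **Fullness given an implicit label.** -/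
theorem fullz : ∃ C : ℝ, 0 ≤ C ∧ ∀ {J : ℕ} {F : Fam 3 J} {Qt : ℕ} {i₀ i₁ : Fin 3}
    {w lam J' D P : ℕ} {h : w + J' ≤ J} {g : F.Ω → Fin 3 → ℝ} {V : Type} {z : F.Ω → V}
    {R : V → MvPolynomial (Option (Fin 3)) ℝ} (_ : Zlb F Qt i₀ i₁ w lam J' D P h g z R)
    {Λ : Type} (L : F.Ω → Λ) (g₁ h₁ R₁ g₂ h₂ R₂ : ℕ) (e ρ₁ ρ₂ : ℝ), Qt = w + J' + lam → Qt ≤ J →
    F.Tm e → (R₁ + 1) * g₁ ≤ J' → (R₂ + 1) * g₂ ≤ lam →
    (∀ r < R₁, Det F.p L (fun ω => (F.zm w J' h (Box.plkC lam i₀) g).c (r * g₁) ω)) →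
    (∀ r < R₂, Det F.p L (F.c (w + J' + r * g₂))) →
    2 ≤ h₁ → (h₁ + 3) * 2 + h₁ ≤ g₁ → 2 ≤ h₂ → (h₂ + 3) * 1 + h₂ ≤ g₂ →
    NonConc F.p (F.zm w J' h (Box.plkC lam i₀) g).d (fun ω => (ptq F Qt ω, L ω))
      (fun D (s : (Fin 3 → ℝ) × (Fin 1 → Fin 3 → ℝ)) =>
        ∃ c : Fin 1 → ℝ, ∀ j, |D j - s.1 j - ∑ i, c i * s.2 i j| ≤ 4 / 2 ^ h₁) ρ₁ →
    NonConc F.p F.d (fun ω => (ptq F Qt ω, L ω))
      (fun D (s : (Fin 3 → ℝ) × (Fin 0 → Fin 3 → ℝ)) =>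
        ∃ c : Fin 0 → ℝ, ∀ j, |D j - s.1 j - ∑ i, c i * s.2 i j| ≤ 4 / 2 ^ h₂) ρ₂ →
    (R₁ * (2 * (g₁ * Real.log 2)) - 36 * (g₁ * Real.log 2) -
      R₁ * (4 * e + 9 * (g₁ * Real.log 2) * ρ₁ + C) - C) +
    (R₂ * (g₂ * Real.log 2) - 24 * (g₂ * Real.log 2) -
      R₂ * (3 * e + 4 * (g₂ * Real.log 2) * ρ₂ + C) - C) - e ≤
      CH F.p (F.X Qt) (fun ω => ((z ω, F.blab w (Box.plkC lam i₀) g ω), F.W ω)) := by
  obtain ⟨C₁, hC₁, hf₁⟩ := full_gen 3 1
  obtain ⟨C₂, hC₂, hf₂⟩ := full_gen 3 0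
  refine ⟨max C₁ C₂, le_max_of_le_left hC₁, ?_⟩
  intro J F Qt i₀ i₁ w lam J' D P h g V z R hz Λ L g₁ h₁ R₁ g₂ h₂ R₂ e ρ₁ ρ₂ hQt hQJ hTm hR₁ hR₂
    hL₁ hL₂ hh₁ hg₁ hh₂ hg₂ hnc₁ hnc₂
  have hp := F.isLaw.nonneg
  obtain ⟨G, hG⟩ : ∃ G : Fam 3 J', G = F.zm w J' h (Box.plkC lam i₀) g := ⟨_, rfl⟩
  obtain ⟨zf, hzf⟩ : ∃ zf : F.Ω → V × (((ℕ × (Fin 3 → ℝ)) × ((Fin 3 → ℤ) × (Fin 3 → ℤ))) × F.ζ),
    zf = fun ω => (z ω, F.blab w (Box.plkC lam i₀) g ω) := ⟨_, rfl⟩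
  have hzf' : (fun ω => ((z ω, F.blab w (Box.plkC lam i₀) g ω), F.W ω)) =
      fun ω => (zf ω, F.W ω) := by rw [hzf]
  rw [hzf']
  obtain ⟨Xz, hXz⟩ : ∃ Xz : F.Ω → Fin 3 → ℤ, Xz = (F.zm w J' h (Box.plkC lam i₀) g).X J' :=
    ⟨_, rfl⟩
  -- functions of the point
  have hvis : Det F.p (ptq F Qt) (fun ω => (Xz ω, zf ω)) := by
    intro ω ω' a b e1
    have h1 := Prod.ext_iff.mp (hz.vis ω ω' a b e1)
    have h2 : Fam.pt (F.zm w J' h (Box.plkC lam i₀) g) ω =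
      Fam.pt (F.zm w J' h (Box.plkC lam i₀) g) ω' := h1.2
    have h3 := Prod.ext_iff.mp h2
    have h4 : F.blab w (Box.plkC lam i₀) g ω = F.blab w (Box.plkC lam i₀) g ω' :=
      (Prod.ext_iff.mp h3.2).2
    rw [hzf, hXz]
    exact Prod.ext h3.1 (Prod.ext h1.1 h4)
  have hzT : Det F.p (ptq F Qt) (fun ω => (F.zm w J' h (Box.plkC lam i₀) g).T ω) := by
    intro ω ω' a b e1
    have h1 := Prod.ext_iff.mp (hz.vis ω ω' a b e1)
    have h2 : Fam.pt (F.zm w J' h (Box.plkC lam i₀) g) ω =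
      Fam.pt (F.zm w J' h (Box.plkC lam i₀) g) ω' := h1.2
    have h3 := Prod.ext_iff.mp h2
    exact (Prod.ext_iff.mp h3.2).1
  have hwin : Det F.p (fun ω => (F.l ω, (F.T1 w ω, F.Z ω))) g := by
    intro ω ω' _ _ e1
    have h1 := Prod.ext_iff.mp e1
    have h2 := Prod.ext_iff.mp h1.2
    exact hz.win ω ω' (Prod.ext h1.1 (Prod.ext h2.2 h2.1))
  -- the rows of the zoom
  have k1 := hf₁ J' (F.zm w J' h (Box.plkC lam i₀) g) _ _ _ zf (fun ω => (L ω, ptq F Qt ω))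
    (ptq F Qt) 0 g₁ h₁ R₁ J' e ρ₁ (by omega) le_rfl
    (Pool.ZCL.zm_Tm F h (Box.plkC lam i₀) g hwin hTm) (by
      intro ω ω' a b e1
      have h1 : z ω = z ω' := hz.cls ω ω' a b e1
      have h2 : F.blab w (Box.plkC lam i₀) g ω = F.blab w (Box.plkC lam i₀) g ω' :=
        (Prod.ext_iff.mp (Prod.ext_iff.mp e1).2).1
      rw [hzf]
      exact Prod.ext h1 h2) (by
      intro ω ω' a b e1
      exact (Prod.ext_iff.mp (hvis ω ω' a b (Prod.ext_iff.mp e1).2)).2) (by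
      intro r hr ω ω' a b e1
      rw [zero_add]
      exact hL₁ r hr ω ω' a b (Prod.ext_iff.mp e1).1) (by
      intro ω ω' a b e1
      have h1 := hvis ω ω' a b e1
      rw [hXz] at h1
      exact Prod.ext (Prod.ext_iff.mp h1).1 (hzT ω ω' a b e1)) hh₁ (by omega) (by
      refine NonConc.coarse (c := (F.zm w J' h (Box.plkC lam i₀) g).d)
        (g := fun ω => (ptq F Qt ω, L ω)) F.isLaw (r := fun D (s : (Fin 3 → ℝ) ×
          (Fin 1 → Fin 3 → ℝ)) => ∃ c : Fin 1 → ℝ, ∀ j, |D j - s.1 j - ∑ i, c i * s.2 i j| ≤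
            4 / 2 ^ h₁) hnc₁ ?_
      intro ω ω' _ _ e1
      have h1 := Prod.ext_iff.mp e1
      exact Prod.ext h1.1 (Prod.ext h1.2 h1.1))
  -- the full time
  have k2 : CH F.p Xz (fun ω => (zf ω, (F.zm w J' h (Box.plkC lam i₀) g).W ω)) ≤
      CH F.p Xz (fun ω => (zf ω, F.W ω)) + e := by
    have hT1 : ∀ ω : F.Ω, F.T1 (w + J') ω =
        2 ^ J' * F.T1 w ω + (F.zm w J' h (Box.plkC lam i₀) g).T ω := by
      intro ω
      have h1 := T1_zm F h (Box.plkC lam i₀) g (le_refl J') ω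
      rw [h1]
      congr 1
      change (F.zm w J' h (Box.plkC lam i₀) g).T ω / 2 ^ (J' - J') = _
      rw [Nat.sub_self, pow_zero, Nat.div_one]
    have hline : Det F.p (fun ω => (F.l ω, F.Z ω, F.T1 (w + J') ω)) (fun ω =>
        (slam F w ω, (F.zm w J' h (Box.plkC lam i₀) g).T ω)) := by
      intro ω ω' _ _ e1
      have h1 := Prod.ext_iff.mp e1
      have h2 := Prod.ext_iff.mp h1.2
      have h3 : F.T1 (w + J') ω = F.T1 (w + J') ω' := h2.2
      have h4 : F.T1 w ω = F.T1 w ω' := by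
        rw [T1_div F (w := w) (K := J') (by omega) ω, T1_div F (w := w) (K := J') (by omega) ω', h3]
      have h5 := hT1 ω
      have h6 := hT1 ω'
      rw [h3, h4] at h5
      refine Prod.ext (Prod.ext h1.1 (Prod.ext h2.1 h4)) ?_
      change (F.zm w J' h (Box.plkC lam i₀) g).T ω = (F.zm w J' h (Box.plkC lam i₀) g).T ω'
      omega
    have hXzd : Det F.p (fun ω => (F.l ω, F.Z ω, F.T1 (w + J') ω)) Xz := by
      intro ω ω' a b e1
      have h1 := Prod.ext_iff.mp (hline ω ω' a b e1)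
      have h2 : slam F w ω = slam F w ω' := h1.1
      have h3 : (F.zm w J' h (Box.plkC lam i₀) g).T ω =
        (F.zm w J' h (Box.plkC lam i₀) g).T ω' := h1.2
      obtain ⟨h4, h5, -⟩ := zm_slam F h (Box.plkC lam i₀) (hz.win _ _ h2) h2
      rw [hXz]
      change fl J' ((F.zm w J' h (Box.plkC lam i₀) g).x ω) =
        fl J' ((F.zm w J' h (Box.plkC lam i₀) g).x ω')
      congr 1
      funext i
      unfold Fam.x Fam.t
      rw [h4, h5, h3]
    have h1 := time_le F (g := w + J') h hTm Xz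
      (fun ω => (zf ω, (F.zm w J' h (Box.plkC lam i₀) g).W ω)) hXzd (by
        intro ω ω' a b e1
        have h1 := Prod.ext_iff.mp (hline ω ω' a b e1)
        have h2 : slam F w ω = slam F w ω' := h1.1
        obtain ⟨-, -, h5⟩ := zm_slam F h (Box.plkC lam i₀) (hz.win _ _ h2) h2
        have h6 := hz.cls' ω ω' a b h2
        rw [hzf]
        exact Prod.ext (Prod.ext h6 h5) (Prod.ext h1.2 h5)) (by
        intro ω ω' a b e1
        have h1 := Prod.ext_iff.mp e1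
        have h2 : (F.zm w J' h (Box.plkC lam i₀) g).T ω =
          (F.zm w J' h (Box.plkC lam i₀) g).T ω' := (Prod.ext_iff.mp h1.2).1
        have h3 : F.blab w (Box.plkC lam i₀) g ω = F.blab w (Box.plkC lam i₀) g ω' :=
          (Prod.ext_iff.mp h1.2).2
        have h4 : F.T1 w ω = F.T1 w ω' :=
          (Prod.ext_iff.mp (Prod.ext_iff.mp (Prod.ext_iff.mp h3).1).1).1
        rw [hT1 ω, hT1 ω', h2, h4])
    refine h1.trans (add_le_add (CH_mono_cond hp ?_) le_rfl)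
    intro ω ω' _ _ e1
    have h1 := Prod.ext_iff.mp e1
    have h2 := Prod.ext_iff.mp h1.2
    have h3 : F.blab w (Box.plkC lam i₀) g ω = F.blab w (Box.plkC lam i₀) g ω' :=
      (Prod.ext_iff.mp h2.2).2
    exact Prod.ext h2.1 (Prod.ext h1.1 (Prod.ext_iff.mp h3).2)
  -- the further digits
  have k3 := hf₂ J F _ _ _ (fun ω => (Xz ω, zf ω)) (fun ω => (L ω, ptq F Qt ω))
    (ptq F Qt) (w + J') g₂ h₂ R₂ Qt e ρ₂ (by omega) hQJ hTm (by
      intro ω ω' a b e1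
      have h0 := Join.slam_mono F (w := w) (w' := w + J') (by omega) (by omega) ω ω' a b e1
      have h1 := Prod.ext_iff.mp e1
      have h2 := Prod.ext_iff.mp h1.2
      obtain ⟨h4, h5, h6⟩ := zm_slam F h (Box.plkC lam i₀) (hz.win _ _ h0) h0
      have h7 := hz.cls' ω ω' a b h0
      have h8 : F.T1 (w + J') ω = F.T1 (w + J') ω' := h2.2
      have h9 := T1_zm F h (Box.plkC lam i₀) g (le_refl J') ω
      have h10 := T1_zm F h (Box.plkC lam i₀) g (le_refl J') ω'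
      have h11 : F.T1 w ω = F.T1 w ω' := (Prod.ext_iff.mp (Prod.ext_iff.mp h0).2).2
      have h12 : ∀ ω : F.Ω, (F.zm w J' h (Box.plkC lam i₀) g).T1 J' ω =
          (F.zm w J' h (Box.plkC lam i₀) g).T ω := by
        intro ω
        change (F.zm w J' h (Box.plkC lam i₀) g).T ω / 2 ^ (J' - J') = _
        rw [Nat.sub_self, pow_zero, Nat.div_one]
      rw [h12] at h9 h10
      have h13 : (F.zm w J' h (Box.plkC lam i₀) g).T ω =
          (F.zm w J' h (Box.plkC lam i₀) g).T ω' := by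
        rw [h8, h11] at h9
        omega
      have h14 : Xz ω = Xz ω' := by
        rw [hXz]
        change fl J' ((F.zm w J' h (Box.plkC lam i₀) g).x ω) =
          fl J' ((F.zm w J' h (Box.plkC lam i₀) g).x ω')
        congr 1
        funext i
        unfold Fam.x Fam.t
        rw [h4, h5, h13]
      rw [hzf]
      exact Prod.ext h14 (Prod.ext h7 h6)) (by
      intro ω ω' a b e1
      exact hvis ω ω' a b (Prod.ext_iff.mp e1).2) (by
      intro r hr ω ω' a b e1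
      exact hL₂ r hr ω ω' a b (Prod.ext_iff.mp e1).1) (by
      intro ω ω' _ _ e1
      have h1 := Prod.ext_iff.mp e1
      exact Prod.ext h1.1 (Prod.ext_iff.mp h1.2).1) hh₂ (by omega) (by
      refine NonConc.coarse (c := F.d)
        (g := fun ω => (ptq F Qt ω, L ω)) F.isLaw (r := fun D (s : (Fin 3 → ℝ) ×
          (Fin 0 → Fin 3 → ℝ)) => ∃ c : Fin 0 → ℝ, ∀ j, |D j - s.1 j - ∑ i, c i * s.2 i j| ≤
            4 / 2 ^ h₂) hnc₂ ?_
      intro ω ω' _ _ e1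
      have h1 := Prod.ext_iff.mp e1
      exact Prod.ext h1.1 (Prod.ext h1.2 h1.1))
  -- the chain
  have k4 : CH F.p (F.X Qt) (fun ω => (zf ω, F.W ω)) =
      CH F.p Xz (fun ω => (zf ω, F.W ω)) +
        CH F.p (F.X Qt) (fun ω => (Xz ω, (zf ω, F.W ω))) := by
    have c1 := CH_chain hp (F.X Qt) Xz (fun ω => (zf ω, F.W ω))
    rw [← c1]
    refine CH_congr hp ?_ ?_ (fun _ _ _ _ e => e) (fun _ _ _ _ e => e)
    · intro ω ω' a b e1
      have h1 := Prod.ext_iff.mp e1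
      have h2 := Prod.ext_iff.mp h1.2
      exact Prod.ext h1.1 (Prod.ext_iff.mp (hvis ω ω' a b (Prod.ext h1.1 h2.2))).1
    · intro ω ω' _ _ e1
      exact (Prod.ext_iff.mp (Prod.ext_iff.mp e1).1).1
  have k5 : CH F.p (F.X Qt) (fun ω => ((Xz ω, zf ω), F.W ω)) =
      CH F.p (F.X Qt) (fun ω => (Xz ω, (zf ω, F.W ω))) := by
    refine CH_congr hp (fun _ _ _ _ e => (Prod.ext_iff.mp e).1)
      (fun _ _ _ _ e => (Prod.ext_iff.mp e).1) ?_ ?_
    · intro ω ω' _ _ e1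
      have h1 := Prod.ext_iff.mp e1
      have h2 := Prod.ext_iff.mp h1.1
      exact Prod.ext h2.1 (Prod.ext h2.2 h1.2)
    · intro ω ω' _ _ e1
      have h1 := Prod.ext_iff.mp e1
      have h2 := Prod.ext_iff.mp h1.2
      exact Prod.ext (Prod.ext h1.1 h2.1) h2.2
  have k6 : CH (F.zm w J' h (Box.plkC lam i₀) g).p ((F.zm w J' h (Box.plkC lam i₀) g).X J')
      (fun ω => (zf ω, (F.zm w J' h (Box.plkC lam i₀) g).W ω)) =
      CH F.p Xz (fun ω => (zf ω, (F.zm w J' h (Box.plkC lam i₀) g).W ω)) := by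
    rw [hXz]
    rfl
  rw [k6] at k1
  rw [k5] at k3
  have m1 : (R₁ : ℝ) * C₁ ≤ R₁ * max C₁ C₂ :=
    mul_le_mul_of_nonneg_left (le_max_left _ _) (Nat.cast_nonneg _)
  have m2 : (R₂ : ℝ) * C₂ ≤ R₂ * max C₁ C₂ :=
    mul_le_mul_of_nonneg_left (le_max_right _ _) (Nat.cast_nonneg _)
  have m3 : C₁ ≤ max C₁ C₂ := le_max_left _ _
  have m4 : C₂ ≤ max C₁ C₂ := le_max_right _ _
  push_cast at k1 k3
  nlinarith [k1, k2, k3, k4, m1, m2, m3, m4]

end Pool.LBW
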