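import Pool.Agent.H35.ZCL.Az2
import Pool.Agent.H63.LBW.Fz

/-!
# Spread of the fans in the coordinates of frames
-/

set_option autoImplicit false

namespace Pool.LBW

open Finset Real
open Pool.Agent.H49.Ent Pool.Agent.H32.Dense Pool.STK Pool.KA Pool.KSAT Pool.K2S Pool.K3 Pool.PB
open Pool.ZCL (half_or thin_ball)
open Pool.S6K (ball_claim)

variable {m J : ℕ}

/-- **Spread of the fans in the coordinates of frames.** -/
theorem spr2 (F : Fam m J) {i₀ : Fin m} {r l h : ℕ} {B : F.Ω → Prop}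
    {z : F.Ω → Fin m → ℝ} (hzv : ∃ γ : (Fin m → ℤ) × (ℕ × F.ζ) → Fin m → ℝ, ∀ ω, B ω → z ω = γ (ptr F r ω))
    (hzvel : ∀ ω ω', B ω → B ω' → ptr F r ω = ptr F r ω' → ∀ i,
      |pco l i₀ (z ω) (F.d ω) i - pco l i₀ (z ω') (F.d ω') i| ≤ 6)
    (hP : PlU 1 (2 / 2 ^ (2 * h)) (ptr F r) (fun ω => pco l i₀ (z ω) (F.d ω)) B) :
    ∃ B' : F.Ω → Prop, Sub B' B ∧ Pe F.p B ≤ 2 * Pe F.p B' ∧
      (LineU i₀ (4 / 2 ^ (l + h)) (ptr F r) F.d B' ∨
        ∀ ω ω', B' ω → B' ω' → ptr F r ω = ptr F r ω' →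
          |F.d ω i₀ - F.d ω' i₀| ≤ 14 / 2 ^ h) := by
  classical
  have hp := F.isLaw
  have p0 : (0 : ℝ) < 2 ^ l := by positivity
  have q0 : (1 : ℝ) ≤ 2 ^ h := one_le_pow₀ (by norm_num)
  have q0' : (0 : ℝ) < 2 ^ h := by positivity
  obtain ⟨γ, hγ⟩ := hzv
  obtain ⟨ζ, hζ⟩ := hP
  obtain ⟨ρ, hρ⟩ : ∃ ρ : ℝ, ρ = 2 / 2 ^ (2 * h) := ⟨_, rfl⟩
  have hρh : ρ * 2 ^ h = 2 / 2 ^ h := by
    rw [hρ, two_mul, pow_add]
    field_simp
  have hρ0 : 0 ≤ ρ := by rw [hρ]; positivity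
  have hρ1 : ρ ≤ 2 / 2 ^ h := by
    rw [← hρh]
    nlinarith
  have hρ2 : ρ ≤ 2 := by
    refine hρ1.trans ?_
    rw [div_le_iff₀ q0']
    nlinarith
  -- the direction of the line
  obtain ⟨v, hv⟩ : ∃ v : (Fin m → ℤ) × (ℕ × F.ζ) → Fin m → ℝ, v = fun y => (ζ y).2 0 :=
    ⟨_, rfl⟩
  obtain ⟨s, hs⟩ : ∃ s : (Fin m → ℤ) × (ℕ × F.ζ) → Fin m → ℝ, s = fun y => (ζ y).1 := ⟨_, rfl⟩
  have hline : ∀ ω, B ω → ∃ c : ℝ, ∀ i, |pco l i₀ (z ω) (F.d ω) i - s (ptr F r ω) i -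
      c * v (ptr F r ω) i| ≤ ρ := by
    intro ω hω
    obtain ⟨c, hc⟩ := hζ ω hω
    refine ⟨c 0, fun i => ?_⟩
    have h1 := hc i
    rw [Fin.sum_univ_one] at h1
    rw [hs, hv, hρ]
    exact h1
  rcases half_or hp (A := B) (S := fun ω => B ω ∧ ∀ j, |v (ptr F r ω) j| ≤
      2 ^ h * |v (ptr F r ω) i₀|)
    (T := fun ω => B ω ∧ ∃ j, 2 ^ h * |v (ptr F r ω) i₀| < |v (ptr F r ω) j|)
    (fun ω hω => by
      by_cases hj : ∀ j, |v (ptr F r ω) j| ≤ 2 ^ h * |v (ptr F r ω) i₀|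
      · exact Or.inl ⟨hω, hj⟩
      · push Not at hj
        exact Or.inr ⟨hω, hj⟩) with hS | hT
  · refine ⟨_, fun ω hω => hω.1, hS, Or.inl ?_⟩
    obtain ⟨σ, hσ⟩ : ∃ σ : (Fin m → ℤ) × (ℕ × F.ζ) → Fin m → ℝ, σ = fun y j =>
      v y j / v y i₀ := ⟨_, rfl⟩
    refine ⟨fun y j => if j = i₀ then 1 else γ y j + σ y j / 2 ^ l,
      fun y j => if j = i₀ then 0 else (s y j - σ y j * s y i₀) / 2 ^ l, fun ω hω j => ?_⟩
    simp only
    by_cases hj : j = i₀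
    · rw [if_pos hj, if_pos hj, hj]
      have : F.d ω i₀ - 1 * F.d ω i₀ - 0 = 0 := by ring
      rw [this, abs_zero]
      positivity
    · rw [if_neg hj, if_neg hj]
      obtain ⟨c, hc⟩ := hline ω hω.1
      have c1 := hc j
      have c2 := hc i₀
      unfold pco at c1 c2
      rw [if_neg hj] at c1
      rw [if_pos rfl] at c2
      have hγω : z ω j = γ (ptr F r ω) j := congrFun (hγ ω hω.1) j
      rw [hγω] at c1
      obtain ⟨y, hy⟩ : ∃ y, y = ptr F r ω := ⟨_, rfl⟩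
      have hflat := hω.2
      rw [← hy] at c1 c2 hflat ⊢
      have hσv : σ y j * v y i₀ = v y j := by
        rw [hσ]
        simp only
        by_cases h0 : v y i₀ = 0
        · have := hflat j
          rw [h0, abs_zero, mul_zero] at this
          have h1 : v y j = 0 := abs_eq_zero.1 (le_antisymm this (abs_nonneg _))
          rw [h1, h0]
          simp
        · field_simp
      have hσ1 : |σ y j| ≤ 2 ^ h := by
        rw [hσ]
        simp only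
        rw [abs_div]
        by_cases h0 : v y i₀ = 0
        · rw [h0, abs_zero, div_zero]
          exact q0'.le
        · rw [div_le_iff₀ (abs_pos.2 h0)]
          exact hflat j
      have e1 : F.d ω j - (γ y j + σ y j / 2 ^ l) * F.d ω i₀ -
          (s y j - σ y j * s y i₀) / 2 ^ l =
          ((2 ^ l * (F.d ω j - γ y j * F.d ω i₀) - s y j - c * v y j) -
            σ y j * (F.d ω i₀ - s y i₀ - c * v y i₀)) / 2 ^ l := by
        rw [← hσv]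
        field_simp
        ring
      rw [e1, abs_div, abs_of_pos p0]
      have e2 : (4 : ℝ) / 2 ^ (l + h) = 4 / 2 ^ h / 2 ^ l := by
        rw [pow_add]
        field_simp
      rw [e2]
      refine div_le_div_of_nonneg_right ?_ p0.le
      have d1 : |σ y j * (F.d ω i₀ - s y i₀ - c * v y i₀)| ≤ 2 ^ h * ρ := by
        rw [abs_mul]
        exact mul_le_mul hσ1 c2 (abs_nonneg _) q0'.le
      have d2 : (2 : ℝ) ^ h * ρ = 2 / 2 ^ h := by rw [mul_comm]; exact hρh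
      rw [d2] at d1
      have e3 : (4 : ℝ) / 2 ^ h = 2 / 2 ^ h + 2 / 2 ^ h := by ring
      rw [e3]
      exact (abs_sub _ _).trans (add_le_add (c1.trans hρ1) d1)
  · refine ⟨_, fun ω hω => hω.1, hT, Or.inr fun ω ω₀ hω hω₀ hpt => ?_⟩
    obtain ⟨c, hc⟩ := hline ω hω.1
    obtain ⟨c₀, hc₀⟩ := hline ω₀ hω₀.1
    rw [← hpt] at hc₀
    obtain ⟨k, hk⟩ := hω.2
    have c1 := hc i₀
    have c2 := hc₀ i₀
    have c3 := hc k
    have c4 := hc₀ k
    have c5 := hzvel _ _ hω.1 hω₀.1 hpt k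
    have c6 : pco l i₀ (z ω) (F.d ω) i₀ = F.d ω i₀ := by unfold pco; rw [if_pos rfl]
    have c7 : pco l i₀ (z ω₀) (F.d ω₀) i₀ = F.d ω₀ i₀ := by unfold pco; rw [if_pos rfl]
    rw [c6] at c1
    rw [c7] at c2
    -- the base velocity
    have c8 : |(c - c₀) * v (ptr F r ω) k| ≤ 10 := by
      have : (c - c₀) * v (ptr F r ω) k =
          (pco l i₀ (z ω) (F.d ω) k - pco l i₀ (z ω₀) (F.d ω₀) k) -
          ((pco l i₀ (z ω) (F.d ω) k - s (ptr F r ω) k - c * v (ptr F r ω) k) -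
          (pco l i₀ (z ω₀) (F.d ω₀) k - s (ptr F r ω) k - c₀ * v (ptr F r ω) k)) := by ring
      rw [this]
      rw [abs_le] at c3 c4 c5 ⊢
      constructor <;> linarith [c3.1, c3.2, c4.1, c4.2, c5.1, c5.2]
    have c9 : |(c - c₀) * v (ptr F r ω) i₀| ≤ 10 / 2 ^ h := by
      rw [le_div_iff₀ q0', abs_mul]
      rw [abs_mul] at c8
      calc |c - c₀| * |v (ptr F r ω) i₀| * 2 ^ h =
            |c - c₀| * (2 ^ h * |v (ptr F r ω) i₀|) := by ring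
        _ ≤ |c - c₀| * |v (ptr F r ω) k| :=
            mul_le_mul_of_nonneg_left hk.le (abs_nonneg _)
        _ ≤ 10 := c8
    have e1 : F.d ω i₀ - F.d ω₀ i₀ = (F.d ω i₀ - s (ptr F r ω) i₀ -
        c * v (ptr F r ω) i₀) - (F.d ω₀ i₀ - s (ptr F r ω) i₀ -
        c₀ * v (ptr F r ω) i₀) + (c - c₀) * v (ptr F r ω) i₀ := by ring
    have e2 : (14 : ℝ) / 2 ^ h = 2 / 2 ^ h + 2 / 2 ^ h + 10 / 2 ^ h := by ring
    rw [e1, e2]
    have c1' := c1.trans hρ1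
    have c2' := c2.trans hρ1
    rw [abs_le] at c1' c2' c9 ⊢
    constructor <;> linarith [c1'.1, c1'.2, c2'.1, c2'.2, c9.1, c9.2]


/-- Planes for the velocities of the zoom are planes in the coordinates of the frames. -/
theorem plu_zm (F : Fam m J) {w J' r : ℕ} (h : w + J' ≤ J) {κ : Type} {C : Crd m κ} (g : F.Ω → κ)
    {B : F.Ω → Prop} {j : ℕ} {ρ : ℝ}
    (hv : ∃ φ : (Fin m → ℤ) × (ℕ × F.ζ) → Fin m → ℤ, ∀ ω, B ω → F.bvl C g ω = φ (ptr F r ω))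
    (hP : PlU j ρ (ptr F r) (F.zm w J' h C g).d B) :
    PlU j (ρ + 1 / 2 ^ J') (ptr F r) (fun ω => C.L (g ω) (F.d ω)) B := by
  obtain ⟨φ₁, hφ₁⟩ := hv
  obtain ⟨ζ, hζ⟩ := hP
  refine ⟨fun y => (fun i => (ζ y).1 i + φ₁ y i, (ζ y).2), fun ω hω => ?_⟩
  obtain ⟨c, hc⟩ := hζ ω hω
  refine ⟨c, fun i => ?_⟩
  have h1 := hc i
  have h2 := Pool.ZCL.zm_d F h C g ω i
  have h3 : F.bvl C g ω i = φ₁ (ptr F r ω) i := congrFun (hφ₁ ω hω) i
  simp only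
  rw [h3] at h2
  rw [abs_le] at h1 h2 ⊢
  constructor <;> linarith [h1.1, h1.2, h2.1, h2.2]

/-- **Spread of the fans of the zoom.** Lines through the fans of the zoom give straighter fans of
the family. -/
theorem spr_zm {m : ℕ} {a R h₁ : ℝ} (ha : 1 ≤ a) (hR : 0 < R) (hU : UBa m a R) (hh₁ : 0 < h₁)
    (i₀ : Fin m) {g : ℝ} (hg : 0 < g) : ∃ τ > 0, ∃ J₁ : ℕ, ∀ J ≥ J₁, ∀ (F : Fam m J)
    (A : F.Ω → Prop), Fam.Stt F a R τ A → Lb F i₀ ⌊h₁ * J⌋₊ A →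
    ∀ (r w lam J' : ℕ) (z : F.Ω → Fin m → ℝ) (h : w + J' ≤ J), r ≤ J →
    (∃ γ : (Fin m → ℤ) × (ℕ × F.ζ) → Fin m → ℝ, ∀ ω, A ω → z ω = γ (ptr F r ω)) →
    (∃ φ : (Fin m → ℤ) × (ℕ × F.ζ) → Fin m → ℤ, ∀ ω, A ω →
      F.bvl (Box.plkC lam i₀) z ω = φ (ptr F r ω)) →
    ∀ B : F.Ω → Prop, Sub B A → Real.exp (-(τ * J)) * Pe F.p A ≤ Pe F.p B →
    ∀ q : ℕ, g * J ≤ q → q ≤ J' →
    PlU 1 (1 / 2 ^ q) (ptr F r) (F.zm w J' h (Box.plkC lam i₀) z).d B →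
    ∃ B' : F.Ω → Prop, Sub B' B ∧ Pe F.p B ≤ 2 * Pe F.p B' ∧
      LineU i₀ (4 / 2 ^ (lam + q / 2)) (ptr F r) F.d B' := by
  classical
  obtain ⟨x, hx⟩ : ∃ x, x = min (g / 8) (h₁ / 4) := ⟨_, rfl⟩
  have hx0 : 0 < x := by rw [hx]; exact lt_min (by positivity) (by positivity)
  have hx1 : x ≤ g / 8 := by rw [hx]; exact min_le_left _ _
  have hx2 : x ≤ h₁ / 4 := by rw [hx]; exact min_le_right _ _
  obtain ⟨τb, hτb, Jb, hball⟩ := ball_claim (m := m) ha hR hU hx0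
  obtain ⟨Je, hJe⟩ := Pool.S6K.exp_small (show (0 : ℝ) < τb / 3 by positivity)
    (show (1 : ℝ) ≤ 2 by norm_num)
  obtain ⟨Jx, hJx⟩ := exists_nat_gt (8 / x + 8 / h₁ + 8 / g)
  refine ⟨τb / 3, by positivity, max (max Jb Je) Jx, fun J hJ F A hS hL r w lam J' z h hrJ hzv
    hbv B hBA hB q hq hqJ hP => ?_⟩
  have hJb : Jb ≤ J := (le_max_left _ _).trans ((le_max_left _ _).trans hJ)
  have hJe' : Je ≤ J := (le_max_right _ _).trans ((le_max_left _ _).trans hJ)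
  have hJx' : 8 / x + 8 / h₁ + 8 / g < J :=
    hJx.trans_le (by exact_mod_cast (le_max_right _ _).trans hJ)
  have q1 : 0 < 8 / x := by positivity
  have q2 : 0 < 8 / h₁ := by positivity
  have q3 : 0 < 8 / g := by positivity
  have hJr : (0 : ℝ) < J := by linarith
  have hxJ : 8 ≤ x * J := by
    have : 8 / x ≤ J := by linarith
    rw [div_le_iff₀ hx0] at this
    linarith
  have hp := F.isLaw
  have hA0 : 0 < Pe F.p A := lt_of_lt_of_le (Real.exp_pos _) hS.2.2.2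
  obtain ⟨γ, hγ⟩ := hzv
  obtain ⟨φ, hφ⟩ := hbv
  have hPl := plu_zm F h z (C := Box.plkC lam i₀) ⟨φ, fun ω hω => hφ ω (hBA ω hω)⟩ hP
  have hPl2 : PlU 1 (2 / 2 ^ (2 * (q / 2))) (ptr F r)
      (fun ω => pco lam i₀ (z ω) (F.d ω)) B := by
    refine PlU.mono ?_ hPl
    have e1 : (1 : ℝ) / 2 ^ q ≤ 1 / 2 ^ (2 * (q / 2)) := inv_mono (by omega)
    have e2 : (1 : ℝ) / 2 ^ J' ≤ 1 / 2 ^ (2 * (q / 2)) := inv_mono (by omega)
    have e3 : (2 : ℝ) / 2 ^ (2 * (q / 2)) = 1 / 2 ^ (2 * (q / 2)) + 1 / 2 ^ (2 * (q / 2)) := by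
      ring
    rw [e3]
    exact add_le_add e1 e2
  have hvel : ∀ ω ω', B ω → B ω' → ptr F r ω = ptr F r ω' → ∀ i,
      |pco lam i₀ (z ω) (F.d ω) i - pco lam i₀ (z ω') (F.d ω') i| ≤ 6 := by
    intro ω ω' hω hω' hpt i
    have h1 := Box.bvl_eq F w (Box.plkC lam i₀) z ω i
    have h2 := Box.bvl_eq F w (Box.plkC lam i₀) z ω' i
    have h3 := Box.d_mem F w (Box.plkC lam i₀) z ω i
    have h4 := Box.d_mem F w (Box.plkC lam i₀) z ω' i
    have h5 : F.bvl (Box.plkC lam i₀) z ω i = F.bvl (Box.plkC lam i₀) z ω' i := by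
      rw [hφ ω (hBA ω hω), hφ ω' (hBA ω' hω'), hpt]
    have h6 : (Box.plkC lam i₀).L (z ω) (F.d ω) i = pco lam i₀ (z ω) (F.d ω) i := rfl
    have h7 : (Box.plkC lam i₀).L (z ω') (F.d ω') i = pco lam i₀ (z ω') (F.d ω') i := rfl
    rw [h6] at h1
    rw [h7, ← h5] at h2
    rw [h1, h2, abs_le]
    constructor <;> linarith [h3.1, h3.2, h4.1, h4.2]
  obtain ⟨B₂, hB₂, hP₂, halt⟩ := spr2 F ⟨γ, fun ω hω => hγ ω (hBA ω hω)⟩ hvel hPl2
  rcases halt with h1 | h1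
  · exact ⟨B₂, hB₂, hP₂, h1⟩
  · exfalso
    have hB₂A : Sub B₂ A := fun ω hω => hBA ω (hB₂ ω hω)
    have hb := thin_ball (h := q / 2) (h₁ := ⌊h₁ * J⌋₊) hrJ (LineAt.hered _ _ _ _ _ _ hB₂A hL) h1
    -- the precision
    obtain ⟨s, hs⟩ : ∃ s : ℕ, s = ⌈x * J⌉₊ := ⟨_, rfl⟩
    have hs1 : x * J ≤ s := by rw [hs]; exact Nat.le_ceil _
    have hs2 : (s : ℝ) < x * J + 1 := by rw [hs]; exact Nat.ceil_lt_add_one (by positivity)
    have hgJ : 8 * (x * J) ≤ g * J := by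
      have := mul_le_mul_of_nonneg_right hx1 hJr.le
      linarith
    have hhJ : 4 * (x * J) ≤ h₁ * J := by
      have := mul_le_mul_of_nonneg_right hx2 hJr.le
      linarith
    have hsq : s + 5 ≤ q / 2 := by
      rw [Nat.le_div_iff_mul_le (by norm_num)]
      have : (((s + 5) * 2 : ℕ) : ℝ) ≤ q := by
        push_cast
        linarith
      exact_mod_cast this
    have hsh : s + 2 ≤ ⌊h₁ * (J : ℝ)⌋₊ := by
      refine Nat.le_floor ?_
      push_cast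
      linarith
    have hsJ : s ≤ J := by
      have h5 : s + 5 ≤ q := hsq.trans (Nat.div_le_self q 2)
      omega
    have hPB₂ : Real.exp (-((τb / 3 + τb / 3) * J)) * Pe F.p A ≤ Pe F.p B₂ := by
      have h2 := hJe J hJe'
      rw [le_div_iff₀ (by norm_num : (0 : ℝ) < 2)] at h2
      have e1 : Real.exp (-((τb / 3 + τb / 3) * J)) =
          Real.exp (-(τb / 3 * J)) * Real.exp (-(τb / 3 * J)) := by
        rw [← Real.exp_add]
        congr 1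
        ring
      rw [e1, mul_assoc]
      calc Real.exp (-(τb / 3 * J)) * (Real.exp (-(τb / 3 * J)) * Pe F.p A) ≤
            Real.exp (-(τb / 3 * J)) * (2 * Pe F.p B₂) :=
            mul_le_mul_of_nonneg_left (hB.trans hP₂) (Real.exp_pos _).le
        _ = (Real.exp (-(τb / 3 * J)) * 2) * Pe F.p B₂ := by ring
        _ ≤ 1 * Pe F.p B₂ := mul_le_mul_of_nonneg_right h2 (Pe_nonneg hp B₂)
        _ = _ := one_mul _
    have hS₂ : Fam.Stt F a R τb B₂ := by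
      have h4 := Fam.Stt.mono (by linarith : τb / 3 ≤ τb) hS
      refine ⟨h4.1, h4.2.1, h4.2.2.1, le_trans ?_ hPB₂⟩
      refine le_trans ?_ (mul_le_mul_of_nonneg_left hS.2.2.2 (Real.exp_pos _).le)
      rw [← Real.exp_add]
      refine Real.exp_le_exp.2 ?_
      have : -(τb * (J : ℝ)) = -((τb / 3 + τb / 3) * J) + -(τb / 3 * J) := by ring
      rw [this]
    refine hball J hJb F B₂ hS₂ s hsJ hs1 ?_
    obtain ⟨ζ, hζ⟩ := hb
    refine ⟨ζ, fun ω hω j => (hζ ω hω j).trans ?_⟩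
    have e1 : (14 : ℝ) / 2 ^ (q / 2) ≤ 14 / 2 ^ (s + 5) :=
      div_le_div_of_nonneg_left (by norm_num) (by positivity)
        (pow_le_pow_right₀ (by norm_num) hsq)
    have e2 : (2 : ℝ) / 2 ^ ⌊h₁ * (J : ℝ)⌋₊ ≤ 2 / 2 ^ (s + 2) :=
      div_le_div_of_nonneg_left (by norm_num) (by positivity)
        (pow_le_pow_right₀ (by norm_num) hsh)
    have e3 : (14 : ℝ) / 2 ^ (s + 5) = 14 / 32 * (1 / 2 ^ s) := by
      rw [pow_add]
      norm_num
      ring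
    have e4 : (2 : ℝ) / 2 ^ (s + 2) = 1 / 2 * (1 / 2 ^ s) := by
      rw [pow_add]
      norm_num
      ring
    have e5 : (0 : ℝ) < 1 / 2 ^ s := by positivity
    linarith

end Pool.LBW
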