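import Pool.Agent.H63.LBW.Core
import Pool.Agent.H63.LBW.Spr
import Pool.Agent.H80.KS6.Epl

/-!
# Cleaning two properties of the same points
-/

set_option autoImplicit false

namespace Pool.LBW

open Finset Real
open Pool.Agent.H49.Ent Pool.Agent.H32.Dense Pool.STK Pool.KA Pool.KSAT Pool.K2S Pool.K3 Pool.PB
  Pool.KS6

section Gen

variable {Ω S S' S₁ S₁' S₂ S₂' T L : Type} [Fintype Ω]

/-- Nonconcentration passes to an event which is a union of fibres. -/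
theorem NonConc.fib {p : Ω → ℝ} (hp : IsLaw p) {A : Ω → Prop} (hA : 0 < Pe p A) {c : Ω → S'}
    {g : Ω → T} {r : S' → S → Prop} {ρ : ℝ}
    (h : NonConc (Pool.Agent.H49.Ent.cond p A True) c g r ρ) {N : Ω → Prop}
    (hN : ∀ ω ω', g ω = g ω' → (N ω ↔ N ω')) (hA'0 : 0 < Pe p (fun ω => A ω ∧ ¬ N ω)) :
    NonConc (Pool.Agent.H49.Ent.cond p (fun ω => A ω ∧ ¬ N ω) True) c g r ρ := by
  classical
  obtain ⟨q, hq⟩ : ∃ q, q = Pool.Agent.H49.Ent.cond p A True := ⟨_, rfl⟩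
  rw [← hq] at h
  obtain ⟨A', hA'⟩ : ∃ A' : Ω → Prop, A' = fun ω => A ω ∧ ¬ N ω := ⟨_, rfl⟩
  rw [← hA'] at hA'0 ⊢
  have hfib : ∀ ω₀, ¬ N ω₀ → ∀ ω, g ω = g ω₀ →
      Pool.Agent.H49.Ent.cond p A' True ω = Pe p A / Pe p A' * q ω := by
    intro ω₀ h0 ω hω
    have hNω : ¬ N ω := fun h => h0 ((hN ω ω₀ hω).1 h)
    rw [hq]
    unfold Pool.Agent.H49.Ent.cond
    by_cases hAω : A ω
    · rw [if_pos (by simp [hA', hAω, hNω]), if_pos (by simp [hAω])]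
      rw [div_mul_div_comm, mul_comm (Pe p A), mul_div_mul_right _ _ hA.ne']
    · rw [if_neg (by simp [hA', hAω]), if_neg (by simp [hAω]), mul_zero]
  intro ω hω s
  have hω' := (cond_pos_iff hp.nonneg A' True ω).1 hω
  have hωA : A' ω := by simpa using hω'.2
  have hωA2 : A ω ∧ ¬ N ω := by rw [hA'] at hωA; exact hωA
  have hωq : 0 < q ω := by
    rw [hq]
    exact (cond_pos_iff hp.nonneg A True ω).2 ⟨hω'.1, by simp [hωA2.1]⟩
  have e1 : mas (Pool.Agent.H49.Ent.cond p A' True) c g r (g ω) s =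
      Pe p A / Pe p A' * mas q c g r (g ω) s := by
    unfold mas
    rw [Pe_eq (Pool.Agent.H49.Ent.cond p A' True), Pe_eq q, Finset.mul_sum]
    refine Finset.sum_congr rfl fun w _ => ?_
    by_cases h : g w = g ω ∧ r (c w) s
    · rw [if_pos h, if_pos h, hfib ω hωA2.2 w h.1]
    · rw [if_neg h, if_neg h, mul_zero]
  have e2 : law (Pool.Agent.H49.Ent.cond p A' True) g (g ω) =
      Pe p A / Pe p A' * law q g (g ω) := by
    rw [law_eq_sum (Pool.Agent.H49.Ent.cond p A' True), law_eq_sum q, Finset.mul_sum]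
    refine Finset.sum_congr rfl fun w _ => ?_
    by_cases h : g w = g ω
    · rw [if_pos h, if_pos h, hfib ω hωA2.2 w h]
    · rw [if_neg h, if_neg h, mul_zero]
  have e3 := h ω hωq s
  rw [e1, e2]
  have h5 : 0 ≤ Pe p A / Pe p A' := div_nonneg hA.le hA'0.le
  nlinarith

/-- **Cleaning of two properties**, with additional labels. -/
theorem clean2 {p : Ω → ℝ} (hp : IsLaw p) {κ δ : ℝ} (hδ : 0 < δ) (hκ : 2 * Real.log 2 ≤ κ)
    {A : Ω → Prop} (hA : 0 < Pe p A) {c₁ : Ω → S₁'} {c₂ : Ω → S₂'} {g : Ω → T} (l : Ω → L)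
    {r₁ : S₁' → S₁ → Prop} {r₂ : S₂' → S₂ → Prop} [Nonempty S₁] [Nonempty S₂]
    (h₁ : ∀ B : Ω → Prop, Sub B A →
      Real.exp (-(κ + 2 * δ + 2 * Real.log 2)) * Pe p A ≤ Pe p B → ¬ Fn c₁ g r₁ B)
    (h₂ : ∀ B : Ω → Prop, Sub B A →
      Real.exp (-(κ + 2 * δ + 2 * Real.log 2)) * Pe p A ≤ Pe p B → ¬ Fn c₂ g r₂ B)
    (hl : ∀ B : Ω → Prop, Sub B A → 0 < Pe p B →
      CH (Pool.Agent.H49.Ent.cond p B True) l g ≤ δ) :
    ∃ A' : Ω → Prop, Sub A' A ∧ Pe p A ≤ 4 * Pe p A' ∧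
      NonConc (Pool.Agent.H49.Ent.cond p A' True) c₁ (fun ω => (g ω, l ω)) r₁
        (Real.exp (-(κ / 2))) ∧
      NonConc (Pool.Agent.H49.Ent.cond p A' True) c₂ (fun ω => (g ω, l ω)) r₂
        (Real.exp (-(κ / 2))) := by
  classical
  have hl2 : 0 < Real.log 2 := Real.log_pos (by norm_num)
  have hself : Real.exp (-(κ + 2 * δ + 2 * Real.log 2)) * Pe p A ≤ Pe p A := by
    have : Real.exp (-(κ + 2 * δ + 2 * Real.log 2)) ≤ 1 := by
      rw [Real.exp_le_one_iff]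
      linarith
    calc _ ≤ 1 * Pe p A := mul_le_mul_of_nonneg_right this hA.le
      _ = _ := one_mul _
  have n1 := h₁ A (fun _ h => h) hself
  have n2 := h₂ A (fun _ h => h) hself
  obtain ⟨s1, n1'⟩ := Stb.refine hp (Or.inr h₁ : Stb p (κ + 2 * δ + 2 * Real.log 2) A
    (Fn c₁ g r₁)) n1 hA hδ hl (by linarith)
  obtain ⟨s2, n2'⟩ := Stb.refine hp (Or.inr h₂ : Stb p (κ + 2 * δ + 2 * Real.log 2) A
    (Fn c₂ g r₂)) n2 hA hδ hl (by linarith)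
  have s1' := s1.mono hp (κ' := κ) (by linarith)
  obtain ⟨c1, c2⟩ := Stb.clean hp hκ hA s1' n1' rfl
  obtain ⟨N₁, hN₁⟩ : ∃ N₁, N₁ = Pop (Pool.Agent.H49.Ent.cond p A True) c₁
    (fun ω => (g ω, l ω)) r₁ (Real.exp (-(κ / 2))) := ⟨_, rfl⟩
  rw [← hN₁] at c1 c2
  have d1 := Pe_diff c1
  obtain ⟨A₁, hA₁⟩ : ∃ A₁ : Ω → Prop, A₁ = fun ω => A ω ∧ ¬ N₁ ω := ⟨_, rfl⟩
  rw [← hA₁] at d1 c2
  have e2 : Real.exp (-Real.log 2) = 1 / 2 := by
    rw [Real.exp_neg, Real.exp_log (by norm_num)]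
    norm_num
  rw [e2] at d1
  have hA₁0 : 0 < Pe p A₁ := by linarith
  have hA₁A : Sub A₁ A := by rw [hA₁]; exact fun _ h => h.1
  have hs2 : ∀ B : Ω → Prop, Sub B A₁ → Real.exp (-κ) * Pe p A₁ ≤ Pe p B →
      ¬ Fn c₂ (fun ω => (g ω, l ω)) r₂ B := by
    intro B hB hPB
    rcases s2 with s2 | s2
    · exact absurd s2 n2'
    · refine s2 B (fun ω hω => hA₁A ω (hB ω hω)) (le_trans ?_ hPB)
      have e3 : -(κ + 2 * δ + 2 * Real.log 2 - (2 * δ + Real.log 2)) = -κ + -Real.log 2 := by ring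
      rw [e3, Real.exp_add, e2, mul_assoc]
      exact mul_le_mul_of_nonneg_left d1 (Real.exp_pos _).le
  have n3 : ¬ Fn c₂ (fun ω => (g ω, l ω)) r₂ A₁ := by
    refine hs2 A₁ (fun _ h => h) ?_
    have : Real.exp (-κ) ≤ 1 := by
      rw [Real.exp_le_one_iff]
      linarith
    calc _ ≤ 1 * Pe p A₁ := mul_le_mul_of_nonneg_right this hA₁0.le
      _ = _ := one_mul _
  obtain ⟨c3, c4⟩ := Stb.clean hp hκ hA₁0 (Or.inr hs2 : Stb p κ A₁
    (Fn c₂ (fun ω => (g ω, l ω)) r₂)) n3 rfl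
  obtain ⟨N₂, hN₂⟩ : ∃ N₂, N₂ = Pop (Pool.Agent.H49.Ent.cond p A₁ True) c₂
    (fun ω => (g ω, l ω)) r₂ (Real.exp (-(κ / 2))) := ⟨_, rfl⟩
  rw [← hN₂] at c3 c4
  have d2 := Pe_diff c3
  rw [e2] at d2
  refine ⟨fun ω => A₁ ω ∧ ¬ N₂ ω, fun ω hω => hA₁A ω hω.1, by linarith, ?_, c4⟩
  refine NonConc.fib hp hA₁0 c2 ?_ (by linarith)
  intro ω ω' e
  rw [hN₂]
  unfold Pop
  simp only at e ⊢
  rw [e]

end Gen

/-- The label of the window, given the position of precision `Qt` and the time. -/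
theorem CH_c_ptq {J : ℕ} (F : Fam 3 J) {w Qt : ℕ} (h : w ≤ Qt) (hQ : Qt ≤ J) :
    CH F.p (F.c w) (ptq F Qt) ≤ cc 3 := by
  have hp := F.isLaw.nonneg
  have h1 := Rows.CH_x1_X F (h.trans hQ) (ptq F Qt)
  have h2 : CH F.p (F.X w) (ptq F Qt) = 0 := by
    refine CH_eq_zero hp fun ω ω' _ _ e => ?_
    exact Pool.STK.B58.fl_fine h (Prod.ext_iff.mp e).1
  have h3 : CH F.p (F.c w) (ptq F Qt) ≤ CH F.p (fun ω => fl w (F.x1 w ω)) (ptq F Qt) := by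
    have a1 := CH_le_add hp (F.c w) (fun ω => fl w (F.x1 w ω)) (ptq F Qt)
    have a2 : CH F.p (F.c w) (fun ω => (fl w (F.x1 w ω), ptq F Qt ω)) = 0 := by
      refine CH_eq_zero hp fun ω ω' _ _ e => ?_
      have b := Prod.ext_iff.mp e
      have b2 : F.W ω = F.W ω' := (Prod.ext_iff.mp b.2).2
      have b3 : F.T ω = F.T ω' ∧ F.Z ω = F.Z ω' := Prod.ext_iff.mp b2
      refine Prod.ext (Prod.ext ?_ b.1) b3.2
      change F.T1 w ω = F.T1 w ω'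
      unfold Fam.T1
      rw [b3.1]
    linarith
  linarith

end Pool.LBW
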