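import Pool.Agent.H63.LBW.Upp

/-!
# The position of the second sample, without the implicit label
-/

set_option autoImplicit false

namespace Pool.LBW

open Finset Real
open Pool.Agent.H49.Ent Pool.Agent.H32.Dense Pool.STK Pool.KA Pool.KSAT Pool.K2S Pool.K3 Pool.PB
  Pool.KS6

open Classical in
/-- **Upper bound** without the label: the position of the second sample given the box of the first
one. -/
theorem upp0 {J : ℕ} {F : Fam 3 J} {Qt : ℕ} {i₀ i₁ : Fin 3}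
    {w lam J' D P : ℕ} {h : w + J' ≤ J} {g : F.Ω → Fin 3 → ℝ} {V : Type} {z : F.Ω → V}
    {R : V → MvPolynomial (Option (Fin 3)) ℝ} (hz : Zlb F Qt i₀ i₁ w lam J' D P h g z R)
    {w₀ : ℕ} (hw₀ : w₀ ≤ w) (hQt : Qt = w + J' + lam) :
    CH (prs F w₀) (fun v => F.X Qt v.2)
      (fun v => ((z v.1, F.blab w (Box.plkC lam i₀) g v.1), (F.T v.1, F.W v.2))) ≤
      (4 * (J' : ℝ) + lam + 4 * ((w : ℝ) - w₀) + 20) * Real.log 2 := by
  obtain ⟨Q, hQ⟩ : ∃ Q, Q = prs F w₀ := ⟨_, rfl⟩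
  rw [← hQ]
  have hlaw : IsLaw Q := by rw [hQ]; exact prs_law F w₀
  have h0 := hlaw.nonneg
  obtain ⟨Y, hY⟩ : ∃ Y, Y = w - w₀ := ⟨_, rfl⟩
  obtain ⟨Cd, hCd⟩ : ∃ Cd, Cd = Box.plkC (m := 3) lam i₀ := ⟨_, rfl⟩
  obtain ⟨ctx, hctx⟩ : ∃ ctx : F.Ω × F.Ω → (V × (((ℕ × (Fin 3 → ℝ)) × ((Fin 3 → ℤ) ×
      (Fin 3 → ℤ))) × F.ζ)) × (ℕ × (ℕ × F.ζ)), ctx = fun v =>
    ((z v.1, F.blab w (Box.plkC lam i₀) g v.1), (F.T v.1, F.W v.2)) := ⟨_, rfl⟩
  obtain ⟨Xe, hXe⟩ : ∃ Xe : F.Ω × F.Ω → Fin 1 → ℤ, Xe = fun v _ => F.X Qt v.2 i₀ := ⟨_, rfl⟩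
  rw [← hctx]
  have s3 := CH_le_add h0 (fun v : F.Ω × F.Ω => F.X Qt v.2) Xe ctx
  -- the context
  have hctx1 : ∀ v v', 0 < Q v → 0 < Q v' → ctx v = ctx v' → z v.1 = z v'.1 ∧
      g v.1 = g v'.1 ∧ F.bcl w Cd g v.1 = F.bcl w Cd g v'.1 ∧
      F.bvl Cd g v.1 = F.bvl Cd g v'.1 ∧ sv F w v = sv F w v' := by
    intro v v' _ _ e
    rw [hctx] at e
    simp only [Prod.mk.injEq, Fam.W] at e
    obtain ⟨⟨e1, e2⟩, e3, e4, e5⟩ := e
    have e6 := Prod.ext_iff.mp e2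
    have e7 := Prod.ext_iff.mp e6.1
    have e8 : F.T1 w v.1 = F.T1 w v'.1 := (Prod.ext_iff.mp e7.1).1
    have e9 : g v.1 = g v'.1 := (Prod.ext_iff.mp e7.1).2
    have e10 : F.bcl w (Box.plkC lam i₀) g v.1 = F.bcl w (Box.plkC lam i₀) g v'.1 :=
      (Prod.ext_iff.mp e7.2).1
    have e11 : F.bvl (Box.plkC lam i₀) g v.1 = F.bvl (Box.plkC lam i₀) g v'.1 :=
      (Prod.ext_iff.mp e7.2).2
    refine ⟨e1, e9, by rw [hCd]; exact e10, by rw [hCd]; exact e11, ?_⟩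
    unfold sv Fam.t
    rw [e8, e4]
  have hsv : ∀ v, 0 < Q v → |sv F w v| ≤ 2 ^ Y := by
    intro v hv
    rw [hQ] at hv
    rw [hY]
    exact sv_le F hw₀ (by omega) (prs_pos hv).2.2.2.2.2
  have pY : (1 : ℝ) ≤ 2 ^ Y := one_le_pow₀ (by norm_num)
  have pw : (0 : ℝ) < 2 ^ w := by positivity
  have pl : (0 : ℝ) < 2 ^ lam := by positivity
  -- closeness in the coordinates of the box
  have hyv : ∀ v v', 0 < Q v → 0 < Q v' → ctx v = ctx v' → ∀ j,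
      |yv F (w := w) Cd g v j - yv F (w := w) Cd g v' j| ≤ 2 ^ (Y + 3) := by
    intro v v' hv hv' e j
    have hv1 := hv
    have hv1' := hv'
    rw [hQ] at hv1 hv1'
    obtain ⟨a1, a2, a3, a4, a5, a6⟩ := prs_pos hv1
    obtain ⟨b1, b2, b3, b4, b5, b6⟩ := prs_pos hv1'
    have h6 := yv_le F h Cd g a3 a4 j
    have h7 := yv_le F h Cd g b3 b4 j
    have h8 := hsv v hv
    have h9 := hsv v' hv'
    have e5 : (2 : ℝ) ^ (Y + 3) = 8 * 2 ^ Y := by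
      rw [pow_add]
      ring
    rw [e5]
    exact (abs_sub _ _).trans (by linarith)
  -- the coordinates
  have hyd : ∀ v v', 0 < Q v → 0 < Q v' → ctx v = ctx v' → ∀ j,
      yv F (w := w) Cd g v j - yv F (w := w) Cd g v' j =
        2 ^ w * (Cd.L (g v.1) (F.x v.2) j - Cd.L (g v.1) (F.x v'.2) j) := by
    intro v v' hv hv' e j
    obtain ⟨f1, f2, f3, f4, f5⟩ := hctx1 v v' hv hv' e
    unfold yv
    rw [f3, f4, f5, f2]
    ring
  have hCe : ∀ (k : Fin 3 → ℝ) (x : Fin 3 → ℝ), Cd.L k x i₀ = x i₀ := by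
    intro k x
    rw [hCd]
    change pco lam i₀ k x i₀ = x i₀
    unfold pco
    rw [if_pos rfl]
  have hCo : ∀ (k : Fin 3 → ℝ) (x : Fin 3 → ℝ) (j : Fin 3), j ≠ i₀ →
      Cd.L k x j = 2 ^ lam * (x j - k j * x i₀) := by
    intro k x j hj
    rw [hCd]
    change pco lam i₀ k x j = _
    unfold pco
    rw [if_neg hj]
  have hQw : (2 : ℝ) ^ Qt = 2 ^ w * 2 ^ (J' + lam) := by
    rw [← pow_add, hQt]
    congr 1
    omega
  have hxe : ∀ v v', 0 < Q v → 0 < Q v' → ctx v = ctx v' →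
      |((F.X Qt v.2 i₀ - F.X Qt v'.2 i₀ : ℤ) : ℝ)| ≤ 2 ^ (J' + lam) * 2 ^ (Y + 3) + 1 := by
    intro v v' hv hv' e3
    have h1 := hyv v v' hv hv' e3 i₀
    rw [hyd v v' hv hv' e3 i₀, hCe, hCe, abs_mul, abs_of_pos pw] at h1
    change |((⌊(2 : ℝ) ^ Qt * F.x v.2 i₀⌋ - ⌊(2 : ℝ) ^ Qt * F.x v'.2 i₀⌋ : ℤ) : ℝ)| ≤ _
    refine floor_dist ?_
    rw [← mul_sub, abs_mul, abs_of_pos (by positivity), hQw]
    calc (2 : ℝ) ^ w * 2 ^ (J' + lam) * |F.x v.2 i₀ - F.x v'.2 i₀| =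
        2 ^ (J' + lam) * (2 ^ w * |F.x v.2 i₀ - F.x v'.2 i₀|) := by ring
      _ ≤ _ := mul_le_mul_of_nonneg_left h1 (by positivity)
  have hxo : ∀ v v', 0 < Q v → 0 < Q v' → (Xe v, ctx v) = (Xe v', ctx v') → ∀ j,
      |((F.X Qt v.2 j - F.X Qt v'.2 j : ℤ) : ℝ)| ≤ 2 ^ J' * 2 ^ (Y + 3) + 5 := by
    intro v v' hv hv' e j
    have e0 : Xe v = Xe v' := (Prod.ext_iff.mp e).1
    have e3 : ctx v = ctx v' := (Prod.ext_iff.mp e).2
    have e4 : F.X Qt v.2 i₀ = F.X Qt v'.2 i₀ := by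
      rw [hXe] at e0
      exact congrFun e0 0
    have hJB : (0 : ℝ) ≤ 2 ^ J' * 2 ^ (Y + 3) := by positivity
    by_cases hj : j = i₀
    · rw [hj, e4, sub_self]
      simp only [Int.cast_zero, abs_zero]
      linarith
    · have h1 := hyv v v' hv hv' e3 j
      rw [hyd v v' hv hv' e3 j, hCo _ _ _ hj, hCo _ _ _ hj, abs_mul, abs_of_pos pw] at h1
      have hv1 := hv
      rw [hQ] at hv1
      have h2 := hz.bd v.1 (prs_pos hv1).1 j
      have e5 : ⌊(2 : ℝ) ^ Qt * F.x v.2 i₀⌋ = ⌊(2 : ℝ) ^ Qt * F.x v'.2 i₀⌋ := e4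
      have h3 := Pool.KS6.floor_close e5
      change |((⌊(2 : ℝ) ^ Qt * F.x v.2 j⌋ - ⌊(2 : ℝ) ^ Qt * F.x v'.2 j⌋ : ℤ) : ℝ)| ≤ _
      have e6 : (2 : ℝ) ^ J' * 2 ^ (Y + 3) + 5 = (2 ^ J' * 2 ^ (Y + 3) + 4) + 1 := by ring
      rw [e6]
      refine floor_dist ?_
      have pQ : (0 : ℝ) < 2 ^ Qt := by positivity
      rw [← mul_sub, abs_mul, abs_of_pos pQ]
      obtain ⟨a, ha⟩ : ∃ a, a = F.x v.2 j - F.x v'.2 j := ⟨_, rfl⟩
      obtain ⟨b, hb⟩ : ∃ b, b = F.x v.2 i₀ - F.x v'.2 i₀ := ⟨_, rfl⟩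
      have e7 : 2 ^ lam * (F.x v.2 j - g v.1 j * F.x v.2 i₀) -
          2 ^ lam * (F.x v'.2 j - g v.1 j * F.x v'.2 i₀) = 2 ^ lam * (a - g v.1 j * b) := by
        rw [ha, hb]
        ring
      rw [e7, abs_mul, abs_of_pos pl] at h1
      rw [← hb] at h3
      rw [← ha]
      have h4 : |a| ≤ |a - g v.1 j * b| + |g v.1 j * b| := by
        have := abs_add_le (a - g v.1 j * b) (g v.1 j * b)
        rwa [sub_add_cancel] at this
      have h5 : |g v.1 j * b| ≤ 4 * (1 / 2 ^ Qt) := by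
        rw [abs_mul]
        exact mul_le_mul h2 h3 (abs_nonneg _) (by norm_num)
      have h6 : (2 : ℝ) ^ Qt * |a - g v.1 j * b| ≤ 2 ^ J' * 2 ^ (Y + 3) := by
        have e8 : (2 : ℝ) ^ Qt * |a - g v.1 j * b| =
            2 ^ J' * (2 ^ w * (2 ^ lam * |a - g v.1 j * b|)) := by
          rw [hQw, pow_add]
          ring
        rw [e8]
        exact mul_le_mul_of_nonneg_left h1 (by positivity)
      have h7 : (2 : ℝ) ^ Qt * |g v.1 j * b| ≤ 4 := by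
        calc (2 : ℝ) ^ Qt * |g v.1 j * b| ≤ 2 ^ Qt * (4 * (1 / 2 ^ Qt)) :=
              mul_le_mul_of_nonneg_left h5 pQ.le
          _ = 4 := by field_simp
      calc (2 : ℝ) ^ Qt * |a| ≤ 2 ^ Qt * (|a - g v.1 j * b| + |g v.1 j * b|) :=
            mul_le_mul_of_nonneg_left h4 pQ.le
        _ = 2 ^ Qt * |a - g v.1 j * b| + 2 ^ Qt * |g v.1 j * b| := by ring
        _ ≤ _ := add_le_add h6 h7
  -- the entropies
  have t3 : CH Q Xe ctx ≤ (J' + lam + Y + 5) * Real.log 2 := by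
    have h1 := CH_gb hlaw Xe ctx (fun _ => False)
      (2 ^ (J' + lam) * 2 ^ (Y + 3) + 1) 0 0
      (by positivity) le_rfl (by
        rw [Pe_eq]
        simp) (by
        intro v v' hv hv' e _ r
        rw [hXe]
        exact hxe v v' hv hv' e) (fun _ _ _ _ _ hf => hf.elim)
    rw [mul_zero, zero_add, Real.log_one, mul_zero, add_zero, Nat.cast_one, one_mul] at h1
    refine h1.trans ?_
    have h2 := log_cell (n := J' + lam + Y + 5) (c := 1)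
      (x := 2 * (2 ^ (J' + lam) * 2 ^ (Y + 3) + 1) + 1) le_rfl (by positivity) (by
        have e1 : (2 : ℝ) ^ (J' + lam + Y + 5) = 2 ^ (J' + lam + Y) * 32 := by
          rw [pow_add _ (J' + lam + Y)]
          norm_num
        have e2 : (2 : ℝ) ^ (J' + lam) * 2 ^ (Y + 3) = 2 ^ (J' + lam + Y) * 8 := by
          rw [← pow_add, show J' + lam + (Y + 3) = (J' + lam + Y) + 3 by omega,
            pow_add _ (J' + lam + Y)]
          norm_num
        have e3 : (1 : ℝ) ≤ 2 ^ (J' + lam + Y) := one_le_pow₀ (by norm_num)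
        rw [e1, e2]
        linarith)
    rw [Real.log_one, add_zero] at h2
    push_cast at h2
    exact h2
  have t4 : CH Q (fun v => F.X Qt v.2) (fun v => (Xe v, ctx v)) ≤
      3 * ((J' + Y + 5) * Real.log 2) := by
    have h1 := CH_gb hlaw (fun v : F.Ω × F.Ω => F.X Qt v.2)
      (fun v => (Xe v, ctx v)) (fun _ => False)
      (2 ^ J' * 2 ^ (Y + 3) + 5) 0 0
      (by positivity) le_rfl (by
        rw [Pe_eq]
        simp) (by
        intro v v' hv hv' e _ r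
        exact hxo v v' hv hv' e r) (fun _ _ _ _ _ hf => hf.elim)
    rw [mul_zero, zero_add, Real.log_one, mul_zero, add_zero] at h1
    refine h1.trans ?_
    have e0 : ((3 : ℕ) : ℝ) = 3 := by norm_num
    rw [e0]
    refine mul_le_mul_of_nonneg_left ?_ (by norm_num)
    have h2 := log_cell (n := J' + Y + 5) (c := 1)
      (x := 2 * (2 ^ J' * 2 ^ (Y + 3) + 5) + 1) le_rfl (by positivity) (by
        have e1 : (2 : ℝ) ^ (J' + Y + 5) = 2 ^ (J' + Y) * 32 := by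
          rw [pow_add _ (J' + Y)]
          norm_num
        have e2 : (2 : ℝ) ^ J' * 2 ^ (Y + 3) = 2 ^ (J' + Y) * 8 := by
          rw [← pow_add, show J' + (Y + 3) = (J' + Y) + 3 by omega, pow_add _ (J' + Y)]
          norm_num
        have e3 : (1 : ℝ) ≤ 2 ^ (J' + Y) := one_le_pow₀ (by norm_num)
        rw [e1, e2]
        linarith)
    rw [Real.log_one, add_zero] at h2
    push_cast at h2
    exact h2
  have hYr : (Y : ℝ) = w - w₀ := by
    rw [hY, Nat.cast_sub hw₀]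
  rw [hYr] at t3 t4
  refine (s3.trans (add_le_add t3 t4)).trans (le_of_eq ?_)
  ring

end Pool.LBW
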