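import Pool.Agent.H63.LBW.LemB
import Pool.Agent.H63.LBW.Upz

/-!
# The information on the direction
-/

set_option autoImplicit false

namespace Pool.LBW

open Finset Real
open Pool.Agent.H49.Ent Pool.Agent.H32.Dense Pool.STK Pool.KA Pool.KSAT Pool.K2S Pool.K3 Pool.PB
  Pool.KS6

open Classical in
/-- **The direction given the position of precision `Qt`.** -/
theorem core : ∃ C : ℝ, 0 ≤ C ∧ ∀ {J : ℕ} (F : Fam 3 J) {A : F.Ω → Prop}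
    (_ : 0 < Pe F.p A) (_ : ∀ ω, A ω → 0 < F.p ω) {Qt : ℕ} {i₀ i₁ : Fin 3} {w lam J' D P : ℕ}
    {h : w + J' ≤ J} {g : F.Ω → Fin 3 → ℝ} {V : Type} {z : F.Ω → V}
    {R : V → MvPolynomial (Option (Fin 3)) ℝ}
    (hlaw : IsLaw (Pool.Agent.H49.Ent.cond F.p A True))
    (_ : Zlb (F.res A True hlaw) Qt i₀ i₁ w lam J' D P h g z R) {κ : ℝ} {l q w₀ : ℕ}
    {e U : ℝ} {Λ : Type} (L : F.Ω → Λ) (g₁ h₁ R₁ g₂ h₂ R₂ : ℕ) (ρ₁ ρ₂ : ℝ),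
    Stb F.p κ A (RotU i₀ (1 / 2 ^ l) (1 / 2 ^ l) (ptq F Qt) (slam F w₀) F.d) →
    ¬ RotU i₀ (1 / 2 ^ l) (1 / 2 ^ l) (ptq F Qt) (slam F w₀) F.d A →
    l + q = lam → w₀ ≤ w → Qt = w + J' + lam → Qt ≤ J → (F.res A True hlaw).Tm e →
    CH (prs (F.res A True hlaw) w₀) (fun v => F.X Qt v.2)
      (fun v => ((z v.1, F.blab w (Box.plkC lam i₀) g v.1), (F.T v.1, F.W v.2))) ≤ U →
    (R₁ + 1) * g₁ ≤ J' → (R₂ + 1) * g₂ ≤ lam →
    (∀ r < R₁, Det (F.res A True hlaw).p L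
      (fun ω => (F.zm w J' h (Box.plkC lam i₀) g).c (r * g₁) ω)) →
    (∀ r < R₂, Det (F.res A True hlaw).p L (F.c (w + J' + r * g₂))) →
    2 ≤ h₁ → (h₁ + 3) * 2 + h₁ ≤ g₁ → 2 ≤ h₂ → (h₂ + 3) * 1 + h₂ ≤ g₂ →
    NonConc (F.res A True hlaw).p (F.zm w J' h (Box.plkC lam i₀) g).d
      (fun ω => (ptq F Qt ω, L ω)) (fun D (s : (Fin 3 → ℝ) × (Fin 1 → Fin 3 → ℝ)) =>
        ∃ c : Fin 1 → ℝ, ∀ j, |D j - s.1 j - ∑ i, c i * s.2 i j| ≤ 4 / 2 ^ h₁) ρ₁ →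
    NonConc (F.res A True hlaw).p F.d (fun ω => (ptq F Qt ω, L ω))
      (fun D (s : (Fin 3 → ℝ) × (Fin 0 → Fin 3 → ℝ)) =>
        ∃ c : Fin 0 → ℝ, ∀ j, |D j - s.1 j - ∑ i, c i * s.2 i j| ≤ 4 / 2 ^ h₂) ρ₂ →
    CH (F.res A True hlaw).p (F.D q) (fun ω => (F.X Qt ω, F.W ω)) ≤
      U - (R₁ * (2 * (g₁ * Real.log 2)) - 36 * (g₁ * Real.log 2) -
        R₁ * (4 * e + 9 * (g₁ * Real.log 2) * ρ₁ + C)) -
      (R₂ * (g₂ * Real.log 2) - 24 * (g₂ * Real.log 2) -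
        R₂ * (3 * e + 4 * (g₂ * Real.log 2) * ρ₂ + C)) + 3 * e + C +
      3 * (Real.exp (-κ) * Real.log (2 * (2 * 2 ^ q + 1) + 1)) := by
  obtain ⟨C₂, hC₂, hful⟩ := fullz
  have hl2 : 0 ≤ Real.log 2 := Real.log_nonneg (by norm_num)
  have hl5 : 0 ≤ Real.log 5 := Real.log_nonneg (by norm_num)
  have hl39 : 0 ≤ Real.log (2 * 19 + 1) := Real.log_nonneg (by norm_num)
  refine ⟨2 * C₂ + 2 * Real.log 5 + Real.log 2 + 3 * Real.log (2 * 19 + 1), by positivity,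
    ?_⟩
  intro J F A hA hpos Qt i₀ i₁ w lam J' D P h g V z R hlaw hz κ l q w₀ e U Λ L g₁ h₁ R₁ g₂ h₂ R₂
    ρ₁ ρ₂ hs hn hlq hw₀ hQt hQJ hTm k10 hR₁ hR₂ hL₁ hL₂ hh₁ hg₁ hh₂ hg₂ hnc₁ hnc₂
  have hP := (F.res A True hlaw).isLaw
  have hQ := prs_law (F.res A True hlaw) w₀
  have h0 := hQ.nonneg
  have k2 := hful hz L g₁ h₁ R₁ g₂ h₂ R₂ e ρ₁ ρ₂ hQt hQJ hTm hR₁ hR₂ hL₁ hL₂ hh₁ hg₁ hh₂ hg₂
    hnc₁ hnc₂
  have k3 := exch (F.res A True hlaw) (w := w₀) (Qt := Qt) (by omega) hTm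
    (fun ω => (z ω, F.blab w (Box.plkC lam i₀) g ω)) (by
      intro ω ω' a b e1
      have h1 := Prod.ext_iff.mp (hz.vis ω ω' a b e1)
      have h2 : Fam.pt (F.zm w J' h (Box.plkC lam i₀) g) ω =
        Fam.pt (F.zm w J' h (Box.plkC lam i₀) g) ω' := h1.2
      have h3 := Prod.ext_iff.mp h2
      have h4 : F.blab w (Box.plkC lam i₀) g ω = F.blab w (Box.plkC lam i₀) g ω' :=
        (Prod.ext_iff.mp h3.2).2
      exact Prod.ext h1.1 h4)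
  have k4 := lemB F hA hpos hlaw hz hs hn hlq
  have k5 := prs_time' (F.res A True hlaw) (w := w₀) (by omega) hTm (F.D q)
    (fun ω => (F.X Qt ω, F.W ω)) (fun ω ω' _ _ e1 => by
      have h2 : F.T ω = F.T ω' := (Prod.ext_iff.mp (Prod.ext_iff.mp e1).2).1
      change F.T1 w₀ ω = F.T1 w₀ ω'
      unfold Fam.T1
      rw [h2])
  have k6 := CH_le_add h0 (fun v : F.Ω × F.Ω => F.D q v.2)
    (fun v => (z v.1, F.blab w (Box.plkC lam i₀) g v.1))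
    (fun v => (F.T v.1, (F.X Qt v.2, F.W v.2)))
  have k7 : CH (prs (F.res A True hlaw) w₀) (fun v => (z v.1, F.blab w (Box.plkC lam i₀) g v.1))
      (fun v => (F.T v.1, (F.X Qt v.2, F.W v.2))) =
      CH (prs (F.res A True hlaw) w₀) (fun v => (z v.1, F.blab w (Box.plkC lam i₀) g v.1))
      (fun v => (F.X Qt v.2, (F.T v.1, F.W v.2))) := by
    refine CH_congr h0 (fun _ _ _ _ e1 => (Prod.ext_iff.mp e1).1)
      (fun _ _ _ _ e1 => (Prod.ext_iff.mp e1).1) ?_ ?_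
    · intro v v' _ _ e1
      have h1 := Prod.ext_iff.mp e1
      have h2 := Prod.ext_iff.mp h1.2
      exact Prod.ext h2.1 (Prod.ext h1.1 h2.2)
    · intro v v' _ _ e1
      have h1 := Prod.ext_iff.mp e1
      have h2 := Prod.ext_iff.mp h1.2
      exact Prod.ext h2.1 (Prod.ext h1.1 h2.2)
  have k8 : CH (F.res A True hlaw).p (F.D q) (fun ω => (F.X Qt ω, F.W ω)) - (e + Real.log 5) ≤
      CH (prs (F.res A True hlaw) w₀) (fun v => F.D q v.2)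
        (fun v => (F.T v.1, (F.X Qt v.2, F.W v.2))) := k5
  have k9 : CH (prs (F.res A True hlaw) w₀) (fun v => (z v.1, F.blab w (Box.plkC lam i₀) g v.1))
      (fun v => (F.X Qt v.2, (F.T v.1, F.W v.2))) ≤
      CH (prs (F.res A True hlaw) w₀) (fun v => F.X Qt v.2)
        (fun v => ((z v.1, F.blab w (Box.plkC lam i₀) g v.1), (F.T v.1, F.W v.2))) -
        CH (F.res A True hlaw).p (F.X Qt)
          (fun ω => ((z ω, F.blab w (Box.plkC lam i₀) g ω), F.W ω)) + (e + Real.log 5) := k3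
  have k11 : (R₁ * (2 * (g₁ * Real.log 2)) - 36 * (g₁ * Real.log 2) -
      R₁ * (4 * e + 9 * (g₁ * Real.log 2) * ρ₁ + C₂) - C₂) +
      (R₂ * (g₂ * Real.log 2) - 24 * (g₂ * Real.log 2) -
      R₂ * (3 * e + 4 * (g₂ * Real.log 2) * ρ₂ + C₂) - C₂) - e ≤
      CH (F.res A True hlaw).p (F.X Qt)
        (fun ω => ((z ω, F.blab w (Box.plkC lam i₀) g ω), F.W ω)) := k2
  rw [k7] at k6
  have k12 : CH (prs (F.res A True hlaw) w₀) (fun v => F.D q v.2)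
      (fun v => (F.T v.1, (F.X Qt v.2, F.W v.2))) ≤
      CH (prs (F.res A True hlaw) w₀) (fun v => (z v.1, F.blab w (Box.plkC lam i₀) g v.1))
      (fun v => (F.X Qt v.2, (F.T v.1, F.W v.2))) +
      CH (prs (F.res A True hlaw) w₀) (fun v => F.D q v.2)
      (fun v => ((z v.1, F.blab w (Box.plkC lam i₀) g v.1), (F.T v.1, (F.X Qt v.2, F.W v.2)))) := k6
  have k13 : CH (prs (F.res A True hlaw) w₀) (fun v => F.D q v.2)
      (fun v => ((z v.1, F.blab w (Box.plkC lam i₀) g v.1), (F.T v.1, (F.X Qt v.2, F.W v.2)))) ≤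
      Real.log 2 + 3 * (Real.log (2 * 19 + 1) +
        Real.exp (-κ) * Real.log (2 * (2 * 2 ^ q + 1) + 1)) := k4
  obtain ⟨Cm, hCm⟩ : ∃ Cm, Cm = 2 * C₂ + 2 * Real.log 5 + Real.log 2 +
    3 * Real.log (2 * 19 + 1) := ⟨_, rfl⟩
  rw [← hCm]
  have hCC : C₂ ≤ Cm := by rw [hCm]; linarith
  have m1 : (R₁ : ℝ) * C₂ ≤ R₁ * Cm := mul_le_mul_of_nonneg_left hCC (Nat.cast_nonneg _)
  have m2 : (R₂ : ℝ) * C₂ ≤ R₂ * Cm := mul_le_mul_of_nonneg_left hCC (Nat.cast_nonneg _)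
  have e5 : (R₁ : ℝ) * (4 * e + 9 * (g₁ * Real.log 2) * ρ₁ + C₂) =
    R₁ * (4 * e + 9 * (g₁ * Real.log 2) * ρ₁) + R₁ * C₂ := by ring
  have e6 : (R₂ : ℝ) * (3 * e + 4 * (g₂ * Real.log 2) * ρ₂ + C₂) =
    R₂ * (3 * e + 4 * (g₂ * Real.log 2) * ρ₂) + R₂ * C₂ := by ring
  have e7 : (R₁ : ℝ) * (4 * e + 9 * (g₁ * Real.log 2) * ρ₁ + Cm) =
    R₁ * (4 * e + 9 * (g₁ * Real.log 2) * ρ₁) + R₁ * Cm := by ring
  have e8 : (R₂ : ℝ) * (3 * e + 4 * (g₂ * Real.log 2) * ρ₂ + Cm) =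
    R₂ * (3 * e + 4 * (g₂ * Real.log 2) * ρ₂) + R₂ * Cm := by ring
  rw [e5, e6] at k11
  rw [e7, e8]
  linarith

end Pool.LBW
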