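import Pool.Agent.H63.LBW.Rem

/-!
# Polynomials in space-time along a line, and at a fixed time

The variable `none` is a coordinate `i₁` of the space, the variable `i₁` is the time.
-/

set_option autoImplicit false

namespace Pool.LBW

open Finset

/-- The point at time `s` of a line. -/
noncomputable def lpt (u d : Fin 3 → ℝ) (i₁ : Fin 3) (s : ℝ) (o : Option (Fin 3)) : ℝ :=
  o.elim (u i₁ + s * d i₁) (fun j => if j = i₁ then s else u j + s * d j)

/-- The line, as polynomials in the time. -/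
noncomputable def cvp (u d : Fin 3 → ℝ) (i₁ : Fin 3) (o : Option (Fin 3)) : Polynomial ℝ :=
  o.elim (Polynomial.C (u i₁) + Polynomial.X * Polynomial.C (d i₁))
    (fun j => if j = i₁ then Polynomial.X else
      Polynomial.C (u j) + Polynomial.X * Polynomial.C (d j))

/-- A polynomial along a line. -/
noncomputable def cvr (u d : Fin 3 → ℝ) (i₁ : Fin 3) :
    MvPolynomial (Option (Fin 3)) ℝ →ₐ[ℝ] Polynomial ℝ :=
  MvPolynomial.aeval (cvp u d i₁)

theorem eval_cvp (u d : Fin 3 → ℝ) (i₁ : Fin 3) (s : ℝ) (o : Option (Fin 3)) :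
    (cvp u d i₁ o).eval s = lpt u d i₁ s o := by
  unfold cvp lpt
  cases o with
  | none =>
    simp only [Option.elim_none]
    rw [Polynomial.eval_add, Polynomial.eval_C, Polynomial.eval_mul, Polynomial.eval_X,
      Polynomial.eval_C]
  | some j =>
    simp only [Option.elim_some]
    by_cases h : j = i₁
    · rw [if_pos h, if_pos h, Polynomial.eval_X]
    · rw [if_neg h, if_neg h, Polynomial.eval_add, Polynomial.eval_C, Polynomial.eval_mul,
        Polynomial.eval_X, Polynomial.eval_C]

theorem eval_cvr (u d : Fin 3 → ℝ) (i₁ : Fin 3) (s : ℝ) (R : MvPolynomial (Option (Fin 3)) ℝ) :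
    (cvr u d i₁ R).eval s = MvPolynomial.eval (lpt u d i₁ s) R := by
  unfold cvr
  induction R using MvPolynomial.induction_on with
  | C a =>
    rw [MvPolynomial.aeval_C, MvPolynomial.eval_C]
    exact Polynomial.eval_C
  | add p q hp hq => rw [map_add, Polynomial.eval_add, hp, hq, map_add]
  | mul_X p i hp =>
    rw [map_mul, Polynomial.eval_mul, hp, map_mul, MvPolynomial.aeval_X, MvPolynomial.eval_X,
      eval_cvp]

theorem natDegree_cvr (u d : Fin 3 → ℝ) (i₁ : Fin 3) {R : MvPolynomial (Option (Fin 3)) ℝ} {D : ℕ}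
    (hR : R.totalDegree ≤ D) : (cvr u d i₁ R).natDegree ≤ D := by
  unfold cvr
  rw [MvPolynomial.aeval_def, MvPolynomial.eval₂_eq]
  refine Polynomial.natDegree_sum_le_of_forall_le _ _ fun s hs => ?_
  refine (Polynomial.natDegree_C_mul_le _ _).trans ?_
  refine (Polynomial.natDegree_prod_le _ _).trans ?_
  have h1 : ∀ i ∈ s.support, (cvp u d i₁ i ^ s i).natDegree ≤ s i := by
    intro i _
    refine Polynomial.natDegree_pow_le.trans ?_
    have h2 : ∀ a b : ℝ, (Polynomial.C a + Polynomial.X * Polynomial.C b).natDegree ≤ 1 := by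
      intro a b
      refine (Polynomial.natDegree_add_le _ _).trans (max_le ?_ ?_)
      · rw [Polynomial.natDegree_C]
        exact Nat.zero_le _
      · refine Polynomial.natDegree_mul_le.trans ?_
        rw [Polynomial.natDegree_C, add_zero]
        exact Polynomial.natDegree_X_le
    have : (cvp u d i₁ i).natDegree ≤ 1 := by
      unfold cvp
      cases i with
      | none => exact h2 _ _
      | some j =>
        simp only [Option.elim_some]
        split_ifs
        · exact Polynomial.natDegree_X_le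
        · exact h2 _ _
    calc s i * _ ≤ s i * 1 := Nat.mul_le_mul_left _ this
      _ = s i := mul_one _
  refine (Finset.sum_le_sum h1).trans ?_
  exact (MvPolynomial.le_totalDegree hs).trans hR

/-- The polynomial at a fixed time. -/
noncomputable def spc (s : ℝ) (i₁ : Fin 3) :
    MvPolynomial (Option (Fin 3)) ℝ →ₐ[ℝ] MvPolynomial (Fin 3) ℝ :=
  MvPolynomial.aeval (fun o => o.elim (MvPolynomial.X i₁)
    (fun j => if j = i₁ then MvPolynomial.C s else MvPolynomial.X j))

theorem eval_spc (s : ℝ) (i₁ : Fin 3) (Y : Fin 3 → ℝ) (R : MvPolynomial (Option (Fin 3)) ℝ) :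
    MvPolynomial.eval Y (spc s i₁ R) =
      MvPolynomial.eval (fun o => o.elim (Y i₁) (fun j => if j = i₁ then s else Y j)) R := by
  unfold spc
  induction R using MvPolynomial.induction_on with
  | C a =>
    rw [MvPolynomial.aeval_C, MvPolynomial.eval_C]
    exact MvPolynomial.eval_C _
  | add p q hp hq => rw [map_add, map_add, hp, hq, map_add]
  | mul_X p i hp =>
    rw [map_mul, map_mul, hp, map_mul, MvPolynomial.aeval_X, MvPolynomial.eval_X]
    congr 1
    cases i with
    | none => simp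
    | some j =>
      simp only [Option.elim_some]
      by_cases h : j = i₁
      · rw [if_pos h, if_pos h, MvPolynomial.eval_C]
      · rw [if_neg h, if_neg h, MvPolynomial.eval_X]

theorem eval_spc_line (u d : Fin 3 → ℝ) (i₁ : Fin 3) (s : ℝ)
    (R : MvPolynomial (Option (Fin 3)) ℝ) :
    MvPolynomial.eval (fun j => u j + s * d j) (spc s i₁ R) = (cvr u d i₁ R).eval s := by
  rw [eval_spc, eval_cvr]
  rfl

/-- The variable of space-time which belongs to a coordinate of the space. -/
def sl (i₁ j : Fin 3) : Option (Fin 3) := if j = i₁ then none else some j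

theorem pderiv_spc (s : ℝ) (i₁ j : Fin 3) (R : MvPolynomial (Option (Fin 3)) ℝ) :
    MvPolynomial.pderiv j (spc s i₁ R) = spc s i₁ (MvPolynomial.pderiv (sl i₁ j) R) := by
  unfold spc
  induction R using MvPolynomial.induction_on with
  | C a =>
    rw [MvPolynomial.aeval_C, MvPolynomial.pderiv_C, map_zero]
    exact MvPolynomial.pderiv_C
  | add p q hp hq => rw [map_add, map_add, map_add, map_add, hp, hq]
  | mul_X p i hp =>
    rw [map_mul, MvPolynomial.pderiv_mul, hp, MvPolynomial.pderiv_mul, map_add, map_mul, map_mul,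
      MvPolynomial.aeval_X]
    congr 1
    congr 1
    unfold sl
    cases i with
    | none =>
      simp only [Option.elim_none]
      by_cases hj : j = i₁
      · rw [if_pos hj, MvPolynomial.pderiv_X_self, map_one, hj]
        exact MvPolynomial.pderiv_X_self _
      · have h1 : MvPolynomial.pderiv (some j)
            (MvPolynomial.X none : MvPolynomial (Option (Fin 3)) ℝ) = 0 :=
          MvPolynomial.pderiv_X_of_ne (by simp)
        rw [if_neg hj, h1, map_zero]
        exact MvPolynomial.pderiv_X_of_ne (Ne.symm hj)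
    | some k =>
      simp only [Option.elim_some]
      by_cases hj : j = i₁
      · rw [if_pos hj, MvPolynomial.pderiv_X_of_ne (by simp), map_zero]
        by_cases h : k = i₁
        · rw [if_pos h, MvPolynomial.pderiv_C]
        · rw [if_neg h, MvPolynomial.pderiv_X_of_ne (by rw [hj]; exact h)]
      · rw [if_neg hj]
        by_cases hkj : k = j
        · rw [hkj, MvPolynomial.pderiv_X_self, map_one, if_neg hj]
          exact MvPolynomial.pderiv_X_self _
        · rw [MvPolynomial.pderiv_X_of_ne (by simpa using hkj), map_zero]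
          by_cases h : k = i₁
          · rw [if_pos h, MvPolynomial.pderiv_C]
          · rw [if_neg h, MvPolynomial.pderiv_X_of_ne hkj]

theorem dl_spc (s : ℝ) (i₁ : Fin 3) (l : List (Fin 3)) (R : MvPolynomial (Option (Fin 3)) ℝ) :
    dl l (spc s i₁ R) = spc s i₁ (dl (l.map (sl i₁)) R) := by
  induction l with
  | nil => rfl
  | cons j l ih => rw [dl_cons, ih, List.map_cons, dl_cons, pderiv_spc]

theorem totalDegree_spc (s : ℝ) (i₁ : Fin 3) {R : MvPolynomial (Option (Fin 3)) ℝ} {D : ℕ}
    (hR : R.totalDegree ≤ D) : (spc s i₁ R).totalDegree ≤ D := by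
  unfold spc
  rw [MvPolynomial.aeval_def, MvPolynomial.eval₂_eq]
  refine (MvPolynomial.totalDegree_finsetSum _ _).trans (Finset.sup_le fun t ht => ?_)
  refine (MvPolynomial.totalDegree_mul _ _).trans ?_
  have h0 : (algebraMap ℝ (MvPolynomial (Fin 3) ℝ) (R.coeff t)).totalDegree = 0 :=
    MvPolynomial.totalDegree_C _
  rw [h0, zero_add]
  refine (MvPolynomial.totalDegree_finsetProd _ _).trans ?_
  have h1 : ∀ i ∈ t.support, ((fun o : Option (Fin 3) => o.elim (MvPolynomial.X i₁)
      (fun j => if j = i₁ then MvPolynomial.C s else MvPolynomial.X j)) i ^ t i :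
      MvPolynomial (Fin 3) ℝ).totalDegree ≤ t i := by
    intro i _
    refine (MvPolynomial.totalDegree_pow _ _).trans ?_
    have : ((fun o : Option (Fin 3) => o.elim (MvPolynomial.X i₁)
      (fun j => if j = i₁ then MvPolynomial.C s else MvPolynomial.X j)) i :
      MvPolynomial (Fin 3) ℝ).totalDegree ≤ 1 := by
      cases i with
      | none => exact (MvPolynomial.totalDegree_X _).le
      | some j =>
        simp only [Option.elim_some]
        split_ifs
        · rw [MvPolynomial.totalDegree_C]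
          exact Nat.zero_le _
        · exact (MvPolynomial.totalDegree_X _).le
    calc t i * _ ≤ t i * 1 := Nat.mul_le_mul_left _ this
      _ = t i := mul_one _
  refine (Finset.sum_le_sum h1).trans ?_
  exact (MvPolynomial.le_totalDegree ht).trans hR

/-- The derivatives of the polynomial along the line. -/
noncomputable def dcv (u d : Fin 3 → ℝ) (i₁ : Fin 3) (R : MvPolynomial (Option (Fin 3)) ℝ)
    (l : List (Fin 3)) : Polynomial ℝ :=
  cvr u d i₁ (dl (l.map (sl i₁)) R)

theorem eval_dcv (u d : Fin 3 → ℝ) (i₁ : Fin 3) (R : MvPolynomial (Option (Fin 3)) ℝ)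
    (l : List (Fin 3)) (s : ℝ) :
    MvPolynomial.eval (fun j => u j + s * d j) (dl l (spc s i₁ R)) = (dcv u d i₁ R l).eval s := by
  rw [dl_spc, eval_spc_line]
  rfl

theorem natDegree_dcv (u d : Fin 3 → ℝ) (i₁ : Fin 3) {R : MvPolynomial (Option (Fin 3)) ℝ} {D : ℕ}
    (hR : R.totalDegree ≤ D) (l : List (Fin 3)) : (dcv u d i₁ R l).natDegree ≤ D :=
  natDegree_cvr u d i₁ ((dl_deg R hR _).1.trans (Nat.sub_le _ _))

theorem dcv_zero (u d : Fin 3 → ℝ) (i₁ : Fin 3) {R : MvPolynomial (Option (Fin 3)) ℝ} {D : ℕ}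
    (hR : R.totalDegree ≤ D) {l : List (Fin 3)} (hl : D < l.length) : dcv u d i₁ R l = 0 := by
  unfold dcv
  rw [(dl_deg R hR _).2 (by rw [List.length_map]; exact hl), map_zero]

/-- **The relation at a typical time of a longer window.** -/
theorem typ {D x x' Y P p : ℕ} (R : MvPolynomial (Option (Fin 3)) ℝ) (hR : R.totalDegree ≤ D)
    (u d : Fin 3 → ℝ) (i₁ : Fin 3) (N : Finset ℝ) (hN : N.card = D + 1) (hN1 : ∀ a ∈ N, |a| ≤ 1)
    (hsep : ∀ a ∈ N, ∀ b ∈ N, a ≠ b → 1 / 2 ^ x ≤ |a - b|)
    (hrq : ∀ a ∈ N, spc a i₁ R ≠ 0 ∧ sml (spc a i₁ R) P (fun j => u j + a * d j))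
    {s : ℝ} (hs : |s| ≤ 2 ^ Y) (hP : p + D * (Y + x + x' + 4) ≤ P)
    (hroot : ∀ l : List (Fin 3), l.length ≤ D →
      ∀ z ∈ ((dcv u d i₁ R l).map (algebraMap ℝ ℂ)).roots, (2 : ℝ) ^ Y / 2 ^ x' ≤ |s - z.re|) :
    spc s i₁ R ≠ 0 ∧ sml (spc s i₁ R) p (fun j => u j + s * d j) := by
  classical
  have hY : (1 : ℝ) ≤ 2 ^ Y := one_le_pow₀ (by norm_num)
  have hB : ∀ b ∈ N, |s - b| ≤ 2 ^ (Y + 1) := by
    intro b hb
    have h1 := hN1 b hb
    have h2 := abs_sub s b
    rw [pow_succ]
    linarith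
  have hρ : (0 : ℝ) < 2 ^ Y / 2 ^ x' := by positivity
  have h2 : (1 + (2 : ℝ) ^ (Y + 1) / (2 ^ Y / 2 ^ x')) ^ D ≤ (2 ^ (x' + 2)) ^ D := by
    refine pow_le_pow_left₀ (by positivity) ?_ D
    have e1 : (2 : ℝ) ^ (Y + 1) / (2 ^ Y / 2 ^ x') = 2 * 2 ^ x' := by
      rw [pow_succ]
      field_simp
    rw [e1, pow_add]
    have : (1 : ℝ) ≤ 2 ^ x' := one_le_pow₀ (by norm_num)
    linarith
  -- the derivatives are not much smaller at the time `s`
  have hfar : ∀ (l : List (Fin 3)), ∀ a ∈ N, |(dcv u d i₁ R l).eval a| ≤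
      (2 ^ (x' + 2)) ^ D * |(dcv u d i₁ R l).eval s| := by
    intro l a ha
    by_cases hl : l.length ≤ D
    · exact (far_roots _ (natDegree_dcv u d i₁ hR l) hρ (hB a ha) (hroot l hl)).trans
        (mul_le_mul_of_nonneg_right h2 (abs_nonneg _))
    · rw [dcv_zero u d i₁ hR (by omega)]
      simp
  obtain ⟨a₁, ha₁⟩ : N.Nonempty := Finset.card_pos.1 (by omega)
  constructor
  · obtain ⟨l, hl⟩ := exists_dl_ne _ (hrq a₁ ha₁).1 (fun j => u j + a₁ * d j)
    rw [eval_dcv] at hl
    intro h0
    have h3 := hfar l a₁ ha₁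
    have h4 : (dcv u d i₁ R l).eval s = 0 := by
      rw [← eval_dcv, h0]
      have : ∀ l : List (Fin 3), dl l (0 : MvPolynomial (Fin 3) ℝ) = 0 := by
        intro l
        induction l with
        | nil => rfl
        | cons k l ih => rw [dl_cons, ih, map_zero]
      rw [this, map_zero]
    rw [h4, abs_zero, mul_zero] at h3
    exact hl (abs_eq_zero.1 (le_antisymm h3 (abs_nonneg _)))
  · -- the lists
    obtain ⟨η, hη⟩ : ∃ η : ℝ, η = 1 / 2 ^ P := ⟨_, rfl⟩
    have hη0 : 0 < η := by rw [hη]; positivity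
    have hex : ∀ a : ℝ, ∃ l : List (Fin 3), a ∈ N → l ≠ [] ∧ |(dcv u d i₁ R []).eval a| ≤
        η ^ l.length * |(dcv u d i₁ R l).eval a| := by
      intro a
      by_cases ha : a ∈ N
      · obtain ⟨l, hl, h3⟩ := (hrq a ha).2
        refine ⟨l, fun _ => ⟨hl, ?_⟩⟩
        rw [← hη, eval_dcv] at h3
        have e1 : MvPolynomial.eval (fun j => u j + a * d j) (spc a i₁ R) =
          (dcv u d i₁ R []).eval a := eval_dcv u d i₁ R [] a
        rw [e1] at h3
        exact h3
      · exact ⟨[], fun h => absurd h ha⟩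
    choose f hf using hex
    obtain ⟨a₀, ha₀, hmax⟩ := Finset.exists_max_image N
      (fun a => η ^ (f a).length * |(dcv u d i₁ R (f a)).eval a|) ⟨a₁, ha₁⟩
    obtain ⟨l, hl⟩ : ∃ l, l = f a₀ := ⟨_, rfl⟩
    rw [← hl] at hmax
    obtain ⟨n, hn⟩ : ∃ n, n = l.length := ⟨_, rfl⟩
    have hn1 : 1 ≤ n := by
      rw [hn]
      have := (hf a₀ ha₀).1
      rw [← hl] at this
      exact List.length_pos_of_ne_nil this
    rw [← hn] at hmax
    refine ⟨l, by rw [hl]; exact (hf a₀ ha₀).1, ?_⟩
    rw [eval_dcv]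
    have e1 : MvPolynomial.eval (fun j => u j + s * d j) (spc s i₁ R) =
          (dcv u d i₁ R []).eval s := eval_dcv u d i₁ R [] s
    rw [e1, ← hn]
    have h4 := lagr (dcv u d i₁ R []) (natDegree_dcv u d i₁ hR []) N hN
      (m := η ^ n * |(dcv u d i₁ R l).eval a₀|) (B := 2 ^ (Y + 1)) (L := 2 ^ x) (s := s)
      (by positivity) (by positivity) hsep hB (fun a ha => (hf a ha).2.trans (hmax a ha))
    refine h4.trans ?_
    have h3 := hfar l a₀ ha₀
    have h5 : ((D : ℝ) + 1) ≤ 2 ^ D := two_pow_ge D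
    have e2 : (2 : ℝ) ^ (D * (Y + x + x' + 4)) = 2 ^ D * ((2 ^ (Y + 1) * 2 ^ x) ^ D *
        (2 ^ (x' + 2)) ^ D) := by
      rw [← pow_add, ← pow_mul, ← pow_mul, ← pow_add, ← pow_add]
      congr 1
      ring
    have h6 : (2 : ℝ) ^ (D * (Y + x + x' + 4)) * η ^ n ≤ (1 / 2 ^ p) ^ n := by
      have e3 : (1 : ℝ) / 2 ^ p = 2 ^ (P - p) * η := by
        rw [hη, mul_one_div, div_eq_div_iff (by positivity) (by positivity), one_mul, ← pow_add]
        congr 1
        omega
      rw [e3, mul_pow]
      refine mul_le_mul_of_nonneg_right ?_ (by positivity)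
      rw [← pow_mul]
      refine pow_le_pow_right₀ (by norm_num) ?_
      calc D * (Y + x + x' + 4) ≤ (P - p) * 1 := by omega
        _ ≤ (P - p) * n := Nat.mul_le_mul_left _ hn1
    calc ((D : ℝ) + 1) * (η ^ n * |(dcv u d i₁ R l).eval a₀| * (2 ^ (Y + 1) * 2 ^ x) ^ D)
        ≤ 2 ^ D * (η ^ n * ((2 ^ (x' + 2)) ^ D * |(dcv u d i₁ R l).eval s|) *
          (2 ^ (Y + 1) * 2 ^ x) ^ D) := by
          refine mul_le_mul h5 ?_ (by positivity) (by positivity)
          refine mul_le_mul_of_nonneg_right ?_ (by positivity)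
          exact mul_le_mul_of_nonneg_left h3 (by positivity)
      _ = (2 ^ (D * (Y + x + x' + 4)) * η ^ n) * |(dcv u d i₁ R l).eval s| := by
          rw [e2]
          ring
      _ ≤ _ := mul_le_mul_of_nonneg_right h6 (abs_nonneg _)

end Pool.LBW
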