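import Pool.Agent.H63.LBW.FullG

/-!
# Exchange of two samples; atypical pairs are rare
-/

set_option autoImplicit false

namespace Pool.LBW

open Finset Real
open Pool.Agent.H49.Ent Pool.Agent.H32.Dense Pool.STK Pool.KA Pool.KSAT Pool.K2S Pool.K3 Pool.PB
  Pool.KS6

/-- **Exchange.** The label of the first sample given the position of the second one. -/
theorem exch {m J : ℕ} (F : Fam m J) {w Qt : ℕ} (hw : w ≤ J) {e : ℝ} (he : F.Tm e) {V : Type}
    (z : F.Ω → V) (hz : Det F.p (fun ω => (F.X Qt ω, F.W ω)) z) :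
    CH (prs F w) (fun v => z v.1) (fun v => (F.X Qt v.2, (F.T v.1, F.W v.2))) ≤
      CH (prs F w) (fun v => F.X Qt v.2) (fun v => (z v.1, (F.T v.1, F.W v.2))) -
        CH F.p (F.X Qt) (fun ω => (z ω, F.W ω)) + (e + Real.log 5) := by
  have hp := F.isLaw.nonneg
  have hQ := prs_law F w
  have h0 := hQ.nonneg
  have c1 := CH_chain h0 (fun v : F.Ω × F.Ω => z v.1) (fun v => F.X Qt v.2)
    (fun v => (F.T v.1, F.W v.2))
  have c2 := CH_chain h0 (fun v : F.Ω × F.Ω => F.X Qt v.2) (fun v => z v.1)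
    (fun v => (F.T v.1, F.W v.2))
  have c3 : CH (prs F w) (fun v => (z v.1, F.X Qt v.2)) (fun v => (F.T v.1, F.W v.2)) =
      CH (prs F w) (fun v => (F.X Qt v.2, z v.1)) (fun v => (F.T v.1, F.W v.2)) := by
    refine CH_congr h0 ?_ ?_ (fun _ _ _ _ e => e) (fun _ _ _ _ e => e)
    · intro v v' _ _ e
      have e1 := Prod.ext_iff.mp (Prod.ext_iff.mp e).1
      exact Prod.ext e1.2 e1.1
    · intro v v' _ _ e
      have e1 := Prod.ext_iff.mp (Prod.ext_iff.mp e).1
      exact Prod.ext e1.2 e1.1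
  -- the label of the first sample
  have d1 : CH (prs F w) (fun v => z v.1) (fun v => (F.T v.1, F.W v.2)) ≤ CH F.p z F.W := by
    have h1 := (prs_fst F w).CH z F.W
    rw [← h1]
    refine CH_mono_cond h0 fun v v' hv hv' e => ?_
    obtain ⟨-, -, -, -, a5, -⟩ := prs_pos hv
    obtain ⟨-, -, -, -, b5, -⟩ := prs_pos hv'
    have e1 : F.T v.1 = F.T v'.1 := (Prod.ext_iff.mp e).1
    have e2 : F.W v.2 = F.W v'.2 := (Prod.ext_iff.mp e).2
    have e3 : F.Z v.2 = F.Z v'.2 := (Prod.ext_iff.mp e2).2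
    refine Prod.ext e1 ?_
    change F.Z v.1 = F.Z v'.1
    rw [a5, b5, e3]
  -- the position of the second sample
  have d2 := prs_time' F hw he (F.X Qt) F.W (fun ω ω' _ _ e => by
    have h2 : F.T ω = F.T ω' := (Prod.ext_iff.mp e).1
    unfold Fam.T1
    rw [h2])
  -- the marginal
  have d3 := CH_chain hp (F.X Qt) z F.W
  have d4 : CH F.p (F.X Qt) F.W = CH F.p (fun ω => (F.X Qt ω, z ω)) F.W := by
    refine CH_congr hp ?_ ?_ (fun _ _ _ _ e => e) (fun _ _ _ _ e => e)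
    · intro ω ω' a b e
      have e1 := Prod.ext_iff.mp e
      simp only at e1
      exact Prod.ext e1.1 (hz ω ω' a b (Prod.ext e1.1 e1.2))
    · intro ω ω' a b e
      exact (Prod.ext_iff.mp (Prod.ext_iff.mp e).1).1
  linarith

/-- The number of roots of all derivatives. -/
noncomputable def dd (D : ℕ) : ℕ := Fintype.card {l : List (Fin 3) | l.length ≤ D} * D + 2 * D

open Classical in
/-- The product of the derivatives along the line. -/
noncomputable def pcv (D : ℕ) (u d : Fin 3 → ℝ) (i₁ : Fin 3)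
    (R : MvPolynomial (Option (Fin 3)) ℝ) : Polynomial ℝ :=
  ∏ l : {l : List (Fin 3) | l.length ≤ D},
    (if dcv u d i₁ R l.1 = 0 then 1 else dcv u d i₁ R l.1)

theorem natDegree_pcv {D : ℕ} (u d : Fin 3 → ℝ) (i₁ : Fin 3)
    {R : MvPolynomial (Option (Fin 3)) ℝ} (hR : R.totalDegree ≤ D) :
    (pcv D u d i₁ R).natDegree ≤ dd D := by
  classical
  unfold pcv dd
  refine (Polynomial.natDegree_prod_le _ _).trans ?_
  have h1 : ∀ l ∈ (Finset.univ : Finset {l : List (Fin 3) | l.length ≤ D}),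
      (if dcv u d i₁ R l.1 = 0 then (1 : Polynomial ℝ) else dcv u d i₁ R l.1).natDegree ≤ D := by
    intro l _
    split_ifs
    · rw [Polynomial.natDegree_one]
      exact Nat.zero_le _
    · exact natDegree_dcv u d i₁ hR l.1
  refine (Finset.sum_le_card_nsmul _ _ D h1).trans ?_
  rw [smul_eq_mul, Finset.card_univ]
  omega

theorem roots_pcv {D : ℕ} (u d : Fin 3 → ℝ) (i₁ : Fin 3)
    (R : MvPolynomial (Option (Fin 3)) ℝ) {l : List (Fin 3)} (hl : l.length ≤ D) {z : ℂ}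
    (hz : z ∈ ((dcv u d i₁ R l).map (algebraMap ℝ ℂ)).roots) :
    z ∈ ((pcv D u d i₁ R).map (algebraMap ℝ ℂ)).roots := by
  classical
  have hinj : Function.Injective (algebraMap ℝ ℂ) := (algebraMap ℝ ℂ).injective
  have h0 : dcv u d i₁ R l ≠ 0 := by
    intro h0
    rw [h0, Polynomial.map_zero, Polynomial.roots_zero] at hz
    exact absurd hz (Multiset.notMem_zero z)
  have hp0 : pcv D u d i₁ R ≠ 0 := by
    unfold pcv
    refine Finset.prod_ne_zero_iff.2 fun l' _ => ?_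
    split_ifs with h1
    · exact one_ne_zero
    · exact h1
  have hdvd : dcv u d i₁ R l ∣ pcv D u d i₁ R := by
    unfold pcv
    have h1 := Finset.dvd_prod_of_mem (fun l' : {l : List (Fin 3) | l.length ≤ D} =>
      (if dcv u d i₁ R l'.1 = 0 then (1 : Polynomial ℝ) else dcv u d i₁ R l'.1))
      (Finset.mem_univ (⟨l, hl⟩ : {l : List (Fin 3) | l.length ≤ D}))
    simp only [if_neg h0] at h1
    exact h1
  rw [Polynomial.mem_roots'] at hz ⊢
  refine ⟨(Polynomial.map_ne_zero_iff hinj).2 hp0, ?_⟩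
  exact hz.2.dvd (Polynomial.map_dvd (algebraMap ℝ ℂ) hdvd)

open Classical in
/-- **Atypical pairs are rare.** -/
theorem Zlb.bad {J : ℕ} {F : Fam 3 J} {Qt : ℕ} {i₀ i₁ : Fin 3} {w lam J' D P : ℕ}
    {h : w + J' ≤ J} {g : F.Ω → Fin 3 → ℝ} {V : Type} {z : F.Ω → V}
    {R : V → MvPolynomial (Option (Fin 3)) ℝ} (hz : Zlb F Qt i₀ i₁ w lam J' D P h g z R)
    {w₀ x p : ℕ} (hw₀ : w₀ ≤ w) (hxP : x ≤ P) (hp : p + D * ((w - w₀) + x + x + 4) ≤ P) {e : ℝ}
    (he : F.Tm e)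
    (hxl : 2 * Real.log ((3 * dd D + 1 : ℕ) : ℝ) ≤ x * Real.log 2) (hx0 : 0 < x) :
    Pe (prs F w₀) (fun v => ¬ Good F i₀ i₁ w lam J' p h g z R v) ≤
      4 * (e + Real.log 2) / (x * Real.log 2) := by
  have hl2 : 0 < Real.log 2 := Real.log_pos (by norm_num)
  have hx0r : (0 : ℝ) < x := by exact_mod_cast hx0
  have hxL : 0 < x * Real.log 2 := mul_pos hx0r hl2
  have hxJ : x ≤ J' := by
    obtain ⟨P₁, hP₁, hP₁J, -⟩ := hz.rel
    omega
  have h1 := few_times F (w := w) (x := x) (M := 2 * D + 1) (by omega) (by omega) he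
  have h2 := near_roots F (w₀ := w₀) (w := w) (x := x) (D := dd D) (by omega) hw₀ he
    (fun ω => pcv D ((F.zm w J' h (Box.plkC lam i₀) g).u ω)
      ((F.zm w J' h (Box.plkC lam i₀) g).d ω) i₁ (R (z ω)))
    (fun ω => natDegree_pcv _ _ _ (hz.deg (z ω)))
  obtain ⟨P₁, hP₁⟩ : ∃ P₁, P₁ = Pe F.p (fun ω => (vals F w x (slam F w ω)).card ≤ 2 * D + 1) :=
    ⟨_, rfl⟩
  obtain ⟨P₂, hP₂⟩ : ∃ P₂, P₂ = Pe (prs F w₀) (fun v => ∃ z' ∈ ((pcv D
    ((F.zm w J' h (Box.plkC lam i₀) g).u v.1) ((F.zm w J' h (Box.plkC lam i₀) g).d v.1) i₁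
      (R (z v.1))).map (algebraMap ℝ ℂ)).roots,
      |sv F w v - z'.re| < 2 ^ (w - w₀) / 2 ^ x) := ⟨_, rfl⟩
  rw [← hP₁] at h1
  rw [← hP₂] at h2
  have hP₁0 : 0 ≤ P₁ := by rw [hP₁]; exact Pe_nonneg F.isLaw _
  have hP₂0 : 0 ≤ P₂ := by rw [hP₂]; exact Pe_nonneg (prs_law F w₀) _
  have h3 : Pe (prs F w₀) (fun v => ¬ Good F i₀ i₁ w lam J' p h g z R v) ≤ P₁ + P₂ := by
    have e1 : P₁ = Pe (prs F w₀) (fun v => (vals F w x (slam F w v.1)).card ≤ 2 * D + 1) := by
      rw [hP₁]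
      exact ((prs_fst F w₀).law (fun ω => (vals F w x (slam F w ω)).card ≤ 2 * D + 1) True).symm
    rw [e1, hP₂, Pe_eq, Pe_eq, Pe_eq, ← Finset.sum_add_distrib]
    refine Finset.sum_le_sum fun v _ => ?_
    have hv0 := (prs_law F w₀).nonneg v
    rcases hv0.eq_or_lt with hv | hv
    · rw [← hv]
      simp
    · by_cases c1 : (vals F w x (slam F w v.1)).card ≤ 2 * D + 1
      · rw [if_pos c1]
        split_ifs <;> linarith
      · by_cases c2 : ∃ z' ∈ ((pcv D ((F.zm w J' h (Box.plkC lam i₀) g).u v.1)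
            ((F.zm w J' h (Box.plkC lam i₀) g).d v.1) i₁ (R (z v.1))).map (algebraMap ℝ ℂ)).roots,
            |sv F w v - z'.re| < 2 ^ (w - w₀) / 2 ^ x
        · rw [if_pos c2]
          split_ifs <;> linarith
        · have c3 := hz.good hw₀ hxP hp hv (fun c4 => c1 (by omega)) (fun l hl c4 => c2 (by
            obtain ⟨z', hz', h4⟩ := c4
            exact ⟨z', roots_pcv _ _ _ _ hl hz', h4⟩))
          rw [if_neg (by push Not; exact c3)]
          split_ifs <;> linarith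
  have hlogD : Real.log ((2 * D + 1 : ℕ) : ℝ) ≤ Real.log ((3 * dd D + 1 : ℕ) : ℝ) :=
    Real.log_le_log (by positivity) (by
      have : 2 * D + 1 ≤ 3 * dd D + 1 := by unfold dd; omega
      exact_mod_cast this)
  have h4 : P₁ * (x * Real.log 2 / 2) ≤ e + Real.log 2 := by
    refine le_trans (mul_le_mul_of_nonneg_left ?_ hP₁0) h1
    linarith
  have h5 : P₂ * (x * Real.log 2 / 2) ≤ e + Real.log 2 := by
    refine le_trans (mul_le_mul_of_nonneg_left ?_ hP₂0) h2
    linarith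
  refine h3.trans ?_
  rw [le_div_iff₀ hxL]
  linarith

end Pool.LBW
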