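import Pool.Agent.H63.LBW.Two

/-!
# Lemma B at the window of constant directions: no such family
-/

set_option autoImplicit false

namespace Pool.LBW

open Finset Real
open Pool.Agent.H49.Ent Pool.Agent.H32.Dense Pool.STK Pool.KA Pool.KSAT Pool.K2S Pool.K3 Pool.PB
  Pool.KS6 Pool.S6C
open Pool.S6K (ball_claim exp_small)

theorem one {a R h₁ : ℝ} (ha : 1 < a) (hR : 0 < R) (hU : UBa 3 a R) (hh₁ : 0 < h₁)
    (i₀ : Fin 3) (D' : ℕ) {Q v y s e g ψ : ℝ} (he : 0 < e) (hy : 0 < y) (hyv : y < v)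
    (hg0 : 0 < g) (hge : 200 * g ≤ e)
    (hQ1 : Q ≤ 1) (hvQ : v + s + 2 * e ≤ Q) (hψ : 0 < ψ)
    (hs : (1 + a / R * (2 * ((D' : ℝ) + 1) + 9)) * (y + e) < s) :
    ∃ t > 0, ∃ J₀ : ℕ, ∀ J ≥ J₀, ∀ (F : Fam 3 J) (A : F.Ω → Prop), Fam.Stt F a R t A →
      Lb F i₀ ⌊h₁ * J⌋₊ A →
      (∀ B : F.Ω → Prop, Sub B A → Real.exp (-(ψ * J)) * Pe F.p A ≤ Pe F.p B →
        ¬ LineU i₀ (1 / 2 ^ ⌊(s + g / 8) * J⌋₊) (ptq F ⌊Q * J⌋₊) F.d B) →
      (∀ B : F.Ω → Prop, Sub B A → Real.exp (-(ψ * J)) * Pe F.p A ≤ Pe F.p B →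
        ¬ RotU i₀ (1 / 2 ^ ⌊(s - (1 + a / R * (2 * ((D' : ℝ) + 1) + 9)) * (y + e)) * J⌋₊)
          (1 / 2 ^ ⌊(s - (1 + a / R * (2 * ((D' : ℝ) + 1) + 9)) * (y + e)) * J⌋₊)
          (ptq F ⌊Q * J⌋₊) (slam F ⌊(v - y) * J⌋₊) F.d B) →
      CIQ F ⌊Q * J⌋₊ i₀ ⌊v * J⌋₊ ⌊(s - g / 8) * J⌋₊
        (⌊Q * J⌋₊ - ⌊v * J⌋₊ - ⌊(s - g / 8) * J⌋₊) D' ⌊(Q - v - s - e) * J⌋₊ A → False := by
  classical
  have hl2 : 0 < Real.log 2 := Real.log_pos (by norm_num)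
  have hl1 : Real.log 2 ≤ 1 := by
    have := Real.log_two_lt_d9
    linarith
  have hl5 : 1 / 2 ≤ Real.log 2 := by
    have := Real.log_two_gt_d9
    linarith
  obtain ⟨C, hC, hcore⟩ := core
  obtain ⟨CU, hCU, hupp⟩ := upp (D' + 1)
  obtain ⟨D, hD⟩ : ∃ D : ℝ, D = (D' : ℝ) + 1 := ⟨_, rfl⟩
  have hD1 : 1 ≤ D := by rw [hD]; have : (0 : ℝ) ≤ D' := Nat.cast_nonneg _; linarith
  rw [← hD] at hs ⊢
  obtain ⟨β, hβ⟩ : ∃ β, β = y + e := ⟨_, rfl⟩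
  rw [← hβ] at hs ⊢
  have hβ0 : 0 < β := by rw [hβ]; linarith
  have heβ : e ≤ β := by rw [hβ]; linarith
  obtain ⟨k, hk⟩ : ∃ k, k = a / R * (2 * D + 9) := ⟨_, rfl⟩
  have hk0 : 0 < k := by rw [hk]; positivity
  rw [← hk] at hs ⊢
  have hkR : R / a * k = 2 * D + 9 := by
    rw [hk]
    field_simp
  have hkβ : (1 + k) * β = β + k * β := by ring
  have hkβ0 : 0 < k * β := by positivity
  have hg172 : 172 * g ≤ β := by linarith
  obtain ⟨ξ, hξ⟩ : ∃ ξ, ξ = e / (16 * D) := ⟨_, rfl⟩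
  have hξ0 : 0 < ξ := by rw [hξ]; positivity
  have hξD : 16 * (D * ξ) = e := by
    rw [hξ]
    field_simp
  have hξe : 16 * ξ ≤ e := by
    have : 1 * ξ ≤ D * ξ := mul_le_mul_of_nonneg_right hD1 hξ0.le
    linarith
  have hsg : g < s := by linarith
  obtain ⟨ts, hts, ψ₁, hψ₁, hψ₁', Js, hsp⟩ := one_spread ha hR hU hh₁ i₀ (Q := Q) (v := v)
    (s := s) (g := g) (ψ := ψ) hg0 hQ1 hψ hsg (by linarith) (by linarith)
  obtain ⟨τa, hτa, Ja, hact⟩ := act_thm 3 a R ha.le hU (η := β) (x₀ := v) hβ0 (by linarith)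
  obtain ⟨τ', hτ'⟩ : ∃ τ', τ' = min τa (β / (8 * (7 / g + 3 + 32 / ξ))) := ⟨_, rfl⟩
  have hτ'0 : 0 < τ' := by rw [hτ']; exact lt_min hτa (by positivity)
  have hτ'1 : τ' ≤ τa := by rw [hτ']; exact min_le_left _ _
  have hτ'2 : (7 / g + 3 + 32 / ξ) * τ' ≤ β / 8 := by
    have h1 : τ' ≤ β / (8 * (7 / g + 3 + 32 / ξ)) := by rw [hτ']; exact min_le_right _ _
    have h2 : (0 : ℝ) < 7 / g + 3 + 32 / ξ := by positivity
    calc (7 / g + 3 + 32 / ξ) * τ' ≤ (7 / g + 3 + 32 / ξ) * (β / (8 * (7 / g + 3 + 32 / ξ))) :=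
          mul_le_mul_of_nonneg_left h1 h2.le
      _ = β / 8 := by field_simp
  obtain ⟨t, ht⟩ : ∃ t, t = min ts (τ' / (7 * (1 + a))) := ⟨_, rfl⟩
  have ht0 : 0 < t := by rw [ht]; exact lt_min hts (by positivity)
  have ht1 : t ≤ ts := by rw [ht]; exact min_le_left _ _
  have ht2 : (1 + a) * (5 * t + 2 * t) ≤ τ' := by
    have h1 : t ≤ τ' / (7 * (1 + a)) := by rw [ht]; exact min_le_right _ _
    have h2 : (0 : ℝ) < 7 * (1 + a) := by linarith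
    rw [le_div_iff₀ h2] at h1
    linarith
  obtain ⟨δ, hδ⟩ : ∃ δ, δ = 2 / g * cc 3 + 1 := ⟨_, rfl⟩
  have hcc : (0 : ℝ) ≤ cc 3 := by
    unfold cc
    positivity
  have hδ0 : 0 < δ := by rw [hδ]; positivity
  obtain ⟨Je, hJe⟩ := exp_small (show (0 : ℝ) < ψ₁ / 4 by linarith)
    (show (1 : ℝ) ≤ 400 / β + 1 by have : 0 < 400 / β := by positivity
                                   linarith)
  obtain ⟨c1, hc1⟩ : ∃ c1, c1 = (64 + D) / g := ⟨_, rfl⟩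
  obtain ⟨c2, hc2⟩ : ∃ c2, c2 = (4 * δ + 16) / ψ₁ := ⟨_, rfl⟩
  obtain ⟨c3, hc3⟩ : ∃ c3, c3 = 2 / t := ⟨_, rfl⟩
  obtain ⟨cst, hcst⟩ : ∃ cst, cst = CU + 32 / ξ + (2 * C / g + C) + (706 + 16 * D) := ⟨_, rfl⟩
  obtain ⟨c4, hc4⟩ : ∃ c4, c4 = 8 * cst / β := ⟨_, rfl⟩
  obtain ⟨lD, hlD⟩ : ∃ lD, lD = Real.log ((3 * dd (D' + 1) + 1 : ℕ) : ℝ) := ⟨_, rfl⟩
  have hlD0 : 0 ≤ lD := by rw [hlD]; exact Real.log_natCast_nonneg _
  obtain ⟨c5, hc5⟩ : ∃ c5, c5 = 4 * lD / ξ := ⟨_, rfl⟩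
  have hc10 : 0 < c1 := by rw [hc1]; positivity
  have hc20 : 0 < c2 := by rw [hc2]; positivity
  have hc30 : 0 < c3 := by rw [hc3]; positivity
  have hcst0 : 0 < cst := by rw [hcst]; positivity
  have hc40 : 0 < c4 := by rw [hc4]; positivity
  have hc50 : 0 ≤ c5 := by rw [hc5]; positivity
  obtain ⟨Jx, hJx⟩ := exists_nat_gt (c1 + c2 + c3 + c4 + c5)
  refine ⟨t, ht0, Js + Ja + Je + Jx + 5, ?_⟩
  intro J hJ F A hS hL hlin hrot hCI
  have hJx' : c1 + c2 + c3 + c4 + c5 < J := hJx.trans_le (by exact_mod_cast (by omega : Jx ≤ J))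
  have hJ5 : 5 ≤ J := by omega
  have hJ0 : (0 : ℝ) < J := by linarith
  have J1 : 64 + D < g * J := by
    have : (64 + D) / g < J := by rw [← hc1]; linarith
    rw [div_lt_iff₀ hg0] at this
    linarith
  have J2 : 4 * δ + 16 < ψ₁ * J := by
    have : (4 * δ + 16) / ψ₁ < J := by rw [← hc2]; linarith
    rw [div_lt_iff₀ hψ₁] at this
    linarith
  have J3 : 2 < t * J := by
    have : 2 / t < J := by rw [← hc3]; linarith
    rw [div_lt_iff₀ ht0] at this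
    linarith
  have J4 : 8 * cst < β * J := by
    have : 8 * cst / β < J := by rw [← hc4]; linarith
    rw [div_lt_iff₀ hβ0] at this
    linarith
  have J5 : 4 * lD < ξ * J := by
    have : 4 * lD / ξ < J := by rw [← hc5]; linarith
    rw [div_lt_iff₀ hξ0] at this
    linarith
  have J6 : Real.exp (-(ψ₁ / 4 * J)) ≤ β / 400 := by
    refine (hJe J (by omega)).trans ?_
    rw [div_le_div_iff₀ (by positivity) (by norm_num)]
    have : β * (400 / β + 1) = 400 + β := by field_simp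
    rw [this]
    linarith
  have hgeJ : 200 * (g * J) ≤ e * J := by
    have := mul_le_mul_of_nonneg_right hge hJ0.le
    linarith
  have heJ : 12800 + 200 * D < e * J := by linarith
  have hp := F.isLaw
  have hA0 : 0 < Pe F.p A := lt_of_lt_of_le (Real.exp_pos _) hS.2.2.2
  -- the numbers
  obtain ⟨Qt, hQt⟩ : ∃ Qt, Qt = ⌊Q * J⌋₊ := ⟨_, rfl⟩
  obtain ⟨w, hw⟩ : ∃ w, w = ⌊v * J⌋₊ := ⟨_, rfl⟩
  obtain ⟨w₀, hw₀⟩ : ∃ w₀, w₀ = ⌊(v - y) * J⌋₊ := ⟨_, rfl⟩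
  obtain ⟨lam, hlam⟩ : ∃ lam, lam = ⌊(s - g / 8) * J⌋₊ := ⟨_, rfl⟩
  obtain ⟨l, hl⟩ : ∃ l, l = ⌊(s - (1 + k) * β) * J⌋₊ := ⟨_, rfl⟩
  obtain ⟨P, hP⟩ : ∃ P, P = ⌊(Q - v - s - e) * J⌋₊ := ⟨_, rfl⟩
  obtain ⟨P', hP'⟩ : ∃ P', P' = P - (D' + 8) := ⟨_, rfl⟩
  obtain ⟨J', hJ'⟩ : ∃ J', J' = Qt - w - lam := ⟨_, rfl⟩
  obtain ⟨x, hx⟩ : ∃ x, x = ⌈ξ * J⌉₊ := ⟨_, rfl⟩
  obtain ⟨n, hn⟩ : ∃ n, n = ⌊g * J⌋₊ := ⟨_, rfl⟩
  have f1 : (Qt : ℝ) ≤ Q * J ∧ Q * J < Qt + 1 := by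
    rw [hQt]
    exact ⟨Nat.floor_le (mul_nonneg (by linarith) hJ0.le), Nat.lt_floor_add_one _⟩
  have f2 : (w : ℝ) ≤ v * J ∧ v * J < w + 1 := by
    rw [hw]
    exact ⟨Nat.floor_le (mul_nonneg (by linarith) hJ0.le), Nat.lt_floor_add_one _⟩
  have f3 : (w₀ : ℝ) ≤ (v - y) * J ∧ (v - y) * J < w₀ + 1 := by
    rw [hw₀]
    exact ⟨Nat.floor_le (mul_nonneg (by linarith) hJ0.le), Nat.lt_floor_add_one _⟩
  have f4 : (lam : ℝ) ≤ (s - g / 8) * J ∧ (s - g / 8) * J < lam + 1 := by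
    rw [hlam]
    exact ⟨Nat.floor_le (mul_nonneg (by linarith) hJ0.le), Nat.lt_floor_add_one _⟩
  have f5 : (l : ℝ) ≤ (s - (1 + k) * β) * J ∧ (s - (1 + k) * β) * J < l + 1 := by
    rw [hl]
    exact ⟨Nat.floor_le (mul_nonneg (by linarith) hJ0.le), Nat.lt_floor_add_one _⟩
  have f6 : (P : ℝ) ≤ (Q - v - s - e) * J ∧ (Q - v - s - e) * J < P + 1 := by
    rw [hP]
    exact ⟨Nat.floor_le (mul_nonneg (by linarith) hJ0.le), Nat.lt_floor_add_one _⟩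
  have f7 : ξ * J ≤ x ∧ (x : ℝ) < ξ * J + 1 := by
    rw [hx]
    exact ⟨Nat.le_ceil _, Nat.ceil_lt_add_one (by positivity)⟩
  have f8 : (n : ℝ) ≤ g * J ∧ g * J < n + 1 := by
    rw [hn]
    exact ⟨Nat.floor_le (by positivity), Nat.lt_floor_add_one _⟩
  rw [← hQt, ← hw, ← hlam, ← hJ', ← hP] at hCI
  rw [← hQt, ← hl, ← hw₀] at hrot
  have hvQJ : (v + s + 2 * e) * J ≤ Q * J := mul_le_mul_of_nonneg_right hvQ hJ0.le
  have e1 : (v + s + 2 * e) * J = v * J + s * J + 2 * (e * J) := by ring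
  have e2 : (s - g / 8) * J = s * J - g * J / 8 := by ring
  have e3 : (v - y) * J = v * J - y * J := by ring
  have e4 : (s - (1 + k) * β) * J = s * J - β * J - k * β * J := by ring
  have e5 : (Q - v - s - e) * J = Q * J - v * J - s * J - e * J := by ring
  rw [e1] at hvQJ
  rw [e2] at f4
  rw [e3] at f3
  rw [e4] at f5
  rw [e5] at f6
  have hyJ : 0 < y * J := by positivity
  have hβJ : 0 < β * J := by positivity
  have hkβJ : 0 < k * β * J := by positivity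
  have hβJe : e * J ≤ β * J := mul_le_mul_of_nonneg_right heβ hJ0.le
  have hβJ' : β * J = y * J + e * J := by rw [hβ]; ring
  have hQJ : Qt ≤ J := by
    have : (Qt : ℝ) ≤ J := by
      refine f1.1.trans ?_
      calc Q * J ≤ 1 * J := mul_le_mul_of_nonneg_right hQ1 hJ0.le
        _ = J := one_mul _
    exact_mod_cast this
  have hw₀w : w₀ ≤ w := by
    have : (w₀ : ℝ) < w + 1 := by linarith
    have : w₀ < w + 1 := by exact_mod_cast this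
    omega
  have hllam : l ≤ lam := by
    have : (l : ℝ) < lam + 1 := by linarith
    have : l < lam + 1 := by exact_mod_cast this
    omega
  have hwlam : w + lam ≤ Qt := by
    have : ((w + lam : ℕ) : ℝ) < Qt + 1 := by
      push_cast
      linarith
    have : w + lam < Qt + 1 := by exact_mod_cast this
    omega
  have hQt3 : Qt = w + J' + lam := by omega
  have hJ'r : (J' : ℝ) = Qt - w - lam := by
    have : (Qt : ℝ) = w + J' + lam := by exact_mod_cast hQt3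
    linarith
  have hJ'lo : e * J ≤ J' := by rw [hJ'r]; linarith
  have hPJ' : P' ≤ J' := by
    have : (P : ℝ) < J' + 1 := by rw [hJ'r]; linarith
    have : P < J' + 1 := by exact_mod_cast this
    omega
  have hP8 : D' + 8 ≤ P := by
    have : ((D' + 8 : ℕ) : ℝ) < P + 1 := by
      push_cast
      linarith
    have : D' + 8 < P + 1 := by exact_mod_cast this
    omega
  have hP'r : (P' : ℝ) = P - D - 7 := by
    have : P' + (D' + 8) = P := by omega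
    have : ((P' + (D' + 8) : ℕ) : ℝ) = P := by rw [this]
    push_cast at this
    linarith
  have hξJ : 16 * (ξ * J) ≤ e * J := by
    have := mul_le_mul_of_nonneg_right hξe hJ0.le
    linarith
  have hx0 : 0 < x := by
    have : (0 : ℝ) < x := by
      have : 0 < ξ * J := by positivity
      linarith
    exact_mod_cast this
  have hxl : 2 * Real.log ((3 * dd (D' + 1) + 1 : ℕ) : ℝ) ≤ x * Real.log 2 := by
    rw [← hlD]
    have : (x : ℝ) * (1 / 2) ≤ x * Real.log 2 := mul_le_mul_of_nonneg_left hl5 (Nat.cast_nonneg _)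
    linarith
  have hlamlo : 100 * (g * J) ≤ lam := by
    have := mul_le_mul_of_nonneg_right hg172 hJ0.le
    linarith
  -- the data
  obtain ⟨h, gf, i₁, V, z, Rz, ⟨γ, hγ⟩, ⟨φ, hφ⟩, hZ⟩ :=
    exists_zlb F (p := P') (by omega) hCI
  have hspr : ∀ B : F.Ω → Prop, Sub B A → Real.exp (-(ψ₁ * J)) * Pe F.p A ≤ Pe F.p B →
      ¬ PlU 1 (1 / 2 ^ n) (ptq F Qt) (F.zm w J' h (Box.plkC lam i₀) gf).d B ∧
      ¬ PlU 0 (1 / 2 ^ n) (ptq F Qt) F.d B := by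
    have h1 := hsp J (by omega) F A (Fam.Stt.mono ht1 hS) hL hlin w J' h gf hw
      (by rw [hJ', hQt, hw, hlam]) (by rw [← hQt]; exact ⟨γ, hγ⟩) (by
        rw [← hQt, ← hlam]
        refine ⟨fun y => (φ y).2.2.1.2.2, fun ω hω => ?_⟩
        change F.bvl (Box.plkC lam i₀) gf ω = (φ (ptq F Qt ω)).2.2.1.2.2
        rw [← hφ ω hω]
        rfl)
    rw [← hn, ← hQt, ← hlam] at h1
    exact h1
  obtain ⟨g₁, hg₁⟩ : ∃ g₁, g₁ = (n + 2 + 3) * 2 + (n + 2) := ⟨_, rfl⟩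
  obtain ⟨g₂, hg₂⟩ : ∃ g₂, g₂ = (n + 2 + 3) * 1 + (n + 2) := ⟨_, rfl⟩
  have hg₁r : (g₁ : ℝ) = 3 * n + 12 := by rw [hg₁]; push_cast; ring
  have hg₂r : (g₂ : ℝ) = 2 * n + 7 := by rw [hg₂]; push_cast; ring
  obtain ⟨R₁, hR₁, hR₁'⟩ := blk (g := g₁) (N := J') (by omega) (by
    have : (g₁ : ℝ) ≤ J' := by linarith
    exact_mod_cast this)
  obtain ⟨R₂, hR₂, hR₂'⟩ := blk (g := g₂) (N := lam) (by omega) (by
    have : (g₂ : ℝ) ≤ lam := by linarith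
    exact_mod_cast this)
  have hR₁r : ((R₁ : ℝ) + 1) * g₁ ≤ J' := by exact_mod_cast hR₁
  have hR₂r : ((R₂ : ℝ) + 1) * g₂ ≤ lam := by exact_mod_cast hR₂
  have hR₁r' : (J' : ℝ) ≤ (R₁ + 2) * g₁ := by exact_mod_cast hR₁'.le
  have hR₂r' : (lam : ℝ) ≤ (R₂ + 2) * g₂ := by exact_mod_cast hR₂'.le
  have hQr : (Qt : ℝ) ≤ J := by exact_mod_cast hQJ
  have hR₁J : (R₁ : ℝ) * g₁ ≤ J := by
    have : (0 : ℝ) ≤ g₁ := Nat.cast_nonneg _
    have h3 : (J' : ℝ) ≤ Qt := by exact_mod_cast (by omega : J' ≤ Qt)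
    linarith
  have hR₂J : (R₂ : ℝ) * g₂ ≤ J := by
    have : (0 : ℝ) ≤ g₂ := Nat.cast_nonneg _
    have h3 : (lam : ℝ) ≤ Qt := by exact_mod_cast (by omega : lam ≤ Qt)
    linarith
  have hgg₁ : g * J ≤ g₁ := by linarith [Nat.cast_nonneg (α := ℝ) n]
  have hgg₂ : g * J ≤ g₂ := by linarith [Nat.cast_nonneg (α := ℝ) n]
  -- positive samples
  obtain ⟨A₀, hA₀⟩ : ∃ A₀ : F.Ω → Prop, A₀ = fun ω => A ω ∧ 0 < F.p ω := ⟨_, rfl⟩
  have hA₀A : Sub A₀ A := by rw [hA₀]; exact fun _ h => h.1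
  have hPA₀ : Pe F.p A₀ = Pe F.p A := by
    refine Pe_eq_pos hp.nonneg fun ω hω => ?_
    rw [hA₀]
    exact ⟨fun h => h.1, fun h => ⟨h, hω⟩⟩
  have hA₀0 : 0 < Pe F.p A₀ := by rw [hPA₀]; exact hA0
  obtain ⟨κ, hκ⟩ : ∃ κ, κ = ψ₁ * J - 2 * δ - 2 * Real.log 2 := ⟨_, rfl⟩
  have hκ1 : ψ₁ / 2 * J ≤ κ := by rw [hκ]; linarith
  have hκ2 : κ + 2 * δ + 2 * Real.log 2 = ψ₁ * J := by rw [hκ]; ring
  have hRg : (R₁ : ℝ) + R₂ ≤ 2 / g := by
    have h1 : (R₁ : ℝ) * (g * J) ≤ J :=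
      (mul_le_mul_of_nonneg_left hgg₁ (Nat.cast_nonneg _)).trans hR₁J
    have h2 : (R₂ : ℝ) * (g * J) ≤ J :=
      (mul_le_mul_of_nonneg_left hgg₂ (Nat.cast_nonneg _)).trans hR₂J
    rw [le_div_iff₀ hg0]
    have h3 : (((R₁ : ℝ) + R₂) * g) * J ≤ 2 * J := by linarith
    exact le_of_mul_le_mul_right h3 hJ0
  obtain ⟨A', hA'A₀, hPA', hnc₁, hnc₂⟩ := clean2 hp hδ0 (κ := κ) (by linarith) hA₀0
    (c₁ := (F.zm w J' h (Box.plkC lam i₀) gf).d) (c₂ := F.d) (g := ptq F Qt)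
    (fun ω => ((fun l : Fin R₁ => (F.zm w J' h (Box.plkC lam i₀) gf).c ((l : ℕ) * g₁) ω),
        (fun l : Fin R₂ => F.c (w + J' + (l : ℕ) * g₂) ω)))
    (r₁ := fun D (s : (Fin 3 → ℝ) × (Fin 1 → Fin 3 → ℝ)) =>
      ∃ c : Fin 1 → ℝ, ∀ i, |D i - s.1 i - ∑ l, c l * s.2 l i| ≤ 1 / 2 ^ n)
    (r₂ := fun D (s : (Fin 3 → ℝ) × (Fin 0 → Fin 3 → ℝ)) =>
      ∃ c : Fin 0 → ℝ, ∀ i, |D i - s.1 i - ∑ l, c l * s.2 l i| ≤ 1 / 2 ^ n)
    (by
      intro B hB hPB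
      rw [hκ2, hPA₀] at hPB
      exact (hspr B (fun ω hω => hA₀A ω (hB ω hω)) hPB).1)
    (by
      intro B hB hPB
      rw [hκ2, hPA₀] at hPB
      exact (hspr B (fun ω hω => hA₀A ω (hB ω hω)) hPB).2)
    (by
      intro B hB hB0
      refine (lab_small F h gf ⟨φ, fun ω hω => hφ ω (hA₀A ω hω)⟩ g₁ R₁ g₂ R₂ hR₁ hR₂ hQt3 hQJ B hB
        hB0).trans ?_
      have := mul_le_mul_of_nonneg_right hRg hcc
      rw [hδ]
      linarith)
  have hA'A : Sub A' A := fun ω hω => hA₀A ω (hA'A₀ ω hω)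
  have hA'0 : 0 < Pe F.p A' := by linarith
  have hpos : ∀ ω, A' ω → 0 < F.p ω := fun ω hω => by
    have := hA'A₀ ω hω
    rw [hA₀] at this
    exact this.2
  have hexp4 : Real.exp (-(t * J)) ≤ 1 / 4 := by
    have h1 : Real.exp (-(t * J)) ≤ Real.exp (-(2 * Real.log 2)) :=
      Real.exp_le_exp.2 (by linarith)
    have h2 : Real.exp (-(2 * Real.log 2)) = 1 / 4 := by
      rw [show -(2 * Real.log 2) = -Real.log 2 + -Real.log 2 by ring, Real.exp_add, Real.exp_neg,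
        Real.exp_log (by norm_num)]
      norm_num
    rw [← h2]
    exact h1
  have hPe : Real.exp (-(2 * t * J)) ≤ Pe F.p A' := by
    have h1 : Real.exp (-(2 * t * J)) = Real.exp (-(t * J)) * Real.exp (-(t * J)) := by
      rw [← Real.exp_add]
      congr 1
      ring
    rw [h1]
    have h2 : Real.exp (-(t * J)) ≤ Pe F.p A := hS.2.2.2
    have h3 : Real.exp (-(t * J)) * Real.exp (-(t * J)) ≤ 1 / 4 * Pe F.p A :=
      mul_le_mul hexp4 h2 (Real.exp_pos _).le (by norm_num)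
    linarith
  obtain ⟨hlaw, -, hMx, -⟩ := max_res F ha.le ht0.le (by linarith : (0 : ℝ) ≤ 2 * t) hS.1 hS.2.1
    hS.2.2.1 A' hPe
  have hMx1 := Mx_mono (ht2.trans hτ'1) hMx
  have hMx2 := Mx_mono ht2 hMx
  have hTm : (F.res A' True hlaw).Tm (τ' * J) := hMx2.1
  have hz := hZ A' hlaw hA'A
  -- the stability of the directions
  have hexpr : Real.exp (-(ψ * J)) ≤ 1 / 4 * Real.exp (-(ψ₁ / 4 * J)) := by
    have h1 : -(ψ * J) ≤ -(2 * Real.log 2) + -(ψ₁ / 4 * J) := by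
      have := mul_le_mul_of_nonneg_right hψ₁' hJ0.le
      linarith
    have h2 := Real.exp_le_exp.2 h1
    rw [Real.exp_add] at h2
    have h3 : Real.exp (-(2 * Real.log 2)) = 1 / 4 := by
      rw [show -(2 * Real.log 2) = -Real.log 2 + -Real.log 2 by ring, Real.exp_add, Real.exp_neg,
        Real.exp_log (by norm_num)]
      norm_num
    rwa [h3] at h2
  have hstab : Stb F.p (ψ₁ / 4 * J) A' (RotU i₀ (1 / 2 ^ l) (1 / 2 ^ l) (ptq F Qt)
      (slam F w₀) F.d) := by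
    refine Or.inr fun B hB hPB => hrot B (fun ω hω => hA'A ω (hB ω hω)) ?_
    refine le_trans ?_ hPB
    calc Real.exp (-(ψ * J)) * Pe F.p A ≤ (1 / 4 * Real.exp (-(ψ₁ / 4 * J))) * Pe F.p A :=
          mul_le_mul_of_nonneg_right hexpr hA0.le
      _ = Real.exp (-(ψ₁ / 4 * J)) * (1 / 4 * Pe F.p A) := by ring
      _ ≤ _ := mul_le_mul_of_nonneg_left (by linarith) (Real.exp_pos _).le
  have hexp1 : Real.exp (-(ψ₁ / 4 * J)) ≤ 1 := by
    rw [Real.exp_le_one_iff]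
    have : 0 ≤ ψ₁ / 4 * J := by positivity
    linarith
  have hnot : ¬ RotU i₀ (1 / 2 ^ l) (1 / 2 ^ l) (ptq F Qt) (slam F w₀) F.d A' := by
    rcases hstab with h1 | h1
    · exfalso
      refine hrot A' hA'A ?_ h1
      calc Real.exp (-(ψ * J)) * Pe F.p A ≤ (1 / 4 * Real.exp (-(ψ₁ / 4 * J))) * Pe F.p A :=
            mul_le_mul_of_nonneg_right hexpr hA0.le
        _ = Real.exp (-(ψ₁ / 4 * J)) * (1 / 4 * Pe F.p A) := by ring
        _ ≤ 1 * Pe F.p A' := mul_le_mul hexp1 (by linarith) (by positivity) zero_le_one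
        _ = _ := one_mul _
    · refine h1 A' (fun _ h => h) ?_
      calc _ ≤ 1 * Pe F.p A' := mul_le_mul_of_nonneg_right hexp1 hA'0.le
        _ = _ := one_mul _
  -- the upper bound
  obtain ⟨b, hb⟩ : ∃ b, b = (J' : ℝ) - P' := ⟨_, rfl⟩
  obtain ⟨M, E₀, hM0, hM, hE₀, hUb⟩ := upp_num hz hCU (fun {p w₀ ε} a1 a2 a3 =>
    hupp hz a1 hQt3 a2 a3) (w₀ := w₀) (x := x) (e := τ') (a := ξ) (b := b) hw₀w hQt3 hQJ
    (by omega) hPJ' hx0 hxl hTm hτ'0.le hξ0 f7.1 hJ5 (by rw [hb])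
  obtain ⟨q, hq⟩ : ∃ q, q = lam - l := ⟨_, rfl⟩
  have hlq : l + q = lam := by omega
  have e44 : (1 : ℝ) / 2 ^ n = 4 / 2 ^ (n + 2) := by
    rw [pow_add]
    field_simp
    norm_num
  rw [e44] at hnc₁ hnc₂
  have hfin := hcore F hA'0 hpos hlaw hz (κ := ψ₁ / 4 * J) (l := l) (q := q) (w₀ := w₀)
    (e := τ' * J) (U := (2 * (J' : ℝ) + lam + M) * Real.log 2 + E₀) _ g₁ (n + 2) R₁ g₂ (n + 2) R₂
    _ _ hstab hnot hlq hw₀w hQt3 hQJ hTm hUb hR₁ hR₂ (by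
      intro r hr ω ω' _ _ e
      exact congrFun (Prod.ext_iff.mp e).1 ⟨r, hr⟩) (by
      intro r hr ω ω' _ _ e
      exact congrFun (Prod.ext_iff.mp e).2 ⟨r, hr⟩) (by omega) (by rw [hg₁]) (by omega)
      (by rw [hg₂]) hnc₁ hnc₂
  -- the activity
  have hqJ : q ≤ J := by omega
  have hqr : (q : ℝ) = lam - l := by
    rw [hq, Nat.cast_sub hllam]
  have hqv : (q : ℝ) ≤ (1 - v) * J := by
    have h1 : (1 - v) * J = J - v * J := by ring
    have h2 : Q * J ≤ J := by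
      calc Q * J ≤ 1 * J := mul_le_mul_of_nonneg_right hQ1 hJ0.le
        _ = J := one_mul _
    have h3 : (0 : ℝ) ≤ l := Nat.cast_nonneg _
    have h4 : 0 < g * J := mul_pos hg0 hJ0
    rw [h1, hqr]
    linarith
  have hactv := hact J (by omega) (F.res A' True hlaw) hMx1 q hqJ hqv
  have hmono : CH (F.res A' True hlaw).p ((F.res A' True hlaw).D q)
      (fun ω => ((F.res A' True hlaw).X J ω, (F.res A' True hlaw).W ω)) ≤
      CH (F.res A' True hlaw).p (F.D q) (fun ω => (F.X Qt ω, F.W ω)) := by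
    refine CH_mono_cond (F.res A' True hlaw).isLaw.nonneg fun ω ω' _ _ e => ?_
    exact Prod.ext (Pool.STK.B58.fl_fine hQJ (Prod.ext_iff.mp e).1) (Prod.ext_iff.mp e).2
  have hqk : k * β * J ≤ q := by
    rw [hqr]
    linarith
  have hRa : (2 * D + 9) * (β * J) ≤ R / a * q := by
    have h1 : R / a * (k * β * J) ≤ R / a * q := mul_le_mul_of_nonneg_left hqk (by positivity)
    have h2 : R / a * (k * β * J) = (R / a * k) * (β * J) := by ring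
    rw [h2, hkR] at h1
    exact h1
  -- the errors
  have hMb : M ≤ (2 * D + 5) * β * J + (44 + 16 * D) := by
    refine hM.trans ?_
    have h0 : ((D' + 1 : ℕ) : ℝ) = D := by rw [hD]; push_cast; ring
    rw [h0]
    have h1 : b ≤ e * J + g * J / 8 + 10 + D := by rw [hb, hJ'r, hP'r]; linarith
    have h2 : (w : ℝ) - w₀ ≤ y * J + 1 := by linarith
    have h3 : D * (((w : ℝ) - w₀) + x + x + 4) ≤ D * (y * J + 2 * (ξ * J) + 7) :=
      mul_le_mul_of_nonneg_left (by linarith) (by linarith)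
    have h4 : D * (y * J + 2 * (ξ * J) + 7) = D * (y * J) + 2 * (D * ξ) * J + 7 * D := by ring
    rw [h4] at h3
    have h5 : 16 * (D * ξ) * J = e * J := by rw [hξD]
    have h6 : (2 * D + 5) * β * J = 2 * (D * (y * J)) + 2 * (D * (e * J)) + 5 * (y * J) +
        5 * (e * J) := by rw [hβ]; ring
    rw [h6]
    have h7 : 1 * (e * J) ≤ D * (e * J) := mul_le_mul_of_nonneg_right hD1 (by positivity)
    linarith
  obtain ⟨ρ, hρ⟩ : ∃ ρ, ρ = Real.exp (-(κ / 2)) := ⟨_, rfl⟩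
  obtain ⟨r, hr⟩ : ∃ r, r = Real.exp (-(ψ₁ / 4 * J)) := ⟨_, rfl⟩
  obtain ⟨lg, hlg⟩ : ∃ lg, lg = Real.log (2 * (2 * 2 ^ q + 1) + 1) := ⟨_, rfl⟩
  have hρr : ρ ≤ β / 400 := by
    rw [hρ]
    refine (Real.exp_le_exp.2 ?_).trans J6
    linarith
  have hlg2 : lg ≤ 2 * J := by
    rw [hlg]
    refine (log_dir q).trans ?_
    have h1 : (q : ℝ) ≤ J := by exact_mod_cast hqJ
    have h2 : (5 : ℝ) ≤ J := by exact_mod_cast hJ5
    linarith
  have hr0 : 0 < r := by rw [hr]; exact Real.exp_pos _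
  have hr6 : r ≤ β / 400 := by rw [hr]; exact J6
  have hE : E₀ + (7 * τ' / g + 3 * τ') * J + 13 * ρ * J + r * (3 * lg) + (2 * C / g + C) +
      (706 + 16 * D) ≤ β / 2 * J := by
    have h1 : r * (3 * lg) ≤ β / 400 * (3 * (2 * J)) := by
      calc r * (3 * lg) ≤ r * (3 * (2 * J)) :=
            mul_le_mul_of_nonneg_left (by linarith) hr0.le
        _ ≤ _ := mul_le_mul_of_nonneg_right hr6 (by positivity)
    have h2 : 13 * ρ * J ≤ 13 * (β / 400) * J :=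
      mul_le_mul_of_nonneg_right (by linarith) hJ0.le
    have h3 : ((7 / g + 3 + 32 / ξ) * τ') * J ≤ β / 8 * J :=
      mul_le_mul_of_nonneg_right hτ'2 hJ0.le
    have h4 : CU + 32 * (τ' * J + 1) / ξ = CU + 32 / ξ + 32 / ξ * τ' * J := by ring
    rw [h4] at hE₀
    have h5 : ((7 / g + 3 + 32 / ξ) * τ') * J = (7 * τ' / g + 3 * τ') * J + 32 / ξ * τ' * J := by
      ring
    rw [h5] at h3
    have h6 : β / 400 * (3 * (2 * J)) = 6 / 400 * (β * J) := by ring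
    have h7 : 13 * (β / 400) * J = 13 / 400 * (β * J) := by ring
    have h8 : β / 8 * J = 1 / 8 * (β * J) := by ring
    have h9 : β / 2 * J = 1 / 2 * (β * J) := by ring
    rw [h6] at h1
    rw [h7] at h2
    rw [h8] at h3
    rw [h9]
    rw [hcst] at J4
    linarith
  rw [← hρ, ← hr, ← hlg] at hfin
  have hend := err_arith (J := J) (g := g) (β := β) (D := D) (L := Real.log 2) (E₀ := E₀) (M := M)
    (Jp := J') (lam := lam) (R₁ := R₁) (R₂ := R₂) (g₁ := g₁) (g₂ := g₂) (τ := τ') (C := C) (ρ := ρ)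
    (s := r) (lg := lg) hJ0 hg0 hl2.le hl1 (Nat.cast_nonneg _) (Nat.cast_nonneg _) hτ'0.le hC
    (by rw [hρ]; exact (Real.exp_pos _).le) hM0 hgg₁ hgg₂ (by linarith) (by linarith) hR₁r' hR₂r'
    hR₁J hR₂J hMb hE hg172 hfin
  have e10 : (2 * D + 7) * β * J = (2 * D + 7) * (β * J) := by ring
  rw [e10] at hend
  have e11 : (2 * D + 9) * (β * J) = (2 * D + 7) * (β * J) + 2 * (β * J) := by ring
  rw [e11] at hRa
  linarith

end Pool.LBW
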