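import Pool.Agent.H63.LBW.Zlb

/-!
# The position of the second sample, given the implicit label of the first one
-/

set_option autoImplicit false

namespace Pool.LBW

open Finset Real
open Pool.Agent.H49.Ent Pool.Agent.H32.Dense Pool.STK Pool.KA Pool.KSAT Pool.K2S Pool.K3 Pool.PB
  Pool.KS6

open Classical in
/-- Entropy of integer vectors with different bounds on an event and outside of it. -/
theorem CH_gb {Ω T : Type} [Fintype Ω] {d : ℕ} {p : Ω → ℝ} (hp : IsLaw p) (X : Ω → Fin d → ℤ)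
    (W : Ω → T) (B : Ω → Prop) (L M ε : ℝ) (hL : 0 ≤ L) (hM : 0 ≤ M) (hε : Pe p B ≤ ε)
    (hX : ∀ ω ω', 0 < p ω → 0 < p ω' → W ω = W ω' → ¬ B ω →
      ∀ k, |((X ω k - X ω' k : ℤ) : ℝ)| ≤ L)
    (hXM : ∀ ω ω', 0 < p ω → 0 < p ω' → W ω = W ω' → B ω →
      ∀ k, |((X ω k - X ω' k : ℤ) : ℝ)| ≤ M) :
    CH p X W ≤ d * (Real.log (2 * L + 1) + ε * Real.log (2 * M + 1)) := by
  obtain ⟨N, hN⟩ : ∃ N : Ω → ℝ, N = fun ω => if B ω then M else L := ⟨_, rfl⟩
  have h4 : CH p X W ≤ d * Ex p (fun ω => Real.log (2 * N ω + 1)) := by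
    refine CH_le_vec hp.nonneg hp.sum_one X _ N ?_
    intro ω ω' hω hω' h k
    rw [hN]
    dsimp only
    by_cases h7 : B ω
    · rw [if_pos h7]
      exact hXM ω ω' hω hω' h h7 k
    · rw [if_neg h7]
      exact hX ω ω' hω hω' h h7 k
  have hlogM : 0 ≤ Real.log (2 * M + 1) := Real.log_nonneg (by linarith)
  have hlogL : 0 ≤ Real.log (2 * L + 1) := Real.log_nonneg (by linarith)
  have h5 : Ex p (fun ω => Real.log (2 * N ω + 1)) ≤
      Real.log (2 * L + 1) + ε * Real.log (2 * M + 1) := by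
    have h6 : Ex p (fun ω => Real.log (2 * N ω + 1)) ≤ Ex p (fun ω => Real.log (2 * L + 1) +
        Real.log (2 * M + 1) * (if B ω then 1 else 0)) := by
      refine Ex_mono hp.nonneg fun ω _ => ?_
      rw [hN]
      dsimp only
      by_cases h7 : B ω
      · rw [if_pos h7, if_pos h7]
        linarith
      · rw [if_neg h7, if_neg h7]
        linarith
    rw [Ex_add, Ex_const hp.sum_one, Ex_smul] at h6
    have h8 : Ex p (fun ω => if B ω then (1 : ℝ) else 0) = Pe p B := by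
      rw [Pe_eq]
      unfold Ex
      refine Finset.sum_congr rfl fun ω _ => ?_
      by_cases h9 : B ω
      · simp [h9]
      · simp [h9]
    rw [h8] at h6
    have h9 := mul_le_mul_of_nonneg_left hε hlogM
    linarith
  exact h4.trans (mul_le_mul_of_nonneg_left h5 (Nat.cast_nonneg d))

theorem floor_dist {a b M : ℝ} (h : |a - b| ≤ M) : |((⌊a⌋ - ⌊b⌋ : ℤ) : ℝ)| ≤ M + 1 :=
  Pool.KS6.floor_diff h

theorem pow_div_eq {a b : ℕ} (h : b ≤ a) : (2 : ℝ) ^ a / 2 ^ b = 2 ^ (a - b) := by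
  rw [div_eq_iff (by positivity), ← pow_add]
  congr 1
  omega

/-- Logarithm of a number of cells. -/
theorem log_cell {n : ℕ} {c x : ℝ} (hc : 1 ≤ c) (hx0 : 0 < x) (hx : x ≤ 2 ^ n * c) :
    Real.log x ≤ n * Real.log 2 + Real.log c := by
  have h1 := Real.log_le_log hx0 hx
  rw [Real.log_mul (by positivity) (by linarith), Real.log_pow] at h1
  exact h1

open Classical in
/-- **Upper bound**: the position of the second sample given the label of the first one. -/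
theorem upp (D : ℕ) : ∃ C : ℝ, 0 ≤ C ∧ ∀ {J : ℕ} {F : Fam 3 J} {Qt : ℕ} {i₀ i₁ : Fin 3}
    {w lam J' P : ℕ} {h : w + J' ≤ J} {g : F.Ω → Fin 3 → ℝ} {V : Type} {z : F.Ω → V}
    {R : V → MvPolynomial (Option (Fin 3)) ℝ} (_ : Zlb F Qt i₀ i₁ w lam J' D P h g z R)
    {w₀ p : ℕ} {ε : ℝ}, w₀ ≤ w → Qt = w + J' + lam → p + (w - w₀) ≤ J' →
    Pe (prs F w₀) (fun v => ¬ Good F i₀ i₁ w lam J' p h g z R v) ≤ ε →
    CH (prs F w₀) (fun v => F.X Qt v.2)
      (fun v => ((z v.1, F.blab w (Box.plkC lam i₀) g v.1), (F.T v.1, F.W v.2))) ≤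
      (4 * (J' : ℝ) + lam + 2 * ((w : ℝ) - w₀) - 2 * p) * Real.log 2 + C +
        4 * ε * ((Qt + 5) * Real.log 2) := by
  obtain ⟨C₁, cd, hC₁, hthin⟩ := thin D
  obtain ⟨C, hC⟩ : ∃ C : ℝ, C = Real.log (Fintype.card (Option (Kd D))) +
    2 * ((D + 10) * Real.log 2) + Real.log (2 * C₁ + 11) + 3 * Real.log (2 * C₁ + 19) := ⟨_, rfl⟩
  have hl2 : 0 ≤ Real.log 2 := Real.log_nonneg (by norm_num)
  have hcard : (1 : ℝ) ≤ Fintype.card (Option (Kd D)) := by
    have : 0 < Fintype.card (Option (Kd D)) := Fintype.card_pos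
    exact_mod_cast this
  have hC0 : 0 ≤ C := by
    have h1 : 0 ≤ Real.log (Fintype.card (Option (Kd D))) := Real.log_nonneg hcard
    have h2 : 0 ≤ Real.log (2 * C₁ + 11) := Real.log_nonneg (by linarith)
    have h3 : 0 ≤ Real.log (2 * C₁ + 19) := Real.log_nonneg (by linarith)
    rw [hC]
    positivity
  refine ⟨C, hC0, ?_⟩
  intro J F Qt i₀ i₁ w lam J' P h g V z R hz w₀ p ε hw₀ hQt hpJ hε
  obtain ⟨Q, hQ⟩ : ∃ Q, Q = prs F w₀ := ⟨_, rfl⟩
  rw [← hQ] at hε ⊢
  have hlaw : IsLaw Q := by rw [hQ]; exact prs_law F w₀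
  have h0 := hlaw.nonneg
  obtain ⟨Y, hY⟩ : ∃ Y, Y = w - w₀ := ⟨_, rfl⟩
  obtain ⟨Cd, hCd⟩ : ∃ Cd, Cd = Box.plkC (m := 3) lam i₀ := ⟨_, rfl⟩
  obtain ⟨Gd, hGd⟩ : ∃ Gd : F.Ω × F.Ω → Prop, Gd = Good F i₀ i₁ w lam J' p h g z R := ⟨_, rfl⟩
  obtain ⟨Xz, hXz⟩ : ∃ Xz : F.Ω × F.Ω → Fin 3 → ℝ, Xz = fun v j =>
    (F.zm w J' h (Box.plkC lam i₀) g).u v.1 j +
      sv F w v * (F.zm w J' h (Box.plkC lam i₀) g).d v.1 j := ⟨_, rfl⟩
  have hgood : ∀ v, Gd v → spc (sv F w v) i₁ (R (z v.1)) ≠ 0 ∧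
      sml (spc (sv F w v) i₁ (R (z v.1))) p (Xz v) := by
    intro v hv
    rw [hGd] at hv
    rw [hXz]
    exact hv
  obtain ⟨c, hc⟩ : ∃ c : F.Ω × F.Ω → Option (Kd D), c = fun v =>
    if Gd v then some (cd (spc (sv F w v) i₁ (R (z v.1))) p (Xz v)) else none := ⟨_, rfl⟩
  obtain ⟨E, hE⟩ : ∃ E : F.Ω × F.Ω → Fin 2 → ℤ, E = fun v => (c v).elim (fun _ => 0)
    (fun k r => ⌊(2 : ℝ) ^ (p + (D + 5)) * Xz v (k.1.succAbove r)⌋) := ⟨_, rfl⟩
  obtain ⟨ctx, hctx⟩ : ∃ ctx : F.Ω × F.Ω → (V × (((ℕ × (Fin 3 → ℝ)) × ((Fin 3 → ℤ) ×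
      (Fin 3 → ℤ))) × F.ζ)) × (ℕ × (ℕ × F.ζ)), ctx = fun v =>
    ((z v.1, F.blab w (Box.plkC lam i₀) g v.1), (F.T v.1, F.W v.2)) := ⟨_, rfl⟩
  obtain ⟨Xe, hXe⟩ : ∃ Xe : F.Ω × F.Ω → Fin 1 → ℤ, Xe = fun v _ => F.X Qt v.2 i₀ := ⟨_, rfl⟩
  rw [← hctx]
  have s1 := CH_le_add h0 (fun v : F.Ω × F.Ω => F.X Qt v.2) c ctx
  have s2 := CH_le_add h0 (fun v : F.Ω × F.Ω => F.X Qt v.2) E (fun v => (c v, ctx v))
  have s3 := CH_le_add h0 (fun v : F.Ω × F.Ω => F.X Qt v.2) Xe
    (fun v => (E v, (c v, ctx v)))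
  -- the context
  have hctx1 : ∀ v v', 0 < Q v → 0 < Q v' → ctx v = ctx v' → z v.1 = z v'.1 ∧
      g v.1 = g v'.1 ∧ F.bcl w Cd g v.1 = F.bcl w Cd g v'.1 ∧
      F.bvl Cd g v.1 = F.bvl Cd g v'.1 ∧ sv F w v = sv F w v' := by
    intro v v' _ _ e
    rw [hctx] at e
    simp only [Prod.mk.injEq, Fam.W] at e
    obtain ⟨⟨e1, e2⟩, e3, e4, e5⟩ := e
    have e6 := Prod.ext_iff.mp e2
    have e7 := Prod.ext_iff.mp e6.1
    have e8 : F.T1 w v.1 = F.T1 w v'.1 := (Prod.ext_iff.mp e7.1).1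
    have e9 : g v.1 = g v'.1 := (Prod.ext_iff.mp e7.1).2
    have e10 : F.bcl w (Box.plkC lam i₀) g v.1 = F.bcl w (Box.plkC lam i₀) g v'.1 :=
      (Prod.ext_iff.mp e7.2).1
    have e11 : F.bvl (Box.plkC lam i₀) g v.1 = F.bvl (Box.plkC lam i₀) g v'.1 :=
      (Prod.ext_iff.mp e7.2).2
    refine ⟨e1, e9, by rw [hCd]; exact e10, by rw [hCd]; exact e11, ?_⟩
    unfold sv Fam.t
    rw [e8, e4]
  have hsv : ∀ v, 0 < Q v → |sv F w v| ≤ 2 ^ Y := by
    intro v hv
    rw [hQ] at hv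
    rw [hY]
    exact sv_le F hw₀ (by omega) (prs_pos hv).2.2.2.2.2
  have pY : (1 : ℝ) ≤ 2 ^ Y := one_le_pow₀ (by norm_num)
  have pp : (0 : ℝ) < 2 ^ p := by positivity
  have pw : (0 : ℝ) < 2 ^ w := by positivity
  have pl : (0 : ℝ) < 2 ^ lam := by positivity
  have hXzb : ∀ v, 0 < Q v → ∀ j, |Xz v j| ≤ 2 ^ (Y + 1) := by
    intro v hv j
    have h2 := zm_abs_u F h (Box.plkC lam i₀) g v.1 j
    have h3 := zm_abs_d F h (Box.plkC lam i₀) g v.1 j
    rw [hXz]
    dsimp only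
    refine (abs_add_le _ _).trans ?_
    rw [abs_mul, pow_succ]
    have h4 : |sv F w v| * |(F.zm w J' h (Box.plkC lam i₀) g).d v.1 j| ≤ 2 ^ Y * 1 :=
      mul_le_mul (hsv v hv) h3 (abs_nonneg _) (by positivity)
    linarith
  -- closeness in the coordinates of the box
  obtain ⟨Bd, hBd⟩ : ∃ Bd : F.Ω × F.Ω → ℝ, Bd = fun v => if Gd v then (C₁ + 4) / 2 ^ p
    else 2 ^ (Y + 3) := ⟨_, rfl⟩
  have hyv : ∀ v v', 0 < Q v → 0 < Q v' → (E v, (c v, ctx v)) = (E v', (c v', ctx v')) → ∀ j,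
      |yv F (w := w) Cd g v j - yv F (w := w) Cd g v' j| ≤ Bd v := by
    intro v v' hv hv' e j
    obtain ⟨e1, e2, e3⟩ : E v = E v' ∧ c v = c v' ∧ ctx v = ctx v' := by
      simp only [Prod.mk.injEq] at e
      exact e
    obtain ⟨f1, f2, f3, f4, f5⟩ := hctx1 v v' hv hv' e3
    have hv1 := hv
    have hv1' := hv'
    rw [hQ] at hv1 hv1'
    obtain ⟨a1, a2, a3, a4, a5, a6⟩ := prs_pos hv1
    obtain ⟨b1, b2, b3, b4, b5, b6⟩ := prs_pos hv1'
    rw [hBd]
    dsimp only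
    by_cases hG : Gd v
    · rw [if_pos hG]
      have hG' : Gd v' := by
        by_contra hcon
        rw [hc] at e2
        dsimp only at e2
        rw [if_pos hG, if_neg hcon] at e2
        exact Option.some_ne_none _ e2
      have e4 : cd (spc (sv F w v) i₁ (R (z v.1))) p (Xz v) =
          cd (spc (sv F w v) i₁ (R (z v.1))) p (Xz v') := by
        rw [hc] at e2
        dsimp only at e2
        rw [if_pos hG, if_pos hG', ← f5, ← f1] at e2
        exact Option.some_injective _ e2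
      obtain ⟨k, hk⟩ : ∃ k, k = cd (spc (sv F w v) i₁ (R (z v.1))) p (Xz v) := ⟨_, rfl⟩
      have hcv : c v = some k := by
        rw [hc, hk]
        dsimp only
        rw [if_pos hG]
      have hcv' : c v' = some k := by rw [← e2, hcv]
      obtain ⟨g1, g2⟩ := hgood v hG
      obtain ⟨g3, g4⟩ := hgood v' hG'
      rw [← f5, ← f1] at g4
      have hcell : ∀ j, j ≠ k.1 → ⌊(2 : ℝ) ^ (p + (D + 5)) * Xz v j⌋ =
          ⌊(2 : ℝ) ^ (p + (D + 5)) * Xz v' j⌋ := by
        intro j hj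
        obtain ⟨r, hr⟩ := Fin.exists_succAbove_eq hj
        rw [hE] at e1
        dsimp only at e1
        rw [hcv, hcv'] at e1
        have := congrFun e1 r
        simp only [Option.elim_some] at this
        rw [hr] at this
        exact this
      have hXX : ∀ j, |Xz v j - Xz v' j| ≤ C₁ / 2 ^ p := by
        intro j
        by_cases hj : j = k.1
        · have := hthin _ (totalDegree_spc (sv F w v) i₁ (hz.deg (z v.1))) g1 p (Xz v)
            (Xz v') g2 g4 e4 (by rw [← hk]; exact hcell)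
          rw [← hk] at this
          rw [hj]
          exact this
        · have h5 := Pool.KS6.floor_close (hcell j hj)
          refine h5.trans ?_
          refine div_le_div₀ (by linarith) hC₁ pp ?_
          exact pow_le_pow_right₀ (by norm_num) (by omega)
      have h6 := yv_near F h (Box.plkC lam i₀) g a3 a4 j
      have h7 := yv_near F h (Box.plkC lam i₀) g b3 b4 j
      have h8 : ∀ v, 0 < Q v → (1 + |sv F w v|) / 2 ^ J' ≤ 2 / 2 ^ p := by
        intro v hv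
        rw [div_le_div_iff₀ (by positivity) pp]
        have h9 := hsv v hv
        have h10 : (2 : ℝ) ^ Y * 2 ^ p ≤ 2 ^ J' := by
          rw [← pow_add]
          exact pow_le_pow_right₀ (by norm_num) (by omega)
        have h11 : (1 + |sv F w v|) * 2 ^ p ≤ (2 ^ Y + 2 ^ Y) * 2 ^ p :=
          mul_le_mul_of_nonneg_right (by linarith) pp.le
        calc (1 + |sv F w v|) * 2 ^ p ≤ (2 ^ Y + 2 ^ Y) * 2 ^ p := h11
          _ = 2 * (2 ^ Y * 2 ^ p) := by ring
          _ ≤ 2 * 2 ^ J' := by linarith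
      have h9 := h6.trans (h8 v hv)
      have h10 := h7.trans (h8 v' hv')
      have h11 := hXX j
      rw [hXz] at h11
      dsimp only at h11
      rw [← hCd] at h9 h10 h11
      have e5 : (C₁ + 4) / 2 ^ p = C₁ / 2 ^ p + 2 / 2 ^ p + 2 / 2 ^ p := by ring
      rw [e5]
      rw [abs_le] at h9 h10 h11 ⊢
      constructor <;> linarith [h9.1, h9.2, h10.1, h10.2, h11.1, h11.2]
    · rw [if_neg hG]
      have h6 := yv_le F h Cd g a3 a4 j
      have h7 := yv_le F h Cd g b3 b4 j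
      have h8 := hsv v hv
      have h9 := hsv v' hv'
      have e5 : (2 : ℝ) ^ (Y + 3) = 8 * 2 ^ Y := by
        rw [pow_add]
        ring
      rw [e5]
      exact (abs_sub _ _).trans (by linarith)
  -- the coordinates
  have hyd : ∀ v v', 0 < Q v → 0 < Q v' → ctx v = ctx v' → ∀ j,
      yv F (w := w) Cd g v j - yv F (w := w) Cd g v' j =
        2 ^ w * (Cd.L (g v.1) (F.x v.2) j - Cd.L (g v.1) (F.x v'.2) j) := by
    intro v v' hv hv' e j
    obtain ⟨f1, f2, f3, f4, f5⟩ := hctx1 v v' hv hv' e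
    unfold yv
    rw [f3, f4, f5, f2]
    ring
  have hCe : ∀ (k : Fin 3 → ℝ) (x : Fin 3 → ℝ), Cd.L k x i₀ = x i₀ := by
    intro k x
    rw [hCd]
    change pco lam i₀ k x i₀ = x i₀
    unfold pco
    rw [if_pos rfl]
  have hCo : ∀ (k : Fin 3 → ℝ) (x : Fin 3 → ℝ) (j : Fin 3), j ≠ i₀ →
      Cd.L k x j = 2 ^ lam * (x j - k j * x i₀) := by
    intro k x j hj
    rw [hCd]
    change pco lam i₀ k x j = _
    unfold pco
    rw [if_neg hj]
  have hBd0 : ∀ v, 0 ≤ Bd v := by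
    intro v
    rw [hBd]
    dsimp only
    split_ifs
    · exact div_nonneg (by linarith) pp.le
    · positivity
  have hQw : (2 : ℝ) ^ Qt = 2 ^ w * 2 ^ (J' + lam) := by
    rw [← pow_add, hQt]
    congr 1
    omega
  have hxe : ∀ v v', 0 < Q v → 0 < Q v' → (E v, (c v, ctx v)) = (E v', (c v', ctx v')) →
      |((F.X Qt v.2 i₀ - F.X Qt v'.2 i₀ : ℤ) : ℝ)| ≤ 2 ^ (J' + lam) * Bd v + 1 := by
    intro v v' hv hv' e
    have e3 : ctx v = ctx v' := by
      simp only [Prod.mk.injEq] at e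
      exact e.2.2
    have h1 := hyv v v' hv hv' e i₀
    rw [hyd v v' hv hv' e3 i₀, hCe, hCe, abs_mul, abs_of_pos pw] at h1
    change |((⌊(2 : ℝ) ^ Qt * F.x v.2 i₀⌋ - ⌊(2 : ℝ) ^ Qt * F.x v'.2 i₀⌋ : ℤ) : ℝ)| ≤ _
    refine floor_dist ?_
    rw [← mul_sub, abs_mul, abs_of_pos (by positivity), hQw]
    calc (2 : ℝ) ^ w * 2 ^ (J' + lam) * |F.x v.2 i₀ - F.x v'.2 i₀| =
        2 ^ (J' + lam) * (2 ^ w * |F.x v.2 i₀ - F.x v'.2 i₀|) := by ring
      _ ≤ _ := mul_le_mul_of_nonneg_left h1 (by positivity)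
  have hxo : ∀ v v', 0 < Q v → 0 < Q v' →
      (Xe v, (E v, (c v, ctx v))) = (Xe v', (E v', (c v', ctx v'))) → ∀ j,
      |((F.X Qt v.2 j - F.X Qt v'.2 j : ℤ) : ℝ)| ≤ 2 ^ J' * Bd v + 5 := by
    intro v v' hv hv' e j
    have e0 : Xe v = Xe v' := (Prod.ext_iff.mp e).1
    have e1 : (E v, (c v, ctx v)) = (E v', (c v', ctx v')) := (Prod.ext_iff.mp e).2
    have e3 : ctx v = ctx v' := by
      simp only [Prod.mk.injEq] at e1
      exact e1.2.2
    have e4 : F.X Qt v.2 i₀ = F.X Qt v'.2 i₀ := by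
      rw [hXe] at e0
      exact congrFun e0 0
    have hJB : 0 ≤ 2 ^ J' * Bd v := mul_nonneg (by positivity) (hBd0 v)
    by_cases hj : j = i₀
    · rw [hj, e4, sub_self]
      simp only [Int.cast_zero, abs_zero]
      linarith
    · have h1 := hyv v v' hv hv' e1 j
      rw [hyd v v' hv hv' e3 j, hCo _ _ _ hj, hCo _ _ _ hj, abs_mul, abs_of_pos pw] at h1
      have hv1 := hv
      rw [hQ] at hv1
      have h2 := hz.bd v.1 (prs_pos hv1).1 j
      have e5 : ⌊(2 : ℝ) ^ Qt * F.x v.2 i₀⌋ = ⌊(2 : ℝ) ^ Qt * F.x v'.2 i₀⌋ := e4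
      have h3 := Pool.KS6.floor_close e5
      change |((⌊(2 : ℝ) ^ Qt * F.x v.2 j⌋ - ⌊(2 : ℝ) ^ Qt * F.x v'.2 j⌋ : ℤ) : ℝ)| ≤ _
      have e6 : (2 : ℝ) ^ J' * Bd v + 5 = (2 ^ J' * Bd v + 4) + 1 := by ring
      rw [e6]
      refine floor_dist ?_
      have pQ : (0 : ℝ) < 2 ^ Qt := by positivity
      rw [← mul_sub, abs_mul, abs_of_pos pQ]
      obtain ⟨a, ha⟩ : ∃ a, a = F.x v.2 j - F.x v'.2 j := ⟨_, rfl⟩
      obtain ⟨b, hb⟩ : ∃ b, b = F.x v.2 i₀ - F.x v'.2 i₀ := ⟨_, rfl⟩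
      have e7 : 2 ^ lam * (F.x v.2 j - g v.1 j * F.x v.2 i₀) -
          2 ^ lam * (F.x v'.2 j - g v.1 j * F.x v'.2 i₀) = 2 ^ lam * (a - g v.1 j * b) := by
        rw [ha, hb]
        ring
      rw [e7, abs_mul, abs_of_pos pl] at h1
      rw [← hb] at h3
      rw [← ha]
      have h4 : |a| ≤ |a - g v.1 j * b| + |g v.1 j * b| := by
        have := abs_add_le (a - g v.1 j * b) (g v.1 j * b)
        rwa [sub_add_cancel] at this
      have h5 : |g v.1 j * b| ≤ 4 * (1 / 2 ^ Qt) := by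
        rw [abs_mul]
        exact mul_le_mul h2 h3 (abs_nonneg _) (by norm_num)
      have h6 : (2 : ℝ) ^ Qt * |a - g v.1 j * b| ≤ 2 ^ J' * Bd v := by
        have e8 : (2 : ℝ) ^ Qt * |a - g v.1 j * b| =
            2 ^ J' * (2 ^ w * (2 ^ lam * |a - g v.1 j * b|)) := by
          rw [hQw, pow_add]
          ring
        rw [e8]
        exact mul_le_mul_of_nonneg_left h1 (by positivity)
      have h7 : (2 : ℝ) ^ Qt * |g v.1 j * b| ≤ 4 := by
        calc (2 : ℝ) ^ Qt * |g v.1 j * b| ≤ 2 ^ Qt * (4 * (1 / 2 ^ Qt)) :=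
              mul_le_mul_of_nonneg_left h5 pQ.le
          _ = 4 := by field_simp
      calc (2 : ℝ) ^ Qt * |a| ≤ 2 ^ Qt * (|a - g v.1 j * b| + |g v.1 j * b|) :=
            mul_le_mul_of_nonneg_left h4 pQ.le
        _ = 2 ^ Qt * |a - g v.1 j * b| + 2 ^ Qt * |g v.1 j * b| := by ring
        _ ≤ _ := add_le_add h6 h7
  -- the entropies
  have t1 : CH Q c ctx ≤ Real.log (Fintype.card (Option (Kd D))) := by
    refine (CH_le_card h0 hlaw.sum_one c ctx (fun _ => Finset.univ)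
      (fun _ _ => Finset.mem_univ _)).trans ?_
    rw [Ex_const hlaw.sum_one, Finset.card_univ]
  have t2 : CH Q E (fun v => (c v, ctx v)) ≤ 2 * ((p + Y + (D + 10)) * Real.log 2) := by
    have h1 := CH_gb hlaw E (fun v => (c v, ctx v)) (fun _ => False) (2 ^ (p + Y + D + 7) + 1) 0 0
      (by positivity) le_rfl (by
        rw [Pe_eq]
        simp) ?_ (fun _ _ _ _ _ hf => hf.elim)
    · rw [mul_zero, zero_add, Real.log_one, mul_zero, add_zero] at h1
      refine h1.trans ?_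
      have h2 := log_cell (n := p + Y + D + 10) (c := 1) (x := 2 * (2 ^ (p + Y + D + 7) + 1) + 1)
        le_rfl (by positivity) (by
          have e1 : (2 : ℝ) ^ (p + Y + D + 10) = 2 ^ (p + Y + D + 7) * 8 := by
            rw [show p + Y + D + 10 = (p + Y + D + 7) + 3 by omega, pow_add]
            norm_num
          have e2 : (1 : ℝ) ≤ 2 ^ (p + Y + D + 7) := one_le_pow₀ (by norm_num)
          rw [e1]
          linarith)
      rw [Real.log_one, add_zero] at h2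
      push_cast at h2 ⊢
      have e3 : ((p : ℝ) + Y + (D + 10)) = (p + Y + D + 10) := by ring
      rw [e3]
      linarith
    · intro v v' hv hv' e _ r
      have e2 : c v = c v' := (Prod.ext_iff.mp e).1
      rw [hE]
      dsimp only
      rw [← e2]
      rcases hcv : c v with _ | k
      · simp only [Option.elim_none, sub_self, Int.cast_zero, abs_zero]
        positivity
      · simp only [Option.elim_some]
        refine floor_dist ?_
        rw [← mul_sub, abs_mul, abs_of_pos (by positivity)]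
        have h2 := hXzb v hv (k.1.succAbove r)
        have h3 := hXzb v' hv' (k.1.succAbove r)
        have e4 : (2 : ℝ) ^ (p + Y + D + 7) = 2 ^ (p + (D + 5)) * (2 ^ (Y + 1) + 2 ^ (Y + 1)) := by
          rw [← two_mul, ← pow_succ', ← pow_add]
          congr 1
          omega
        rw [e4]
        exact mul_le_mul_of_nonneg_left ((abs_sub _ _).trans (add_le_add h2 h3)) (by positivity)
  have pQ1 : (1 : ℝ) ≤ 2 ^ Qt := one_le_pow₀ (by norm_num)
  have hYw : Y ≤ w := by omega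
  have hε0 : 0 ≤ ε := (Pe_nonneg hlaw _).trans hε
  have hlogb : Real.log (2 * (2 ^ (Qt + 3) + 5) + 1) ≤ (Qt + 5) * Real.log 2 := by
    have h2 := log_cell (n := Qt + 5) (c := 1) (x := 2 * (2 ^ (Qt + 3) + 5) + 1)
      le_rfl (by positivity) (by
        have e1 : (2 : ℝ) ^ (Qt + 5) = 2 ^ Qt * 32 := by rw [pow_add]; norm_num
        have e2 : (2 : ℝ) ^ (Qt + 3) = 2 ^ Qt * 8 := by rw [pow_add]; norm_num
        rw [e1, e2]
        linarith)
    rw [Real.log_one, add_zero] at h2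
    push_cast at h2
    exact h2
  have t3 : CH Q Xe (fun v => (E v, (c v, ctx v))) ≤ (J' + lam - p) * Real.log 2 +
      Real.log (2 * C₁ + 11) + ε * ((Qt + 5) * Real.log 2) := by
    have h1 := CH_gb hlaw Xe (fun v => (E v, (c v, ctx v))) (fun v => ¬ Gd v)
      (2 ^ (J' + lam) * ((C₁ + 4) / 2 ^ p) + 1) (2 ^ (Qt + 3) + 5) ε
      (by positivity) (by positivity) (by rw [hGd]; exact hε) (by
        intro v v' hv hv' e hB r
        push Not at hB
        have h2 := hxe v v' hv hv' e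
        rw [hBd] at h2
        dsimp only at h2
        rw [if_pos hB] at h2
        rw [hXe]
        exact h2) (by
        intro v v' hv hv' e hB r
        have h2 := hxe v v' hv hv' e
        rw [hBd] at h2
        dsimp only at h2
        rw [if_neg hB] at h2
        rw [hXe]
        refine h2.trans ?_
        have e1 : (2 : ℝ) ^ (J' + lam) * 2 ^ (Y + 3) ≤ 2 ^ (Qt + 3) := by
          rw [← pow_add]
          exact pow_le_pow_right₀ (by norm_num) (by omega)
        linarith)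
    rw [Nat.cast_one, one_mul] at h1
    refine h1.trans (add_le_add ?_ (mul_le_mul_of_nonneg_left hlogb hε0))
    have e1 : (2 : ℝ) ^ (J' + lam) * ((C₁ + 4) / 2 ^ p) = (C₁ + 4) * 2 ^ (J' + lam - p) := by
      rw [← pow_div_eq (show p ≤ J' + lam by omega)]
      ring
    have h2 := log_cell (n := J' + lam - p) (c := 2 * C₁ + 11)
      (x := 2 * (2 ^ (J' + lam) * ((C₁ + 4) / 2 ^ p) + 1) + 1) (by linarith) (by positivity) (by
        rw [e1]
        have e2 : (1 : ℝ) ≤ 2 ^ (J' + lam - p) := one_le_pow₀ (by norm_num)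
        nlinarith)
    have e3 : ((J' + lam - p : ℕ) : ℝ) = J' + lam - p := by
      rw [Nat.cast_sub (by omega)]
      push_cast
      ring
    rw [e3] at h2
    exact h2
  have t4 : CH Q (fun v => F.X Qt v.2) (fun v => (Xe v, (E v, (c v, ctx v)))) ≤
      3 * ((J' - p) * Real.log 2 + Real.log (2 * C₁ + 19) + ε * ((Qt + 5) * Real.log 2)) := by
    have h1 := CH_gb hlaw (fun v : F.Ω × F.Ω => F.X Qt v.2)
      (fun v => (Xe v, (E v, (c v, ctx v)))) (fun v => ¬ Gd v)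
      (2 ^ J' * ((C₁ + 4) / 2 ^ p) + 5) (2 ^ (Qt + 3) + 5) ε
      (by positivity) (by positivity) (by rw [hGd]; exact hε) (by
        intro v v' hv hv' e hB r
        push Not at hB
        have h2 := hxo v v' hv hv' e r
        rw [hBd] at h2
        dsimp only at h2
        rw [if_pos hB] at h2
        exact h2) (by
        intro v v' hv hv' e hB r
        have h2 := hxo v v' hv hv' e r
        rw [hBd] at h2
        dsimp only at h2
        rw [if_neg hB] at h2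
        refine h2.trans ?_
        have e1 : (2 : ℝ) ^ J' * 2 ^ (Y + 3) ≤ 2 ^ (Qt + 3) := by
          rw [← pow_add]
          exact pow_le_pow_right₀ (by norm_num) (by omega)
        linarith)
    refine h1.trans ?_
    have e0 : ((3 : ℕ) : ℝ) = 3 := by norm_num
    rw [e0]
    refine mul_le_mul_of_nonneg_left (add_le_add ?_ (mul_le_mul_of_nonneg_left hlogb hε0))
      (by norm_num)
    have e1 : (2 : ℝ) ^ J' * ((C₁ + 4) / 2 ^ p) = (C₁ + 4) * 2 ^ (J' - p) := by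
      rw [← pow_div_eq (show p ≤ J' by omega)]
      ring
    have h2 := log_cell (n := J' - p) (c := 2 * C₁ + 19)
      (x := 2 * (2 ^ J' * ((C₁ + 4) / 2 ^ p) + 5) + 1) (by linarith) (by positivity) (by
        rw [e1]
        have e2 : (1 : ℝ) ≤ 2 ^ (J' - p) := one_le_pow₀ (by norm_num)
        nlinarith)
    have e3 : ((J' - p : ℕ) : ℝ) = J' - p := by
      rw [Nat.cast_sub (by omega)]
    rw [e3] at h2
    exact h2
  have hYr : (Y : ℝ) = w - w₀ := by
    rw [hY, Nat.cast_sub hw₀]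
  rw [hYr] at t2
  have hs := s1.trans (add_le_add t1 (s2.trans (add_le_add t2 (s3.trans (add_le_add t3 t4)))))
  refine hs.trans (le_of_eq ?_)
  rw [hC]
  ring

end Pool.LBW
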