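import Pool.Agent.H18.PB.Full
import Pool.Agent.H63.LBW.Upp

/-!
# Fullness given a label, and the exchange of two samples
-/

set_option autoImplicit false

namespace Pool.LBW

open Finset Real
open Pool.Agent.H49.Ent Pool.Agent.H32.Dense Pool.STK Pool.KA Pool.KSAT Pool.K2S Pool.K3 Pool.PB
  Pool.KA.TRC

variable {m J : ℕ}

open Rows in
open Classical in
/-- **Fullness given a label.** -/
theorem full_gen (m k : ℕ) : ∃ C : ℝ, 0 ≤ C ∧ ∀ (J : ℕ) (F : Fam m J) (κ Λ U : Type)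
    (z : F.Ω → κ) (L : F.Ω → Λ) (pt : F.Ω → U) (w g h R Qt : ℕ) (e ρ : ℝ),
    w + (R + 1) * g ≤ Qt → Qt ≤ J → F.Tm e → Det F.p (slam F w) z →
    Det F.p L z → (∀ r < R, Det F.p L (F.c (w + r * g))) →
    Det F.p pt (fun ω => (F.X Qt ω, F.T ω)) → 2 ≤ h → (h + 3) * (k + 1) + h ≤ g →
    NonConc F.p F.d (fun ω => (pt ω, L ω))
      (fun D (s : (Fin m → ℝ) × (Fin k → Fin m → ℝ)) =>
        ∃ c : Fin k → ℝ, ∀ j, |D j - s.1 j - ∑ i, c i * s.2 i j| ≤ 4 / 2 ^ h) ρ →
    R * ((k + 1) * (g * Real.log 2)) - 4 * ((k + 2) * m) * (g * Real.log 2) -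
      R * ((k + 3) * e + (k + 2) ^ 2 * (g * Real.log 2) * ρ + C) - C ≤
      CH F.p (F.X Qt) (fun ω => (z ω, F.W ω)) := by
  obtain ⟨C₀, hC₀, hful⟩ := Pool.KSAT.fulp m k
  have hcc : 0 ≤ cc m := by
    unfold cc
    exact mul_nonneg (by positivity) (Real.log_nonneg (by norm_num))
  refine ⟨C₀ + (2 * k + 8) * cc m, by positivity, ?_⟩
  intro J F κ Λ U z L pt w g h R Qt e ρ hJ hQJ hT hzs hLz hLc hpt hh hg hnc
  have hp := F.isLaw.nonneg
  have hleQ : ∀ r < R, w + r * g + 2 * g ≤ Qt := by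
    intro r hr
    have h1 : (r + 2) * g ≤ (R + 1) * g := Nat.mul_le_mul_right g (by omega)
    have h2 : (r + 2) * g = r * g + 2 * g := by ring
    omega
  have hle : ∀ r < R, w + r * g + 2 * g ≤ J := fun r hr => (hleQ r hr).trans hQJ
  have hslam : ∀ v : ℕ, w ≤ v → v ≤ J → ∀ ω ω' : F.Ω, slam F v ω = slam F v ω' →
      slam F w ω = slam F w ω' ∧ F.c v ω = F.c v ω' := by
    intro v hwv hv ω ω' hs
    constructor
    · rw [slam_coarse F hwv hv ω, slam_coarse F hwv hv ω', hs]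
    · simp only [slam, Prod.mk.injEq, Fam.l] at hs
      obtain ⟨⟨e1, e2⟩, e3, e4⟩ := hs
      have : F.x1 v ω = F.x1 v ω' := by
        funext j
        unfold Fam.x1
        rw [e1, e2, e4]
      unfold Fam.c
      rw [this, e3, e4]
  have key := hful J F (fun _ => κ × ((ℕ × (Fin m → ℤ)) × F.ζ))
    (fun _ => (Fin m → ℤ) × ℕ) (fun r ω => (z ω, F.c (w + r * g) ω))
    (fun r ω => (F.X (w + r * g + 2 * g) ω, F.T1 (w + r * g + 2 * g) ω)) w g h R e ρ
    (2 * cc m) (hJ.trans hQJ) hT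
    (by
      intro r hr ω ω' p1 p2 hs
      have h1 := hslam (w + r * g) (by omega) (by have := hle r hr; omega) ω ω' hs
      exact Prod.ext (hzs ω ω' p1 p2 h1.1) h1.2)
    (by
      intro r hr ω ω' _ _ hs
      have h1 := Prod.ext_iff.mp hs
      exact ⟨h1.2, h1.1⟩)
    hh hg
    (by
      intro r hr ω hω v B
      have hdet : Det F.p (fun ω => (pt ω, L ω)) (fun ω => ((z ω, F.c (w + r * g) ω),
          (F.X (w + r * g + 2 * g) ω, F.T1 (w + r * g + 2 * g) ω))) := by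
        intro ω ω' p1 p2 hs
        have h1 := Prod.ext_iff.mp hs
        have h2 := Prod.ext_iff.mp (hpt ω ω' p1 p2 h1.1)
        have h3 : F.T ω = F.T ω' := h2.2
        refine Prod.ext (Prod.ext (hLz ω ω' p1 p2 h1.2) (hLc r hr ω ω' p1 p2 h1.2))
          (Prod.ext (Pool.STK.B58.fl_fine (hleQ r hr) h2.1) ?_)
        change F.T1 (w + r * g + 2 * g) ω = F.T1 (w + r * g + 2 * g) ω'
        unfold Fam.T1
        rw [h3]
      exact (hnc.coarse F.isLaw hdet).cond_le F.isLaw hω (v, B))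
    (by
      intro r hr
      have e0 : w + (r + 2) * g = w + r * g + 2 * g := by ring
      have hl := hle r hr
      have a1 := CH_subadd hp (F.c (w + r * g)) (F.X (w + r * g + 2 * g))
        (fun ω => (z ω, F.c (w + (r + 2) * g) ω))
      have a2 : CH F.p (F.c (w + r * g)) (fun ω => (z ω, F.c (w + (r + 2) * g) ω)) ≤
          cc m := by
        refine le_trans (CH_mono_cond hp (W := F.c (w + (r + 2) * g)) ?_) ?_
        · intro ω ω' _ _ hs
          exact (Prod.ext_iff.mp hs).2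
        · rw [e0]
          exact CH_c_c F (by omega) hl
      have a3 := CH_X_c F hl (fun ω => (z ω, F.c (w + (r + 2) * g) ω)) (by
        intro ω ω' _ _ hs
        rw [← e0]
        exact (Prod.ext_iff.mp hs).2)
      have a4 : CH F.p (fun ω => ((z ω, F.c (w + r * g) ω),
          (F.X (w + r * g + 2 * g) ω, F.T1 (w + r * g + 2 * g) ω)))
          (fun ω => (z ω, F.c (w + (r + 2) * g) ω)) ≤
          CH F.p (fun ω => (F.c (w + r * g) ω, F.X (w + r * g + 2 * g) ω))
          (fun ω => (z ω, F.c (w + (r + 2) * g) ω)) := by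
        refine CH_mono_left hp fun ω ω' _ _ hs => ?_
        have c1 := Prod.ext_iff.mp hs
        have c2 := Prod.ext_iff.mp c1.1
        have c3 := Prod.ext_iff.mp c1.2
        have c4 : F.T1 (w + (r + 2) * g) ω = F.T1 (w + (r + 2) * g) ω' :=
          (Prod.ext_iff.mp (Prod.ext_iff.mp c3.2).1).1
        rw [e0] at c4
        exact Prod.ext (Prod.ext c3.1 c2.1) (Prod.ext c2.2 c4)
      linarith)
  -- the information on the direction
  have hD : ∀ r : ℕ, CH F.p (F.D (2 * g)) (fun ω => (z ω, F.c (w + r * g) ω)) ≤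
      m * (2 * (g * Real.log 2)) + cc m := by
    intro r
    have h1 := CH_D_le F (2 * g) (fun ω => (z ω, F.c (w + r * g) ω))
    push_cast at h1
    linarith
  have hD0 := hD 0
  have hD1 := hD 1
  -- the rows
  have hrow : ∀ r ∈ range R, CH F.p (F.X (w + r * g + 2 * g))
      (fun ω => (F.T1 (w + r * g + 2 * g) ω, F.X (w + r * g + g) ω, (z ω, F.c (w + r * g) ω))) ≤
      CH F.p (F.X (w + r * g + 2 * g)) (fun ω => (F.X (w + r * g + g) ω, (z ω, F.W ω))) +
        (e + 4 * cc m) := by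
    intro r hr
    rw [Finset.mem_range] at hr
    have hl := hle r hr
    refine row_full F (by omega) hl hT z (fun ω => (z ω, F.c (w + r * g) ω)) ?_ ?_
    · intro ω ω' p1 p2 hs
      simp only [Prod.mk.injEq] at hs
      obtain ⟨e1, e2, e3⟩ := hs
      have e4 : slam F (w + r * g + 2 * g) ω = slam F (w + r * g + 2 * g) ω' := by
        unfold slam
        rw [e1, e2, e3]
      have h1 := hslam (w + r * g + 2 * g) (by omega) hl ω ω' e4
      have e5 : slam F (w + r * g) ω = slam F (w + r * g) ω' := by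
        rw [slam_coarse F (show w + r * g ≤ w + r * g + 2 * g by omega) hl ω,
          slam_coarse F (show w + r * g ≤ w + r * g + 2 * g by omega) hl ω', e4]
      have h2 := hslam (w + r * g) (by omega) (by omega) ω ω' e5
      exact Prod.ext (hzs ω ω' p1 p2 h1.1) h2.2
    · intro ω ω' _ _ hs
      have h1 := Prod.ext_iff.mp hs
      exact Prod.ext h1.1 (Prod.ext_iff.mp h1.2).2
  have hsum := Finset.sum_le_sum hrow
  rw [Finset.sum_add_distrib, rows_lab F (fun ω => (z ω, F.W ω)) w g R, Finset.sum_const,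
    Finset.card_range, nsmul_eq_mul] at hsum
  -- the last row
  have hlast : CH F.p (F.X (w + (R + 1) * g)) (fun ω => (F.X (w + g) ω, (z ω, F.W ω))) ≤
      CH F.p (F.X Qt) (fun ω => (z ω, F.W ω)) := by
    refine le_trans (CH_mono_cond hp ?_) (CH_mono_left hp ?_)
    · intro ω ω' _ _ hs
      exact (Prod.ext_iff.mp hs).2
    · intro ω ω' _ _ hs
      exact Pool.STK.B58.fl_fine hJ (Prod.ext_iff.mp hs).1
  rw [Finset.sum_sub_distrib, Finset.sum_const, Finset.card_range, nsmul_eq_mul] at key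
  obtain ⟨S, hS⟩ : ∃ S, S = ∑ r ∈ range R, CH F.p (F.X (w + r * g + 2 * g))
      (fun ω => (F.T1 (w + r * g + 2 * g) ω, F.X (w + r * g + g) ω, (z ω, F.c (w + r * g) ω))) :=
    ⟨_, rfl⟩
  rw [← hS] at hsum key
  obtain ⟨D0, hD0'⟩ : ∃ D0, D0 = CH F.p (F.D (2 * g)) (fun ω => (z ω, F.c (w + 0 * g) ω)) :=
    ⟨_, rfl⟩
  obtain ⟨D1, hD1'⟩ : ∃ D1, D1 = CH F.p (F.D (2 * g)) (fun ω => (z ω, F.c (w + 1 * g) ω)) :=
    ⟨_, rfl⟩
  rw [← hD0'] at key hD0
  rw [← hD1'] at key hD1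
  obtain ⟨c, hc⟩ : ∃ c, c = cc m := ⟨_, rfl⟩
  rw [← hc] at key hD0 hD1 hsum hcc ⊢
  have hk : (0 : ℝ) ≤ k := Nat.cast_nonneg k
  have hR : (0 : ℝ) ≤ R := Nat.cast_nonneg R
  have f1 : ((k : ℝ) + 2) * (D0 + D1) ≤ (k + 2) * (2 * (m * (2 * (g * Real.log 2)) + c)) :=
    mul_le_mul_of_nonneg_left (by linarith) (by linarith)
  have f2 : (R : ℝ) * C₀ + R * ((2 * k + 8) * c) = R * (C₀ + (2 * k + 8) * c) := by ring
  have f3 : (0 : ℝ) ≤ (2 * k + 8) * c := by positivity
  have f4 : (0 : ℝ) ≤ k * c := by positivity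
  nlinarith [key, f1, hsum, hlast, hC₀, f3, f4]

end Pool.LBW
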