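import Pool.Agent.H63.LBW.Fam
import Pool.Agent.H42.S6C.Row

/-!
# Lemma B at the window of constant directions
-/

set_option autoImplicit false

namespace Pool.LBW

open Finset Real
open Pool.Agent.H49.Ent Pool.Agent.H32.Dense Pool.STK Pool.KA Pool.KSAT Pool.K2S Pool.K3 Pool.PB
  Pool.KS6 Pool.S6C

theorem qPi_her (i₀ : Fin 3) (Q s c : ℝ) (J : ℕ) (F : Fam 3 J) :
    Hered (capS c (qPi i₀ Q) s J F) := by
  rintro A B hB (h | ⟨h1, h2⟩)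
  · exact Or.inl h
  · exact Or.inr ⟨h1, LineU.hered _ _ _ _ A B hB h2⟩

theorem qRot_her (i₀ : Fin 3) (Q w s c : ℝ) (J : ℕ) (F : Fam 3 J) :
    Hered (capS c (qRot i₀ Q w) s J F) := by
  rintro A B hB (h | ⟨h1, h2⟩)
  · exact Or.inl h
  · exact Or.inr ⟨h1, RotU.hered _ _ _ _ _ _ A B hB h2⟩

/-- **Lemma B with an implicit label.** -/
theorem lbw_thm : LBWStmt := by
  intro D' S a R h₁ i₀ c s₂ r D σ hCs Q hQ0 hQ1 hQD hPlr
  have hR := hCs.R0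
  have ha := hCs.a1
  have hD'0 : (0 : ℝ) ≤ D' := Nat.cast_nonneg _
  obtain ⟨C, hC⟩ : ∃ C, C = 1 + a / R * (2 * ((D' : ℝ) + 1) + 9) := ⟨_, rfl⟩
  have hC0 : 0 < C := by rw [hC]; positivity
  refine ⟨C, hC0, ?_⟩
  intro e v he hv0 hv1 hrv hvQ hCI y hy hyv
  by_contra hcon
  push Not at hcon
  have hrow := hCs.row Q (by linarith) hQ1 hQD
  have hS := hCs.ne
  have hvy0 : (0 : ℚ) ≤ v - y := by linarith
  have hvy1 : v - y ≤ (1 : ℚ) := by linarith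
  have hrotN := hrow.rot (v - y) hvy0 hvy1
  have hrot0 : 0 ≤ (σ Q).rot (v - y) := by
    by_contra hneg
    push Not at hneg
    refine Clp.not_false hS (Clp.mono (J₂ := 0) (hrotN.2 (-(σ Q).rot (v - y)) (by linarith)) ?_)
    intro J _ F A h1
    refine h1 (Or.inl ?_)
    linarith
  obtain ⟨p, hp⟩ : ∃ p, p = (σ Q).pi := ⟨_, rfl⟩
  obtain ⟨ρ, hρ⟩ : ∃ ρ, ρ = (σ Q).rot (v - y) := ⟨_, rfl⟩
  have hpiN := hrow.pi
  rw [← hp] at hcon hvQ hCI hpiN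
  rw [← hρ] at hcon hrot0 hrotN
  have hv0r : (0 : ℝ) < v := by exact_mod_cast hv0
  have hyr : (0 : ℝ) < y := by exact_mod_cast hy
  have hyvr : (y : ℝ) < v := by exact_mod_cast hyv
  have hCye : 0 < C * (y + e) := by positivity
  have hsC : C * (y + e) < p := by linarith
  obtain ⟨z₀, hz₀, hCI⟩ := hCI
  obtain ⟨g, hg⟩ : ∃ g, g = min (e / 200) (8 * z₀) := ⟨_, rfl⟩
  have hg0 : 0 < g := by rw [hg]; exact lt_min (by positivity) (by positivity)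
  have hge : 200 * g ≤ e := by
    have : g ≤ e / 200 := by rw [hg]; exact min_le_left _ _
    linarith
  have hgz : g / 8 ≤ z₀ := by
    have : g ≤ 8 * z₀ := by rw [hg]; exact min_le_right _ _
    linarith
  obtain ⟨c₁, hc₁, J₁, hn₁⟩ := Clp.neg_base (qPi_her i₀ Q _ 1) (hpiN.2 (g / 8)
    (by positivity))
  obtain ⟨c₂, hc₂, J₂, hn₂⟩ := Clp.neg_base (qRot_her i₀ Q _ _ 1)
    (hrotN.2 (p - C * (y + e) - ρ) (by linarith))
  obtain ⟨ψ, hψ⟩ : ∃ ψ, ψ = min c₁ c₂ / 2 := ⟨_, rfl⟩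
  have hmin0 : 0 < min c₁ c₂ := lt_min hc₁ hc₂
  have hψ0 : 0 < ψ := by rw [hψ]; linarith
  have hψ1 : 2 * ψ ≤ c₁ := by rw [hψ]; linarith [min_le_left c₁ c₂]
  have hψ2 : 2 * ψ ≤ c₂ := by rw [hψ]; linarith [min_le_right c₁ c₂]
  obtain ⟨t, ht, J₀, hone⟩ := one ha hR hCs.ub hCs.h₁0 i₀ D' (Q := Q) (v := v) (y := y) (s := p)
    (e := e) (g := g) (ψ := ψ) he hyr hyvr hg0 hge hQ1 hvQ hψ0 (by rw [← hC]; exact hsC)
  rw [← hC] at hone
  obtain ⟨δ, hδ⟩ : ∃ δ, δ = min t ψ / 2 := ⟨_, rfl⟩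
  have hδ0 : 0 < δ := by rw [hδ]; exact half_pos (lt_min ht hψ0)
  have hδ1 : 2 * δ ≤ t := by rw [hδ]; linarith [min_le_left t ψ]
  have hδ2 : 2 * δ ≤ ψ := by rw [hδ]; linarith [min_le_right t ψ]
  obtain ⟨J, hJ, F, A, hA, B, hBA, hPB, hCIQ⟩ := (hCI (g / 8) δ (by positivity) hgz
    hδ0).real hS hδ0 (J₀ + J₁ + J₂)
  have hvJ : ⌊v * (J : ℚ)⌋₊ = ⌊(v : ℝ) * J⌋₊ := by
    have h1 : (((v * (J : ℚ) : ℚ)) : ℝ) = (v : ℝ) * J := by push_cast; ring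
    rw [← h1, ← Int.floor_toNat, ← Int.floor_toNat, Rat.floor_cast]
  rw [hvJ] at hCIQ
  have hB : S.St (δ + δ) J F B := S.res hδ0.le hA hBA hPB
  have hsub : ∀ B' : F.Ω → Prop, Sub B' B → Real.exp (-(ψ * J)) * Pe F.p B ≤ Pe F.p B' →
      S.St (δ + δ + ψ) J F B' := fun B' h1 h2 => S.res hψ0.le hB h1 h2
  refine hone J (by omega) F B (Fam.Stt.mono (by linarith) (hCs.st _ J F B hB))
    (hCs.lb _ J F B hB) ?_ ?_ hCIQ
  · intro B' h1 h2 h3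
    refine hn₁ J (by omega) F B' (S.mono (by linarith) (hsub B' h1 h2)) (Or.inr ⟨?_, h3⟩)
    linarith
  · intro B' h1 h2 h3
    refine hn₂ J (by omega) F B' (S.mono (by linarith) (hsub B' h1 h2)) (Or.inr ⟨?_, ?_⟩)
    · linarith
    · have e1 : ρ + (p - C * (y + e) - ρ) = p - C * (y + e) := by ring
      have e2 : ((v - y : ℚ) : ℝ) = v - y := by push_cast; ring
      rw [e1, e2]
      exact h3

end Pool.LBW
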