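import Pool.Agent.H63.LBW.Spr

/-!
# The direction, given the label of the first sample and the position of the second one
-/

set_option autoImplicit false

namespace Pool.LBW

open Finset Real
open Pool.Agent.H49.Ent Pool.Agent.H32.Dense Pool.STK Pool.KA Pool.KSAT Pool.K2S Pool.K3 Pool.PB
  Pool.KS6

/-- Functions of a variable. -/
theorem det_fn {Ω S T : Type} [Fintype Ω] [Nonempty S] {p : Ω → ℝ} {X : Ω → T} {Y : Ω → S}
    (h : Det p X Y) : ∃ φ : T → S, ∀ ω, 0 < p ω → Y ω = φ (X ω) := by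
  classical
  obtain ⟨y₀⟩ := ‹Nonempty S›
  refine ⟨fun t => if h : ∃ ω, 0 < p ω ∧ X ω = t then Y h.choose else y₀, fun ω hω => ?_⟩
  have h1 : ∃ ω', 0 < p ω' ∧ X ω' = X ω := ⟨ω, hω, rfl⟩
  dsimp only
  rw [dif_pos h1]
  exact h ω h1.choose hω h1.choose_spec.1 h1.choose_spec.2.symm

theorem Pe_eq_pos {Ω : Type} [Fintype Ω] {p : Ω → ℝ} (hp : ∀ ω, 0 ≤ p ω) {A B : Ω → Prop}
    (h : ∀ ω, 0 < p ω → (A ω ↔ B ω)) : Pe p A = Pe p B := by
  classical
  rw [Pe_eq, Pe_eq]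
  refine Finset.sum_congr rfl fun ω _ => ?_
  rcases (hp ω).eq_or_lt with h0 | h0
  · rw [← h0]
    simp
  · have h1 := h ω h0
    by_cases h2 : A ω
    · rw [if_pos h2, if_pos (h1.1 h2)]
    · rw [if_neg h2, if_neg (fun h3 => h2 (h1.2 h3))]

/-- Two vectors close to the lines of directions `e` and `e'`, which differ. -/
theorem cross4 {m : ℕ} {Δ e e' : Fin m → ℝ} {Δ₀ r ρ : ℝ} (hρ : 0 < ρ)
    (h1 : ∀ j, |Δ j - e j * Δ₀| ≤ r) (h2 : ∀ j, |Δ j - e' j * Δ₀| ≤ r)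
    (he : ∃ j, ρ < |e j - e' j|) (hb : ∀ j, |e' j| ≤ 4) (hρ1 : ρ ≤ 1) (j : Fin m) :
    |Δ j| ≤ 9 * r / ρ := by
  obtain ⟨j₀, hj₀⟩ := he
  have hr : 0 ≤ r := (abs_nonneg _).trans (h1 j)
  have a1 : |e j₀ - e' j₀| * |Δ₀| ≤ 2 * r := by
    rw [← abs_mul]
    have e1 : (e j₀ - e' j₀) * Δ₀ = (Δ j₀ - e' j₀ * Δ₀) - (Δ j₀ - e j₀ * Δ₀) := by ring
    rw [e1]
    refine (abs_sub _ _).trans ?_
    linarith [h1 j₀, h2 j₀]
  have a2 : |Δ₀| ≤ 2 * r / ρ := by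
    rw [le_div_iff₀ hρ]
    have : |Δ₀| * ρ ≤ |Δ₀| * |e j₀ - e' j₀| := mul_le_mul_of_nonneg_left hj₀.le (abs_nonneg _)
    linarith
  have a3 : |e' j * Δ₀| ≤ 4 * (2 * r / ρ) := by
    rw [abs_mul]
    exact mul_le_mul (hb j) a2 (abs_nonneg _) (by norm_num)
  have a4 : r ≤ r / ρ := by
    rw [le_div_iff₀ hρ]
    nlinarith
  have e1 : Δ j = (Δ j - e' j * Δ₀) + e' j * Δ₀ := by ring
  rw [e1]
  refine (abs_add_le _ _).trans ?_
  have e2 : 9 * r / ρ = r / ρ + 4 * (2 * r / ρ) := by ring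
  rw [e2]
  linarith [h2 j]

section Frames

variable {J : ℕ} (F : Fam 3 J) (i₀ : Fin 3) (lam : ℕ) (g : F.Ω → Fin 3 → ℝ)

/-- The slopes of the frame. -/
def fe (ω : F.Ω) (j : Fin 3) : ℝ := if j = i₀ then 1 else g ω j

/-- The offsets of the frame. -/
noncomputable def fo (ω : F.Ω) (j : Fin 3) : ℝ :=
  if j = i₀ then 0 else (F.bvl (Box.plkC lam i₀) g ω j : ℝ) / 2 ^ lam

theorem fe_line (ω : F.Ω) (j : Fin 3) :
    |F.d ω j - fe F i₀ g ω j * F.d ω i₀ - fo F i₀ lam g ω j| ≤ 1 / 2 ^ lam := by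
  unfold fe fo
  by_cases hj : j = i₀
  · rw [if_pos hj, if_pos hj, hj]
    have : F.d ω i₀ - 1 * F.d ω i₀ - 0 = 0 := by ring
    rw [this, abs_zero]
    positivity
  · rw [if_neg hj, if_neg hj]
    have p0 : (0 : ℝ) < 2 ^ lam := by positivity
    have h1 := Box.bvl_eq F 0 (Box.plkC lam i₀) g ω j
    have h2 := Box.d_mem F 0 (Box.plkC lam i₀) g ω j
    have h3 : (Box.plkC lam i₀).L (g ω) (F.d ω) j = 2 ^ lam * (F.d ω j - g ω j * F.d ω i₀) := by
      change pco lam i₀ (g ω) (F.d ω) j = _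
      unfold pco
      rw [if_neg hj]
    rw [h3] at h1
    rw [le_div_iff₀ p0, ← abs_of_pos p0, ← abs_mul, abs_of_pos p0]
    have e1 : (F.d ω j - g ω j * F.d ω i₀ - (F.bvl (Box.plkC lam i₀) g ω j : ℝ) / 2 ^ lam) *
        2 ^ lam = 2 ^ lam * (F.d ω j - g ω j * F.d ω i₀) - F.bvl (Box.plkC lam i₀) g ω j := by
      field_simp
    rw [e1, h1, abs_le]
    constructor <;> linarith [h2.1, h2.2]

end Frames

open Classical in
/-- **Lemma B, implicit labels.** If the directions of the frames are not known from the window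
`w₀` up to `2 ^ (-l)`, then the direction is known, up to `lam - l` lost digits, from the label of
the first sample and from the position of the second one. -/
theorem lemB {J : ℕ} (F : Fam 3 J) {A : F.Ω → Prop} (hA : 0 < Pe F.p A)
    (hpos : ∀ ω, A ω → 0 < F.p ω) {Qt : ℕ} {i₀ i₁ : Fin 3} {w lam J' D P : ℕ}
    {h : w + J' ≤ J} {g : F.Ω → Fin 3 → ℝ} {V : Type} {z : F.Ω → V}
    {R : V → MvPolynomial (Option (Fin 3)) ℝ}
    (hlaw : IsLaw (Pool.Agent.H49.Ent.cond F.p A True))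
    (hz : Zlb (F.res A True hlaw) Qt i₀ i₁ w lam J' D P h g z R) {κ : ℝ} {l q w₀ : ℕ}
    (hs : Stb F.p κ A (RotU i₀ (1 / 2 ^ l) (1 / 2 ^ l) (ptq F Qt) (slam F w₀) F.d))
    (hn : ¬ RotU i₀ (1 / 2 ^ l) (1 / 2 ^ l) (ptq F Qt) (slam F w₀) F.d A)
    (hlq : l + q = lam) :
    CH (prs (F.res A True hlaw) w₀) (fun v => F.D q v.2)
      (fun v => ((z v.1, F.blab w (Box.plkC lam i₀) g v.1), (F.T v.1, (F.X Qt v.2, F.W v.2)))) ≤
      Real.log 2 + 3 * (Real.log (2 * 19 + 1) +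
        Real.exp (-κ) * Real.log (2 * (2 * 2 ^ q + 1) + 1)) := by
  have hp := F.isLaw
  obtain ⟨G, hG⟩ : ∃ G, G = F.res A True hlaw := ⟨_, rfl⟩
  have hA' : ∀ ω, 0 < (F.res A True hlaw).p ω → A ω := fun ω hω => by
    have := ((cond_pos_iff hp.nonneg A True ω).1 hω).2
    simpa using this
  have hA'' : ∀ ω, A ω → 0 < (F.res A True hlaw).p ω := fun ω hω =>
    (cond_pos_iff hp.nonneg A True ω).2 ⟨hpos ω hω, by simp [hω]⟩
  -- frames as functions of the point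
  have hdet : Det (F.res A True hlaw).p (ptq F Qt)
      (fun ω => (fe F i₀ g ω, fo F i₀ lam g ω)) := by
    intro ω ω' a b e1
    have h1 := Prod.ext_iff.mp (hz.vis ω ω' a b e1)
    have h2 : Fam.pt (F.zm w J' h (Box.plkC lam i₀) g) ω =
      Fam.pt (F.zm w J' h (Box.plkC lam i₀) g) ω' := h1.2
    have h3 := Prod.ext_iff.mp h2
    have h4 : F.blab w (Box.plkC lam i₀) g ω = F.blab w (Box.plkC lam i₀) g ω' :=
      (Prod.ext_iff.mp h3.2).2
    have h5 := Prod.ext_iff.mp (Prod.ext_iff.mp h4).1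
    have h6 : g ω = g ω' := (Prod.ext_iff.mp h5.1).2
    have h7 : F.bvl (Box.plkC lam i₀) g ω = F.bvl (Box.plkC lam i₀) g ω' :=
      (Prod.ext_iff.mp h5.2).2
    refine Prod.ext ?_ ?_
    · funext j
      change fe F i₀ g ω j = fe F i₀ g ω' j
      unfold fe
      rw [h6]
    · funext j
      change fo F i₀ lam g ω j = fo F i₀ lam g ω' j
      unfold fo
      rw [h7]
  obtain ⟨φ, hφ⟩ := det_fn hdet
  have hle : (1 : ℝ) / 2 ^ lam ≤ 1 / 2 ^ l := inv_mono (by omega)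
  have hon : OnL i₀ (1 / 2 ^ l) (ptq F Qt) F.d A (fun u => (φ u).1) (fun u => (φ u).2) := by
    intro ω hω j
    have h1 := fe_line F i₀ lam g ω j
    have h2 := Prod.ext_iff.mp (hφ ω (hA'' ω hω))
    have h3 : fe F i₀ g ω = (φ (ptq F Qt ω)).1 := h2.1
    have h4 : fo F i₀ lam g ω = (φ (ptq F Qt ω)).2 := h2.2
    rw [h3, h4] at h1
    exact h1.trans hle
  -- the event of bad pairs
  obtain ⟨B, hB⟩ : ∃ B : F.Ω × F.Ω → Prop, B = fun v =>
    ∀ j, |fe F i₀ g v.1 j - fe F i₀ g v.2 j| ≤ 1 / 2 ^ l := ⟨_, rfl⟩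
  have hPe : Pe (prs (F.res A True hlaw) w₀) B ≤ Real.exp (-κ) := by
    have h1 : Pe (prs (F.res A True hlaw) w₀) (fun v => ∀ j, |(φ (ptq F Qt v.1)).1 j -
        (φ (ptq F Qt v.2)).1 j| ≤ 1 / 2 ^ l) < Real.exp (-κ) :=
      hs.rotU_cpy_lt hp hA hn hon (wn' := slam F w₀) (φ := id) (fun _ => rfl)
    refine le_trans (le_of_eq (Pe_eq_pos (prs_law (F.res A True hlaw) w₀).nonneg ?_)) h1.le
    intro v hv
    obtain ⟨a1, a2, -, -, -, -⟩ := prs_pos hv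
    have h2 : fe F i₀ g v.1 = (φ (ptq F Qt v.1)).1 := (Prod.ext_iff.mp (hφ _ a1)).1
    have h3 : fe F i₀ g v.2 = (φ (ptq F Qt v.2)).1 := (Prod.ext_iff.mp (hφ _ a2)).1
    rw [hB]
    dsimp only
    rw [h2, h3]
  have h2q : (0 : ℝ) < 2 ^ q := by positivity
  have hfin := CH_le_good (prs_law (F.res A True hlaw) w₀) (fun v : F.Ω × F.Ω => F.D q v.2)
    (fun v => ((z v.1, F.blab w (Box.plkC lam i₀) g v.1), (F.T v.1, (F.X Qt v.2, F.W v.2))))
    B 19 (2 * 2 ^ q + 1) (Real.exp (-κ)) (by norm_num) (by positivity) hPe ?_ ?_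
  · have e3 : ((3 : ℕ) : ℝ) = 3 := by norm_num
    rw [e3] at hfin
    exact hfin
  · intro v v' hv hv' hW hBv hBv' k
    obtain ⟨a1, a2, a3, a4, a5, a6⟩ := prs_pos hv
    obtain ⟨b1, b2, b3, b4, b5, b6⟩ := prs_pos hv'
    have g1 := Prod.ext_iff.mp hW
    have g2 := Prod.ext_iff.mp g1.1
    have g3 : F.blab w (Box.plkC lam i₀) g v.1 = F.blab w (Box.plkC lam i₀) g v'.1 := g2.2
    have g4 : ptq F Qt v.2 = ptq F Qt v'.2 := (Prod.ext_iff.mp g1.2).2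
    have g5 := Prod.ext_iff.mp (Prod.ext_iff.mp g3).1
    have g6 : g v.1 = g v'.1 := (Prod.ext_iff.mp g5.1).2
    have g7 : F.bvl (Box.plkC lam i₀) g v.1 = F.bvl (Box.plkC lam i₀) g v'.1 :=
      (Prod.ext_iff.mp g5.2).2
    have g8 : fe F i₀ g v.1 = fe F i₀ g v'.1 := by
      funext j
      unfold fe
      rw [g6]
    have g9 : fo F i₀ lam g v.1 = fo F i₀ lam g v'.1 := by
      funext j
      unfold fo
      rw [g7]
    have g10 := Prod.ext_iff.mp (hdet v.2 v'.2 a2 b2 g4)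
    have g11 : fe F i₀ g v.2 = fe F i₀ g v'.2 := g10.1
    have g12 : fo F i₀ lam g v.2 = fo F i₀ lam g v'.2 := g10.2
    rw [hB] at hBv
    push Not at hBv
    have a4' : F.d v.1 = F.d v.2 := a4
    have b4' : F.d v'.1 = F.d v'.2 := b4
    have hpl : (0 : ℝ) < 1 / 2 ^ l := by positivity
    have key := cross4 (m := 3) (Δ := fun j => F.d v.2 j - F.d v'.2 j)
      (e := fe F i₀ g v.1) (e' := fe F i₀ g v.2) (Δ₀ := F.d v.2 i₀ - F.d v'.2 i₀)
      (r := 2 * (1 / 2 ^ lam)) (ρ := 1 / 2 ^ l) hpl ?_ ?_ hBv ?_ ?_ k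
    · have e1 : 9 * (2 * (1 / 2 ^ lam)) / (1 / 2 ^ l) = (18 : ℝ) / 2 ^ q := by
        rw [← hlq, pow_add]
        field_simp
        norm_num
      rw [e1, le_div_iff₀ h2q] at key
      have f5 : |(2 : ℝ) ^ q * F.d v.2 k - 2 ^ q * F.d v'.2 k| ≤ 18 := by
        rw [← mul_sub, abs_mul, abs_of_pos h2q, mul_comm]
        exact key
      have f6 := floor_dist f5
      change |((⌊(2 : ℝ) ^ q * F.d v.2 k⌋ - ⌊(2 : ℝ) ^ q * F.d v'.2 k⌋ : ℤ) : ℝ)| ≤ 19
      linarith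
    · intro j
      have d1 := fe_line F i₀ lam g v.1 j
      have d2 := fe_line F i₀ lam g v'.1 j
      rw [a4'] at d1
      rw [b4', ← g8, ← g9] at d2
      have e1 : (F.d v.2 j - F.d v'.2 j) - fe F i₀ g v.1 j * (F.d v.2 i₀ - F.d v'.2 i₀) =
          (F.d v.2 j - fe F i₀ g v.1 j * F.d v.2 i₀ - fo F i₀ lam g v.1 j) -
          (F.d v'.2 j - fe F i₀ g v.1 j * F.d v'.2 i₀ - fo F i₀ lam g v.1 j) := by ring
      rw [e1]
      refine (abs_sub _ _).trans ?_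
      linarith
    · intro j
      have d1 := fe_line F i₀ lam g v.2 j
      have d2 := fe_line F i₀ lam g v'.2 j
      rw [← g11, ← g12] at d2
      have e1 : (F.d v.2 j - F.d v'.2 j) - fe F i₀ g v.2 j * (F.d v.2 i₀ - F.d v'.2 i₀) =
          (F.d v.2 j - fe F i₀ g v.2 j * F.d v.2 i₀ - fo F i₀ lam g v.2 j) -
          (F.d v'.2 j - fe F i₀ g v.2 j * F.d v'.2 i₀ - fo F i₀ lam g v.2 j) := by ring
      rw [e1]
      refine (abs_sub _ _).trans ?_
      linarith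
    · intro j
      unfold fe
      split_ifs
      · norm_num
      · exact hz.bd v.2 a2 j
    · rw [div_le_one (by positivity)]
      exact one_le_pow₀ (by norm_num)
  · intro v v' hv hv' hW k
    have h1 := F.dir v.2 k
    have h2 := F.dir v'.2 k
    have f5 : |(2 : ℝ) ^ q * F.d v.2 k - 2 ^ q * F.d v'.2 k| ≤ 2 * 2 ^ q := by
      rw [← mul_sub, abs_mul, abs_of_pos h2q]
      have : |F.d v.2 k - F.d v'.2 k| ≤ 2 := (abs_sub _ _).trans (by linarith)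
      nlinarith
    exact floor_dist f5

end Pool.LBW
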