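import Pool.Agent.H63.LBW.Zof

/-!
# Lemma B at the window of constant directions, for one family
-/

set_option autoImplicit false

namespace Pool.LBW

open Finset Real
open Pool.Agent.H49.Ent Pool.Agent.H32.Dense Pool.STK Pool.KA Pool.KSAT Pool.K2S Pool.K3 Pool.PB
  Pool.KS6 Pool.S6C
open Pool.S6K (ball_claim exp_small)

/-- The floor of a nonnegative product. -/
theorem fl_le {r : ℝ} {J : ℕ} (h : 0 ≤ r * J) : ((⌊r * J⌋₊ : ℕ) : ℝ) ≤ r * J :=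
  Nat.floor_le h

/-- The fans of the zoom and of the family are spread at the points of precision `Qt`. -/
theorem one_spread {a R h₁ : ℝ} (ha : 1 < a) (hR : 0 < R) (hU : UBa 3 a R) (hh₁ : 0 < h₁)
    (i₀ : Fin 3) {Q v s g ψ : ℝ} (hg : 0 < g) (hQ1 : Q ≤ 1) (hψ : 0 < ψ) (hsg : g < s)
    (hv : 0 < v) (hvQ : v + s + g ≤ Q) :
    ∃ t > 0, ∃ ψ₁ > 0, ψ₁ ≤ ψ / 2 ∧ ∃ J₀ : ℕ, ∀ J ≥ J₀, ∀ (F : Fam 3 J) (A : F.Ω → Prop),
      Fam.Stt F a R t A → Lb F i₀ ⌊h₁ * J⌋₊ A →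
      (∀ B : F.Ω → Prop, Sub B A → Real.exp (-(ψ * J)) * Pe F.p A ≤ Pe F.p B →
        ¬ LineU i₀ (1 / 2 ^ ⌊(s + g / 8) * J⌋₊) (ptq F ⌊Q * J⌋₊) F.d B) →
      ∀ (w J' : ℕ) (h : w + J' ≤ J) (z : F.Ω → Fin 3 → ℝ), w = ⌊v * J⌋₊ →
      J' = ⌊Q * J⌋₊ - ⌊v * J⌋₊ - ⌊(s - g / 8) * J⌋₊ →
      (∃ γ : (Fin 3 → ℤ) × (ℕ × F.ζ) → Fin 3 → ℝ, ∀ ω, A ω → z ω = γ (ptq F ⌊Q * J⌋₊ ω)) →
      (∃ φ : (Fin 3 → ℤ) × (ℕ × F.ζ) → Fin 3 → ℤ, ∀ ω, A ω →
        F.bvl (Box.plkC ⌊(s - g / 8) * J⌋₊ i₀) z ω = φ (ptq F ⌊Q * J⌋₊ ω)) →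
      ∀ B : F.Ω → Prop, Sub B A → Real.exp (-(ψ₁ * J)) * Pe F.p A ≤ Pe F.p B →
        ¬ PlU 1 (1 / 2 ^ ⌊g * J⌋₊) (ptq F ⌊Q * J⌋₊)
          (F.zm w J' h (Box.plkC ⌊(s - g / 8) * J⌋₊ i₀) z).d B ∧
        ¬ PlU 0 (1 / 2 ^ ⌊g * J⌋₊) (ptq F ⌊Q * J⌋₊) F.d B := by
  obtain ⟨τs, hτs, Js, hspr⟩ := spr_zm ha.le hR hU hh₁ i₀ (show 0 < g / 2 by linarith)
  obtain ⟨τb, hτb, Jb, hball⟩ := ball_claim (m := 3) ha.le hR hU (show 0 < g / 2 by linarith)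
  obtain ⟨ψ₁, hψ₁⟩ : ∃ ψ₁, ψ₁ = min (ψ / 2) (min τs (τb / 2)) := ⟨_, rfl⟩
  have a1 : ψ₁ ≤ ψ / 2 := by rw [hψ₁]; exact min_le_left _ _
  have a2 : ψ₁ ≤ τs := by rw [hψ₁]; exact (min_le_right _ _).trans (min_le_left _ _)
  have a3 : ψ₁ ≤ τb / 2 := by rw [hψ₁]; exact (min_le_right _ _).trans (min_le_right _ _)
  have a0 : 0 < ψ₁ := by
    rw [hψ₁]
    exact lt_min (by linarith) (lt_min hτs (by linarith))
  obtain ⟨t, ht⟩ : ∃ t, t = min τs (τb / 2) := ⟨_, rfl⟩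
  have t0 : 0 < t := by rw [ht]; exact lt_min hτs (by linarith)
  have t1 : t ≤ τs := by rw [ht]; exact min_le_left _ _
  have t2 : t ≤ τb / 2 := by rw [ht]; exact min_le_right _ _
  obtain ⟨Je, hJe⟩ := exp_small (show (0 : ℝ) < ψ / 2 by linarith) (show (1 : ℝ) ≤ 2 by norm_num)
  obtain ⟨Jx, hJx⟩ := exists_nat_gt (32 / g)
  refine ⟨t, t0, ψ₁, a0, a1, Js + Jb + Je + Jx, ?_⟩
  intro J hJ F A hS hL hlin w J' h z hw hJ' hγ hφ B hBA hPB
  have hJx' : 32 / g < J := hJx.trans_le (by exact_mod_cast (by omega : Jx ≤ J))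
  have hJr : (0 : ℝ) < J := lt_trans (by positivity) hJx'
  have hgJ : 32 < g * J := by
    rw [div_lt_iff₀ hg] at hJx'
    linarith
  have hp := F.isLaw
  have hA0 : 0 < Pe F.p A := lt_of_lt_of_le (Real.exp_pos _) hS.2.2.2
  have hB0 : 0 < Pe F.p B := lt_of_lt_of_le (mul_pos (Real.exp_pos _) hA0) hPB
  -- the numbers
  obtain ⟨q, hq⟩ : ∃ q, q = ⌊g * J⌋₊ := ⟨_, rfl⟩
  have q1 : (q : ℝ) ≤ g * J := by rw [hq]; exact Nat.floor_le (by positivity)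
  have q2 : g * J < q + 1 := by rw [hq]; exact Nat.lt_floor_add_one _
  obtain ⟨lam, hlam⟩ : ∃ lam, lam = ⌊(s - g / 8) * J⌋₊ := ⟨_, rfl⟩
  have hsgJ : 0 ≤ (s - g / 8) * J := mul_nonneg (by linarith) hJr.le
  have l1 : (lam : ℝ) ≤ (s - g / 8) * J := by rw [hlam]; exact Nat.floor_le hsgJ
  have l2 : (s - g / 8) * J < lam + 1 := by rw [hlam]; exact Nat.lt_floor_add_one _
  obtain ⟨Qt, hQt⟩ : ∃ Qt, Qt = ⌊Q * J⌋₊ := ⟨_, rfl⟩
  have hQ0 : 0 ≤ Q * J := mul_nonneg (by linarith) hJr.le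
  have Q1 : (Qt : ℝ) ≤ Q * J := by rw [hQt]; exact Nat.floor_le hQ0
  have Q2 : Q * J < Qt + 1 := by rw [hQt]; exact Nat.lt_floor_add_one _
  have w1 : (w : ℝ) ≤ v * J := by rw [hw]; exact Nat.floor_le (by positivity)
  have hQJ : Qt ≤ J := by
    have : (Qt : ℝ) ≤ J := by
      refine Q1.trans ?_
      calc Q * J ≤ 1 * J := mul_le_mul_of_nonneg_right hQ1 hJr.le
        _ = J := one_mul _
    exact_mod_cast this
  have hvQJ : (v + s + g) * J ≤ Q * J := mul_le_mul_of_nonneg_right hvQ hJr.le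
  have hsum : w + lam + q ≤ Qt := by
    have : ((w + lam + q : ℕ) : ℝ) < Qt + 1 := by
      push_cast
      have e1 : (v + s + g) * J = v * J + (s - g / 8) * J + g * J + g / 8 * J := by ring
      have : 0 ≤ g / 8 * J := by positivity
      linarith
    have : w + lam + q < Qt + 1 := by exact_mod_cast this
    omega
  have hqJ' : q ≤ J' := by
    rw [hJ', ← hQt, ← hw, ← hlam]
    omega
  rw [← hlam] at hφ ⊢
  rw [← hQt] at hlin hγ hφ ⊢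
  rw [← hq]
  constructor
  · intro hP
    obtain ⟨B', hB', hPB', hline⟩ := hspr J (by omega) F A (Fam.Stt.mono t1 hS) hL Qt w lam J' z h
      hQJ hγ hφ B hBA (by
        refine le_trans (mul_le_mul_of_nonneg_right (Real.exp_le_exp.2 ?_) hA0.le) hPB
        have := mul_le_mul_of_nonneg_right a2 hJr.le
        linarith) q (by linarith) hqJ' hP
    refine hlin B' (fun ω hω => hBA ω (hB' ω hω)) ?_ (hline.mono ?_)
    · have h2 := hJe J (by omega)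
      rw [le_div_iff₀ (by norm_num : (0 : ℝ) < 2)] at h2
      have e1 : Real.exp (-(ψ * J)) = Real.exp (-(ψ / 2 * J)) * Real.exp (-(ψ / 2 * J)) := by
        rw [← Real.exp_add]
        congr 1
        ring
      have e2 : Real.exp (-(ψ / 2 * J)) * Pe F.p A ≤ Pe F.p B := by
        refine le_trans (mul_le_mul_of_nonneg_right (Real.exp_le_exp.2 ?_) hA0.le) hPB
        have := mul_le_mul_of_nonneg_right a1 hJr.le
        linarith
      rw [e1, mul_assoc]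
      calc Real.exp (-(ψ / 2 * J)) * (Real.exp (-(ψ / 2 * J)) * Pe F.p A) ≤
            Real.exp (-(ψ / 2 * J)) * (2 * Pe F.p B') :=
            mul_le_mul_of_nonneg_left (e2.trans hPB') (Real.exp_pos _).le
        _ = (Real.exp (-(ψ / 2 * J)) * 2) * Pe F.p B' := by ring
        _ ≤ 1 * Pe F.p B' := mul_le_mul_of_nonneg_right h2 (Pe_nonneg hp B')
        _ = _ := one_mul _
    · have hle : ⌊(s + g / 8) * J⌋₊ + 2 ≤ lam + q / 2 := by
        have h3 : (⌊(s + g / 8) * (J : ℝ)⌋₊ : ℝ) ≤ (s + g / 8) * J :=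
          Nat.floor_le (mul_nonneg (by linarith) hJr.le)
        have h4 : q ≤ 2 * (q / 2) + 1 := by omega
        have h5 : (q : ℝ) ≤ 2 * ((q / 2 : ℕ) : ℝ) + 1 := by exact_mod_cast h4
        have h6 : ((⌊(s + g / 8) * (J : ℝ)⌋₊ + 2 : ℕ) : ℝ) ≤ ((lam + q / 2 : ℕ) : ℝ) := by
          push_cast
          have e1 : (s + g / 8) * J = (s - g / 8) * J + g * J / 4 := by ring
          linarith
        exact_mod_cast h6
      have e1 : (4 : ℝ) / 2 ^ (lam + q / 2) ≤ 4 / 2 ^ (⌊(s + g / 8) * (J : ℝ)⌋₊ + 2) :=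
        div_le_div_of_nonneg_left (by norm_num) (by positivity)
          (pow_le_pow_right₀ (by norm_num) hle)
      refine e1.trans (le_of_eq ?_)
      rw [pow_add]
      field_simp
      norm_num
  · rintro ⟨ζ, hζ⟩
    refine hball J (by omega) F B ?_ q (by omega) (by linarith) ?_
    · have h4 := Fam.Stt.mono (by linarith : t ≤ τb) hS
      refine ⟨h4.1, h4.2.1, h4.2.2.1, le_trans ?_ hPB⟩
      refine le_trans ?_ (mul_le_mul_of_nonneg_left hS.2.2.2 (Real.exp_pos _).le)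
      rw [← Real.exp_add]
      refine Real.exp_le_exp.2 ?_
      have k1 := mul_le_mul_of_nonneg_right a3 hJr.le
      have k2 := mul_le_mul_of_nonneg_right t2 hJr.le
      linarith
    · obtain ⟨φ, hφ⟩ := ptr_coarse F hQJ
      refine ⟨fun y => (ζ (φ y)).1, fun ω hω j => ?_⟩
      obtain ⟨c, hc⟩ := hζ ω hω
      have h1 := hc j
      rw [Fin.sum_univ_zero, sub_zero] at h1
      have h2 : ptq F Qt ω = φ (Fam.pt F ω) := hφ ω
      rw [h2] at h1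
      exact h1

end Pool.LBW
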