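import Pool.Agent.H63.LBW.Thin

/-!
# Extrapolation of a relation between two polynomials in one variable
-/

set_option autoImplicit false

namespace Pool.LBW

open Finset

/-- Interpolation at separated nodes. -/
theorem lagr {D : ℕ} (r : Polynomial ℝ) (hr : r.natDegree ≤ D) (N : Finset ℝ)
    (hN : N.card = D + 1) {m B L s : ℝ} (hL : 0 < L) (hB : 0 ≤ B)
    (hsep : ∀ a ∈ N, ∀ b ∈ N, a ≠ b → 1 / L ≤ |a - b|) (hs : ∀ b ∈ N, |s - b| ≤ B)
    (hm : ∀ a ∈ N, |r.eval a| ≤ m) :
    |r.eval s| ≤ (D + 1) * (m * (B * L) ^ D) := by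
  classical
  have hm0 : 0 ≤ m := by
    have : N.Nonempty := Finset.card_pos.1 (by omega)
    obtain ⟨a, ha⟩ := this
    exact (abs_nonneg _).trans (hm a ha)
  have hinj : Set.InjOn (id : ℝ → ℝ) N := Set.injOn_id _
  have hdeg : r.degree < N.card := by
    refine lt_of_le_of_lt Polynomial.degree_le_natDegree ?_
    rw [hN]
    exact_mod_cast Nat.lt_succ_of_le hr
  have h1 := Lagrange.eq_interpolate hinj hdeg
  have h2 : r.eval s = ∑ a ∈ N, r.eval a * ∏ b ∈ N.erase a, ((a - b)⁻¹ * (s - b)) := by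
    conv_lhs => rw [h1]
    rw [Lagrange.interpolate_apply, Polynomial.eval_finsetSum]
    refine Finset.sum_congr rfl fun a _ => ?_
    rw [Polynomial.eval_mul, Polynomial.eval_C, Lagrange.basis, Polynomial.eval_prod]
    congr 1
    refine Finset.prod_congr rfl fun b _ => ?_
    rw [Lagrange.basisDivisor, Polynomial.eval_mul, Polynomial.eval_C, Polynomial.eval_sub,
      Polynomial.eval_X, Polynomial.eval_C]
    rfl
  rw [h2]
  calc |∑ a ∈ N, r.eval a * ∏ b ∈ N.erase a, ((a - b)⁻¹ * (s - b))|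
      ≤ ∑ a ∈ N, |r.eval a * ∏ b ∈ N.erase a, ((a - b)⁻¹ * (s - b))| :=
        Finset.abs_sum_le_sum_abs _ _
    _ ≤ ∑ a ∈ N, m * (B * L) ^ D := by
        refine Finset.sum_le_sum fun a ha => ?_
        rw [abs_mul]
        refine mul_le_mul (hm a ha) ?_ (abs_nonneg _) hm0
        rw [Finset.abs_prod]
        have e1 : (B * L) ^ D = ∏ _b ∈ N.erase a, (B * L) := by
          rw [Finset.prod_const, Finset.card_erase_of_mem ha, hN]
          rfl
        rw [e1]
        refine Finset.prod_le_prod (fun b _ => abs_nonneg _) fun b hb => ?_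
        have hb1 := Finset.mem_erase.1 hb
        have h3 := hsep a ha b hb1.2 (Ne.symm hb1.1)
        have h4 := hs b hb1.2
        rw [abs_mul, abs_inv, mul_comm]
        refine mul_le_mul h4 ?_ (by positivity) hB
        have h5 : 0 < |a - b| := lt_of_lt_of_le (by positivity) h3
        rw [inv_le_comm₀ h5 hL, inv_eq_one_div]
        exact h3
    _ = (D + 1) * (m * (B * L) ^ D) := by
        rw [Finset.sum_const, hN, nsmul_eq_mul]
        push_cast
        ring

/-- Away from the real parts of the roots a polynomial is not much smaller than elsewhere. -/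
theorem far_roots {D : ℕ} (q : Polynomial ℝ) (hq : q.natDegree ≤ D) {s a B ρ : ℝ}
    (hρ : 0 < ρ) (hB : |s - a| ≤ B)
    (hr : ∀ z ∈ (q.map (algebraMap ℝ ℂ)).roots, ρ ≤ |s - z.re|) :
    |q.eval a| ≤ (1 + B / ρ) ^ D * |q.eval s| := by
  obtain ⟨Q, hQ⟩ : ∃ Q, Q = q.map (algebraMap ℝ ℂ) := ⟨_, rfl⟩
  rw [← hQ] at hr
  have hB0 : 0 ≤ B := (abs_nonneg _).trans hB
  have hev : ∀ x : ℝ, ‖Q.eval (x : ℂ)‖ = |q.eval x| := by
    intro x
    have : Q.eval (x : ℂ) = ((q.eval x : ℝ) : ℂ) := by
      rw [hQ, Polynomial.eval_map]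
      exact Polynomial.eval₂_at_apply (algebraMap ℝ ℂ) x
    rw [this, Complex.norm_real, Real.norm_eq_abs]
  have hfac : Q = Polynomial.C Q.leadingCoeff *
      (Q.roots.map (fun z => Polynomial.X - Polynomial.C z)).prod :=
    (IsAlgClosed.splits Q).eq_prod_roots
  have hcard : Multiset.card Q.roots ≤ D := by
    refine (Polynomial.card_roots' Q).trans ?_
    rw [hQ]
    exact (Polynomial.natDegree_map_le).trans hq
  have key : ∀ m : Multiset ℂ, (∀ z ∈ m, ρ ≤ |s - z.re|) →
      ‖((m.map (fun z => Polynomial.X - Polynomial.C z)).prod).eval (a : ℂ)‖ ≤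
      (1 + B / ρ) ^ (Multiset.card m) *
      ‖((m.map (fun z => Polynomial.X - Polynomial.C z)).prod).eval (s : ℂ)‖ := by
    intro m
    induction m using Multiset.induction_on with
    | empty =>
      intro _
      simp
    | cons z m ih =>
      intro hz
      have h1 := ih fun w hw => hz w (Multiset.mem_cons_of_mem hw)
      have h2 := hz z (Multiset.mem_cons_self z m)
      have h3 : ρ ≤ ‖(s : ℂ) - z‖ := by
        refine h2.trans ?_
        have := Complex.abs_re_le_norm ((s : ℂ) - z)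
        rwa [Complex.sub_re, Complex.ofReal_re] at this
      have h4 : ‖(a : ℂ) - z‖ ≤ (1 + B / ρ) * ‖(s : ℂ) - z‖ := by
        have e1 : (a : ℂ) - z = ((s : ℂ) - z) - ((s - a : ℝ) : ℂ) := by
          push_cast
          ring
        rw [e1]
        have h5 := norm_sub_le ((s : ℂ) - z) ((s - a : ℝ) : ℂ)
        rw [Complex.norm_real, Real.norm_eq_abs] at h5
        have h6 : B ≤ B / ρ * ‖(s : ℂ) - z‖ := by
          rw [div_mul_eq_mul_div, le_div_iff₀ hρ]
          exact mul_le_mul_of_nonneg_left h3 hB0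
        calc _ ≤ ‖(s : ℂ) - z‖ + |s - a| := h5
          _ ≤ ‖(s : ℂ) - z‖ + B / ρ * ‖(s : ℂ) - z‖ := by linarith
          _ = _ := by ring
      rw [Multiset.map_cons, Multiset.prod_cons, Multiset.card_cons, Polynomial.eval_mul,
        Polynomial.eval_mul, Polynomial.eval_sub, Polynomial.eval_X, Polynomial.eval_C,
        Polynomial.eval_sub, Polynomial.eval_X, Polynomial.eval_C, norm_mul, norm_mul]
      have h7 : 0 ≤ B / ρ := by positivity
      calc _ ≤ ((1 + B / ρ) * ‖(s : ℂ) - z‖) * ((1 + B / ρ) ^ (Multiset.card m) *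
            ‖((m.map (fun z => Polynomial.X - Polynomial.C z)).prod).eval (s : ℂ)‖) :=
            mul_le_mul h4 h1 (norm_nonneg _) (by positivity)
        _ = _ := by ring
  have h1 := key Q.roots hr
  have h2 : ∀ x : ℝ, |q.eval x| = ‖Q.leadingCoeff‖ *
      ‖((Q.roots.map (fun z => Polynomial.X - Polynomial.C z)).prod).eval (x : ℂ)‖ := by
    intro x
    rw [← hev x]
    conv_lhs => rw [hfac]
    rw [Polynomial.eval_mul, Polynomial.eval_C, norm_mul]
  have h0 : 0 ≤ B / ρ := by positivity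
  rw [h2 a, h2 s]
  have h3 : (1 + B / ρ) ^ (Multiset.card Q.roots) ≤ (1 + B / ρ) ^ D :=
    pow_le_pow_right₀ (by linarith) hcard
  calc _ ≤ ‖Q.leadingCoeff‖ * ((1 + B / ρ) ^ (Multiset.card Q.roots) *
        ‖((Q.roots.map (fun z => Polynomial.X - Polynomial.C z)).prod).eval (s : ℂ)‖) :=
        mul_le_mul_of_nonneg_left h1 (norm_nonneg _)
    _ ≤ ‖Q.leadingCoeff‖ * ((1 + B / ρ) ^ D *
        ‖((Q.roots.map (fun z => Polynomial.X - Polynomial.C z)).prod).eval (s : ℂ)‖) := by
        refine mul_le_mul_of_nonneg_left ?_ (norm_nonneg _)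
        exact mul_le_mul_of_nonneg_right h3 (norm_nonneg _)
    _ = _ := by ring

/-- Separated elements of a finite set of natural numbers. -/
theorem exists_sep (S : Finset ℕ) {D : ℕ} (h : 2 * D + 1 ≤ S.card) :
    ∃ N : Finset ℕ, N ⊆ S ∧ N.card = D + 1 ∧ ∀ a ∈ N, ∀ b ∈ N, a ≠ b → a + 2 ≤ b ∨ b + 2 ≤ a := by
  classical
  have h1 := Finset.card_filter_add_card_filter_not (s := S) (fun a => a % 2 = 0)
  rcases Nat.lt_or_ge D (S.filter (fun a => a % 2 = 0)).card with h2 | h2
  · obtain ⟨N, hN, hc⟩ := Finset.exists_subset_card_eq (show D + 1 ≤ _ from h2)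
    refine ⟨N, hN.trans (Finset.filter_subset _ _), hc, fun a ha b hb hab => ?_⟩
    have h3 := (Finset.mem_filter.1 (hN ha)).2
    have h4 := (Finset.mem_filter.1 (hN hb)).2
    omega
  · have h3 : D + 1 ≤ (S.filter (fun a => ¬ a % 2 = 0)).card := by omega
    obtain ⟨N, hN, hc⟩ := Finset.exists_subset_card_eq h3
    refine ⟨N, hN.trans (Finset.filter_subset _ _), hc, fun a ha b hb hab => ?_⟩
    have h3 := (Finset.mem_filter.1 (hN ha)).2
    have h4 := (Finset.mem_filter.1 (hN hb)).2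
    omega

end Pool.LBW
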