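import Pool.Agent.H5.K3.BoxB
import Pool.Agent.H64.K3.Join
import Pool.Agent.H63.LBW.Crv

/-!
# The times of the samples of a window are spread
-/

set_option autoImplicit false

namespace Pool.LBW

open Finset Real
open Pool.Agent.H49.Ent Pool.Agent.H32.Dense Pool.STK Pool.KA Pool.KSAT Pool.K2S Pool.K3

section Ent

variable {Ω S T : Type} [Fintype Ω]

open Classical in
/-- Entropy of a variable which takes few values on an event. -/
theorem CH_few {p : Ω → ℝ} (hp : IsLaw p) (X : Ω → S) (W : Ω → T) (B : Ω → Prop)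
    (S₁ S₀ : T → Finset S) {M N : ℝ} (hM : 1 ≤ M) (hN : 1 ≤ N)
    (h1 : ∀ ω, 0 < p ω → B ω → X ω ∈ S₁ (W ω)) (h0 : ∀ ω, 0 < p ω → X ω ∈ S₀ (W ω))
    (c1 : ∀ w, ((S₁ w).card : ℝ) ≤ M) (c0 : ∀ w, ((S₀ w).card : ℝ) ≤ N) :
    CH p X W ≤ Real.log 2 + Pe p B * Real.log M + (1 - Pe p B) * Real.log N := by
  obtain ⟨I, hI⟩ : ∃ I : Ω → Bool, I = fun ω => decide (B ω) := ⟨_, rfl⟩
  have a1 : CH p X W ≤ CH p I W + CH p X (fun ω => (I ω, W ω)) := CH_le_add hp.nonneg X I W
  have a2 : CH p I W ≤ Real.log 2 := by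
    have h3 := CH_le_card hp.nonneg hp.sum_one I W (fun _ => Finset.univ)
      (fun ω _ => Finset.mem_univ _)
    refine h3.trans ?_
    rw [Ex_const hp.sum_one]
    simp
  have hlog : ∀ (n : ℕ) (x : ℝ), 1 ≤ x → (n : ℝ) ≤ x → Real.log n ≤ Real.log x := by
    intro n x hx hn
    rcases Nat.eq_zero_or_pos n with h | h
    · rw [h, Nat.cast_zero, Real.log_zero]
      exact Real.log_nonneg hx
    · exact Real.log_le_log (by exact_mod_cast h) hn
  have a3 : CH p X (fun ω => (I ω, W ω)) ≤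
      Ex p (fun ω => if B ω then Real.log M else Real.log N) := by
    refine (CH_le_card hp.nonneg hp.sum_one X (fun ω => (I ω, W ω))
      (fun y => if y.1 = true then S₁ y.2 else S₀ y.2) ?_).trans ?_
    · intro ω hω
      by_cases hB : B ω
      · have : I ω = true := by rw [hI]; exact decide_eq_true hB
        simp only [this, if_true]
        exact h1 ω hω hB
      · have : I ω = false := by rw [hI]; exact decide_eq_false hB
        simp only [this]
        exact h0 ω hω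
    · refine Ex_mono hp.nonneg fun ω hω => ?_
      by_cases hB : B ω
      · have : I ω = true := by rw [hI]; exact decide_eq_true hB
        simp only [this, if_true, if_pos hB]
        exact hlog _ _ hM (c1 _)
      · have : I ω = false := by rw [hI]; exact decide_eq_false hB
        simp only [this, if_neg hB]
        exact hlog _ _ hN (c0 _)
  have a4 : Ex p (fun ω => if B ω then Real.log M else Real.log N) =
      Pe p B * Real.log M + (1 - Pe p B) * Real.log N := by
    have h8 : Ex p (fun ω => if B ω then (1 : ℝ) else 0) = Pe p B := by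
      rw [Pe_eq]
      unfold Ex
      refine Finset.sum_congr rfl fun ω _ => ?_
      by_cases h9 : B ω
      · simp [h9]
      · simp [h9]
    have e1 : (fun ω => if B ω then Real.log M else Real.log N) = fun ω => Real.log N +
        (Real.log M - Real.log N) * (if B ω then (1 : ℝ) else 0) := by
      funext ω
      by_cases h9 : B ω
      · rw [if_pos h9, if_pos h9]
        ring
      · rw [if_neg h9, if_neg h9]
        ring
    rw [e1, Ex_add, Ex_const hp.sum_one, Ex_smul, h8]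
    ring
  linarith

end Ent

section Main

variable {m J : ℕ}

/-- Time digits given the line and the window. -/
theorem time_dig (F : Fam m J) {w K : ℕ} (h : w + K ≤ J) {e : ℝ} (he : F.Tm e) :
    K * Real.log 2 - e ≤ CH F.p (F.T1 (w + K)) (slam F w) := by
  refine (time_digits F h he).trans (CH_mono_left F.isLaw.nonneg ?_)
  intro ω ω' _ _ e1
  have := (Prod.ext_iff.mp e1).1
  simp only at this ⊢
  rw [this]

/-- The blocks of the times of a window. -/
theorem T1_mem (F : Fam m J) {w K : ℕ} (h : w + K ≤ J) (ω : F.Ω) :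
    F.T1 (w + K) ω ∈ Finset.Ico (2 ^ K * F.T1 w ω) (2 ^ K * F.T1 w ω + 2 ^ K) := by
  rw [Finset.mem_Ico, T1_div F h ω]
  have a1 := Nat.div_add_mod (F.T1 (w + K) ω) (2 ^ K)
  have a2 := Nat.mod_lt (F.T1 (w + K) ω) (show 0 < 2 ^ K by positivity)
  omega

open Classical in
/-- The blocks which are occupied by samples of a line in a window. -/
noncomputable def vals (F : Fam m J) (w x : ℕ)
    (s : ((Fin m → ℝ) × (Fin m → ℝ)) × F.ζ × ℕ) : Finset ℕ :=
  (Finset.univ.filter (fun ω => 0 < F.p ω ∧ slam F w ω = s)).image (F.T1 (w + x))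

/-- **Few times.** The probability of the windows in which the samples occupy few blocks. -/
theorem few_times (F : Fam m J) {w x M : ℕ} (h : w + x ≤ J) (hM : 1 ≤ M) {e : ℝ} (he : F.Tm e) :
    Pe F.p (fun ω => (vals F w x (slam F w ω)).card ≤ M) *
      (x * Real.log 2 - Real.log M) ≤ e + Real.log 2 := by
  classical
  have h1 := time_dig F h he
  have h2 := CH_few F.isLaw (F.T1 (w + x)) (slam F w)
    (fun ω => (vals F w x (slam F w ω)).card ≤ M)
    (fun s => if (vals F w x s).card ≤ M then vals F w x s else ∅)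
    (fun s => Finset.Ico (2 ^ x * s.2.2) (2 ^ x * s.2.2 + 2 ^ x)) (M := (M : ℝ)) (N := 2 ^ x)
    (by exact_mod_cast hM) (one_le_pow₀ (by norm_num)) (fun ω hω hB => by
      rw [if_pos hB]
      unfold vals
      rw [Finset.mem_image]
      exact ⟨ω, by simp [hω], rfl⟩) (fun ω _ => T1_mem F h ω) (fun s => by
      by_cases hs : (vals F w x s).card ≤ M
      · rw [if_pos hs]
        exact_mod_cast hs
      · rw [if_neg hs, Finset.card_empty, Nat.cast_zero]
        exact Nat.cast_nonneg M) (fun s => by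
      rw [Nat.card_Ico, Nat.add_sub_cancel_left]
      push_cast
      exact le_rfl)
  rw [Real.log_pow] at h2
  nlinarith [h1, h2]

/-- The blocks of the second sample, given the first one. -/
theorem bad_blocks (F : Fam m J) {w x M : ℕ} (h : w + x ≤ J) (hM : 1 ≤ M) {e : ℝ} (he : F.Tm e)
    (B : F.Ω × F.Ω → Prop) (S₁ : F.Ω → Finset ℕ) (hc : ∀ ω, (S₁ ω).card ≤ M)
    (hB : ∀ v, 0 < prs F w v → B v → F.T1 (w + x) v.2 ∈ S₁ v.1) :
    Pe (prs F w) B * (x * Real.log 2 - Real.log M) ≤ e + Real.log 2 := by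
  classical
  have hQ := prs_law F w
  have h0 := hQ.nonneg
  have h1 : x * Real.log 2 - e ≤ CH (prs F w) (fun v => F.T1 (w + x) v.2) (fun v => v.1) := by
    have hind := (cpy_thm F.Ω _ F.p F.isLaw (slam F w)).2.2.2.2.2
    have h1 := hind ℕ F.Ω (F.T1 (w + x)) id
    have h2 := (prs_swap F w).CH (fun v => F.T1 (w + x) v.1) (fun v => (v.2, slam F w v.1))
    have h3 : CH (prs F w) (fun v => F.T1 (w + x) v.1) (fun v => (id v.2, slam F w v.1)) =
        CH F.p (F.T1 (w + x)) (slam F w) := h1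
    have h4 : CH (prs F w) (fun v => F.T1 (w + x) v.swap.1)
        (fun v => (v.swap.2, slam F w v.swap.1)) ≤
        CH (prs F w) (fun v => F.T1 (w + x) v.2) (fun v => v.1) := by
      exact CH_mono_cond h0 fun v v' _ _ h => (Prod.ext_iff.mp h).1
    have h5 : CH (prs F w) (fun v => F.T1 (w + x) v.1) (fun v => (v.2, slam F w v.1)) =
        CH F.p (F.T1 (w + x)) (slam F w) := h3
    have h6 := time_dig F h he
    linarith
  have h2 := CH_few hQ (fun v => F.T1 (w + x) v.2) (fun v => v.1) B S₁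
    (fun ω => Finset.Ico (2 ^ x * F.T1 w ω) (2 ^ x * F.T1 w ω + 2 ^ x)) (M := (M : ℝ))
    (N := 2 ^ x) (by exact_mod_cast hM) (one_le_pow₀ (by norm_num)) hB (fun v hv => by
      have h3 := T1_mem F h v.2
      obtain ⟨-, -, -, -, -, h4⟩ := prs_pos hv
      rw [h4]
      exact h3) (fun s => by exact_mod_cast hc s) (fun s => by
      rw [Nat.card_Ico, Nat.add_sub_cancel_left]
      push_cast
      exact le_rfl)
  rw [Real.log_pow] at h2
  nlinarith [h1, h2]

/-- Rounded times near a point. -/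
theorem floor_near_mem {a b : ℝ} (h : |a - b| < 1) :
    ⌊a⌋₊ ∈ Finset.Icc (⌊b⌋₊ - 1) (⌊b⌋₊ + 1) := by
  rw [Finset.mem_Icc]
  rw [abs_lt] at h
  constructor
  · rcases le_or_gt 0 b with hb | hb
    · have h1 := Nat.floor_le hb
      have h2 := Nat.lt_floor_add_one a
      have h3 : (⌊b⌋₊ : ℝ) < ⌊a⌋₊ + 2 := by linarith
      have h4 : ⌊b⌋₊ < ⌊a⌋₊ + 2 := by exact_mod_cast h3
      omega
    · rw [Nat.floor_of_nonpos hb.le]
      omega
  · rcases le_or_gt 0 a with ha | ha
    · have h1 := Nat.floor_le ha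
      have h2 := Nat.lt_floor_add_one b
      have h3 : (⌊a⌋₊ : ℝ) < ⌊b⌋₊ + 2 := by linarith
      have h4 : ⌊a⌋₊ < ⌊b⌋₊ + 2 := by exact_mod_cast h3
      omega
    · rw [Nat.floor_of_nonpos ha.le]
      omega

theorem T1_floor (F : Fam m J) {g : ℕ} (h : g ≤ J) (ω : F.Ω) : F.T1 g ω = ⌊2 ^ g * F.t ω⌋₊ := by
  have h1 := T1_real F h ω
  symm
  rw [Nat.floor_eq_iff (by
    have : (0 : ℝ) ≤ F.T1 g ω := Nat.cast_nonneg _
    linarith [h1.1])]
  constructor
  · linarith [h1.1]
  · linarith [h1.2]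

/-- The time of the second sample, in the units of the window of the first one. -/
noncomputable def sv (F : Fam m J) (w : ℕ) (v : F.Ω × F.Ω) : ℝ :=
  2 ^ w * F.t v.2 - F.T1 w v.1

/-- Bound for the time of the second sample. -/
theorem sv_le (F : Fam m J) {w₀ w : ℕ} (h : w₀ ≤ w) (hw : w ≤ J) {v : F.Ω × F.Ω}
    (hv : F.T1 w₀ v.1 = F.T1 w₀ v.2) : |sv F w v| ≤ 2 ^ (w - w₀) := by
  have h1 := T1_real F (h.trans hw) v.2
  have h2 := T1_mem F (w := w₀) (K := w - w₀) (by omega) v.1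
  rw [Finset.mem_Ico, Nat.add_sub_cancel' h] at h2
  have h3 : (2 : ℝ) ^ (w - w₀) * F.T1 w₀ v.1 ≤ F.T1 w v.1 := by exact_mod_cast h2.1
  have h4 : (F.T1 w v.1 : ℝ) ≤ 2 ^ (w - w₀) * F.T1 w₀ v.1 + 2 ^ (w - w₀) := by
    exact_mod_cast h2.2.le
  have e1 : (2 : ℝ) ^ w = 2 ^ (w - w₀) * 2 ^ w₀ := by
    rw [← pow_add]
    congr 1
    omega
  rw [← hv] at h1
  unfold sv
  rw [e1]
  have p0 : (0 : ℝ) < 2 ^ (w - w₀) := by positivity
  have h5 : (2 : ℝ) ^ (w - w₀) * 2 ^ w₀ * F.t v.2 = 2 ^ (w - w₀) * (2 ^ w₀ * F.t v.2) := by ring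
  have h6 : (2 : ℝ) ^ (w - w₀) * F.T1 w₀ v.1 ≤ 2 ^ (w - w₀) * (2 ^ w₀ * F.t v.2) :=
    mul_le_mul_of_nonneg_left (by linarith [h1.1]) p0.le
  have h7 : (2 : ℝ) ^ (w - w₀) * (2 ^ w₀ * F.t v.2) ≤ 2 ^ (w - w₀) * (F.T1 w₀ v.1 + 1) :=
    mul_le_mul_of_nonneg_left (by linarith [h1.2]) p0.le
  rw [h5, abs_le]
  constructor <;> linarith

/-- **Times near the roots** of a polynomial which is a function of the first sample. -/
theorem near_roots (F : Fam m J) {w₀ w x D : ℕ} (h : w₀ + x ≤ J) (hw : w₀ ≤ w) {e : ℝ}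
    (he : F.Tm e) (q : F.Ω → Polynomial ℝ) (hq : ∀ ω, (q ω).natDegree ≤ D) :
    Pe (prs F w₀) (fun v => ∃ z ∈ ((q v.1).map (algebraMap ℝ ℂ)).roots,
      |sv F w v - z.re| < 2 ^ (w - w₀) / 2 ^ x) *
      (x * Real.log 2 - Real.log ((3 * D + 1 : ℕ) : ℝ)) ≤ e + Real.log 2 := by
  classical
  refine bad_blocks F h (by omega) he _ (fun ω => ((q ω).map (algebraMap ℝ ℂ)).roots.toFinset.biUnion
    (fun z => Finset.Icc (⌊(2 : ℝ) ^ (w₀ + x) / 2 ^ w * (F.T1 w ω + z.re)⌋₊ - 1)
      (⌊(2 : ℝ) ^ (w₀ + x) / 2 ^ w * (F.T1 w ω + z.re)⌋₊ + 1))) ?_ ?_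
  · intro ω
    refine (Finset.card_biUnion_le_card_mul _ _ 3 ?_).trans ?_
    · intro z _
      rw [Nat.card_Icc]
      omega
    · have h1 : ((q ω).map (algebraMap ℝ ℂ)).roots.toFinset.card ≤ D := by
        refine (Multiset.toFinset_card_le _).trans ?_
        refine (Polynomial.card_roots' _).trans ?_
        exact Polynomial.natDegree_map_le.trans (hq ω)
      have : ((q ω).map (algebraMap ℝ ℂ)).roots.toFinset.card * 3 ≤ D * 3 :=
        Nat.mul_le_mul_right 3 h1
      omega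
  · rintro v _ ⟨z, hz, hzs⟩
    rw [Finset.mem_biUnion]
    refine ⟨z, Multiset.mem_toFinset.2 hz, ?_⟩
    rw [T1_floor F h]
    refine floor_near_mem ?_
    have p0 : (0 : ℝ) < 2 ^ w := by positivity
    have e0 : (2 : ℝ) ^ (w - w₀) / 2 ^ x = 2 ^ w / 2 ^ (w₀ + x) := by
      rw [div_eq_div_iff (by positivity) (by positivity), ← pow_add, ← pow_add]
      congr 1
      omega
    rw [e0, lt_div_iff₀ (by positivity)] at hzs
    have e1 : (2 : ℝ) ^ (w₀ + x) * F.t v.2 - 2 ^ (w₀ + x) / 2 ^ w * (F.T1 w v.1 + z.re) =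
        (sv F w v - z.re) * 2 ^ (w₀ + x) / 2 ^ w := by
      unfold sv
      field_simp
      ring
    rw [e1, abs_div, abs_mul, abs_of_pos p0, abs_of_pos (by positivity : (0 : ℝ) < 2 ^ (w₀ + x)),
      div_lt_one p0]
    exact hzs

end Main

end Pool.LBW
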