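import Pool.Agent.H4.KJ.NEA
import Pool.Agent.H55.KS3.SML

/-!
# Points at which a polynomial is small against its derivatives: counting

If `|R| ≤ 2 ^ (-p k) |∂ R|` at a point, for some derivative of order `k > 0`, one of the coordinates
of the point is determined, up to finitely many possibilities, by the cells of the other ones.
-/

set_option autoImplicit false

namespace Pool.LBW

open MvPolynomial Finset

variable {σ : Type} [DecidableEq σ]

/-- Iterated derivatives. -/
noncomputable def dl (l : List σ) (R : MvPolynomial σ ℝ) : MvPolynomial σ ℝ :=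
  l.foldr (fun k P => pderiv k P) R

omit [DecidableEq σ] in
theorem dl_cons (k : σ) (l : List σ) (R : MvPolynomial σ ℝ) :
    dl (k :: l) R = pderiv k (dl l R) := rfl

omit [DecidableEq σ] in
theorem dl_rep (k : σ) (l : List σ) (R : MvPolynomial σ ℝ) (m : ℕ) :
    dl (List.replicate m k ++ l) R = (pderiv k)^[m] (dl l R) := by
  induction m with
  | zero => rfl
  | succ m ih =>
    rw [List.replicate_succ, List.cons_append, dl_cons, ih, Function.iterate_succ_apply']

omit [DecidableEq σ] in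
theorem dl_deg (R : MvPolynomial σ ℝ) {D : ℕ} (hR : R.totalDegree ≤ D) (l : List σ) :
    (dl l R).totalDegree ≤ D - l.length ∧ (D < l.length → dl l R = 0) := by
  induction l with
  | nil =>
    refine ⟨by simpa [dl] using hR, fun h => ?_⟩
    simp at h
  | cons k l ih =>
    rw [dl_cons, List.length_cons]
    constructor
    · rcases Nat.eq_zero_or_pos (D - l.length) with h0 | h0
      · have h1 : (dl l R).totalDegree = 0 := by omega
        rw [totalDegree_eq_zero_iff_eq_C] at h1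
        rw [h1]
        simp
      · have h1 : (dl l R).totalDegree ≤ (D - l.length - 1) + 1 := by omega
        have := Pool.KS3.SML.totalDegree_pderiv_le k (dl l R) (D - l.length - 1) h1
        omega
    · intro h
      rcases Nat.lt_or_ge D l.length with h1 | h1
      · rw [ih.2 h1]
        simp
      · have h2 : (dl l R).totalDegree = 0 := by omega
        rw [totalDegree_eq_zero_iff_eq_C] at h2
        rw [h2]
        simp

/-- The restriction to a line parallel to a coordinate axis. -/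
noncomputable def lin (X : σ → ℝ) (k : σ) : MvPolynomial σ ℝ →ₐ[ℝ] Polynomial ℝ :=
  aeval (fun i => if i = k then Polynomial.X else Polynomial.C (X i))

theorem lin_X (X : σ → ℝ) (k i : σ) :
    lin X k (MvPolynomial.X i) = if i = k then Polynomial.X else Polynomial.C (X i) := by
  unfold lin
  rw [aeval_X]

theorem lin_C (X : σ → ℝ) (k : σ) (a : ℝ) :
    lin X k (MvPolynomial.C a) = Polynomial.C a := by
  unfold lin
  rw [aeval_C]
  rfl

theorem derivative_lin (X : σ → ℝ) (k : σ) (R : MvPolynomial σ ℝ) :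
    Polynomial.derivative (lin X k R) = lin X k (pderiv k R) := by
  induction R using MvPolynomial.induction_on with
  | C a => rw [lin_C, pderiv_C, map_zero, Polynomial.derivative_C]
  | add p q hp hq => rw [map_add, map_add, map_add, map_add, hp, hq]
  | mul_X p i hp =>
    rw [map_mul, Polynomial.derivative_mul, hp, pderiv_mul, map_add, map_mul, map_mul, lin_X,
      pderiv_X]
    by_cases h : i = k
    · subst h
      rw [if_pos rfl, Polynomial.derivative_X, Pi.single_eq_same, map_one]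
    · rw [if_neg h, Polynomial.derivative_C, Pi.single_eq_of_ne h, map_zero]

theorem eval_lin (X : σ → ℝ) (k : σ) (R : MvPolynomial σ ℝ) (t : ℝ) :
    (lin X k R).eval t = MvPolynomial.eval (fun i => if i = k then t else X i) R := by
  induction R using MvPolynomial.induction_on with
  | C a => rw [lin_C, Polynomial.eval_C, eval_C]
  | add p q hp hq => rw [map_add, Polynomial.eval_add, hp, hq, map_add]
  | mul_X p i hp =>
    rw [map_mul, Polynomial.eval_mul, hp, map_mul, lin_X, eval_X]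
    by_cases h : i = k
    · rw [if_pos h, if_pos h, Polynomial.eval_X]
    · rw [if_neg h, if_neg h, Polynomial.eval_C]

theorem iterate_lin (X : σ → ℝ) (k : σ) (R : MvPolynomial σ ℝ) (m : ℕ) :
    Polynomial.derivative^[m] (lin X k R) = lin X k ((pderiv k)^[m] R) := by
  induction m with
  | zero => rfl
  | succ m ih => rw [Function.iterate_succ_apply', ih, derivative_lin, Function.iterate_succ_apply']

theorem natDegree_lin (X : σ → ℝ) (k : σ) (R : MvPolynomial σ ℝ) {D : ℕ}
    (hR : R.totalDegree ≤ D) : (lin X k R).natDegree ≤ D := by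
  unfold lin
  rw [aeval_def, eval₂_eq]
  refine Polynomial.natDegree_sum_le_of_forall_le _ _ fun s hs => ?_
  refine (Polynomial.natDegree_C_mul_le _ _).trans ?_
  refine (Polynomial.natDegree_prod_le _ _).trans ?_
  have h1 : ∀ i ∈ s.support, ((if i = k then (Polynomial.X : Polynomial ℝ) else
      Polynomial.C (X i)) ^ s i).natDegree ≤ s i := by
    intro i _
    refine Polynomial.natDegree_pow_le.trans ?_
    have : (if i = k then (Polynomial.X : Polynomial ℝ) else Polynomial.C (X i)).natDegree ≤ 1 := by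
      split_ifs
      · exact Polynomial.natDegree_X_le
      · rw [Polynomial.natDegree_C]
        exact Nat.zero_le _
    calc s i * _ ≤ s i * 1 := Nat.mul_le_mul_left _ this
      _ = s i := mul_one _
  refine (Finset.sum_le_sum h1).trans ?_
  exact (le_totalDegree hs).trans hR

/-- Taylor's formula for polynomials. -/
theorem eval_taylor (q : Polynomial ℝ) {D : ℕ} (hq : q.natDegree ≤ D) (a h : ℝ) :
    q.eval (a + h) = ∑ m ∈ Finset.range (D + 1),
      (Polynomial.derivative^[m] q).eval a / (m.factorial : ℝ) * h ^ m := by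
  have h1 : q.eval (a + h) = (Polynomial.taylor a q).eval h := by
    rw [Polynomial.taylor_eval, add_comm]
  rw [h1, Polynomial.eval_eq_sum_range' (n := D + 1) (by
    rw [Polynomial.natDegree_taylor]
    omega)]
  refine Finset.sum_congr rfl fun m _ => ?_
  rw [Polynomial.taylor_coeff, ← Polynomial.factorial_smul_hasseDeriv]
  congr 1
  have : (m.factorial : ℝ) ≠ 0 := by exact_mod_cast Nat.factorial_ne_zero m
  rw [LinearMap.smul_apply, Polynomial.eval_smul, nsmul_eq_mul]
  field_simp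

/-- One coordinate is moved. -/
theorem move_one (R : MvPolynomial σ ℝ) {D : ℕ} (hR : R.totalDegree ≤ D) {X Y : σ → ℝ} {δ N c : ℝ}
    (hδ : 0 < δ) (hN : 0 ≤ N) (hc : 0 ≤ c) (hc1 : c ≤ 1) {k : σ}
    (h : ∀ l : List σ, δ ^ l.length * |MvPolynomial.eval X (dl l R)| ≤ N)
    (hY : ∀ i, i ≠ k → Y i = X i) (hk : |Y k - X k| ≤ c * δ) (l : List σ) :
    δ ^ l.length * |MvPolynomial.eval Y (dl l R) - MvPolynomial.eval X (dl l R)| ≤
      c * ((D + 1) * N) := by
  obtain ⟨t, ht⟩ : ∃ t, t = Y k - X k := ⟨_, rfl⟩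
  rw [← ht] at hk
  have e1 : MvPolynomial.eval Y (dl l R) = (lin X k (dl l R)).eval (X k + t) := by
    rw [eval_lin]
    congr 1
    congr 1
    funext i
    by_cases hi : i = k
    · rw [if_pos hi, hi, ht]
      ring
    · rw [if_neg hi, hY i hi]
  have e0 : ∀ P : MvPolynomial σ ℝ, (lin X k P).eval (X k) = MvPolynomial.eval X P := by
    intro P
    rw [eval_lin]
    congr 1
    congr 1
    funext i
    by_cases hi : i = k
    · rw [if_pos hi, hi]
    · rw [if_neg hi]
  have hdeg : (lin X k (dl l R)).natDegree ≤ D :=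
    natDegree_lin X k _ ((dl_deg R hR l).1.trans (Nat.sub_le _ _))
  have e2 : MvPolynomial.eval Y (dl l R) - MvPolynomial.eval X (dl l R) =
      ∑ m ∈ Finset.range D, MvPolynomial.eval X (dl (List.replicate (m + 1) k ++ l) R) /
        ((m + 1).factorial : ℝ) * t ^ (m + 1) := by
    rw [e1, eval_taylor _ hdeg, Finset.sum_range_succ']
    have e3 : (Polynomial.derivative^[0] (lin X k (dl l R))).eval (X k) / ((0).factorial : ℝ) *
        t ^ 0 = MvPolynomial.eval X (dl l R) := by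
      simp [e0]
    rw [e3, add_sub_cancel_right]
    refine Finset.sum_congr rfl fun m _ => ?_
    rw [iterate_lin, e0, dl_rep]
  rw [e2]
  have hδl : 0 ≤ δ ^ l.length := by positivity
  calc δ ^ l.length * |∑ m ∈ Finset.range D,
        MvPolynomial.eval X (dl (List.replicate (m + 1) k ++ l) R) /
        ((m + 1).factorial : ℝ) * t ^ (m + 1)|
      ≤ δ ^ l.length * ∑ m ∈ Finset.range D,
        |MvPolynomial.eval X (dl (List.replicate (m + 1) k ++ l) R) /
        ((m + 1).factorial : ℝ) * t ^ (m + 1)| :=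
        mul_le_mul_of_nonneg_left (Finset.abs_sum_le_sum_abs _ _) hδl
    _ = ∑ m ∈ Finset.range D, δ ^ l.length *
        |MvPolynomial.eval X (dl (List.replicate (m + 1) k ++ l) R) /
        ((m + 1).factorial : ℝ) * t ^ (m + 1)| := Finset.mul_sum _ _ _
    _ ≤ ∑ m ∈ Finset.range D, c * N := by
        refine Finset.sum_le_sum fun m _ => ?_
        have h1 := h (List.replicate (m + 1) k ++ l)
        rw [List.length_append, List.length_replicate, pow_add] at h1
        obtain ⟨v, hv⟩ : ∃ v, v = |MvPolynomial.eval X (dl (List.replicate (m + 1) k ++ l) R)| :=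
          ⟨_, rfl⟩
        rw [← hv] at h1
        have hv0 : 0 ≤ v := by rw [hv]; exact abs_nonneg _
        have hf : (1 : ℝ) ≤ ((m + 1).factorial : ℝ) := by
          exact_mod_cast Nat.succ_le_of_lt (Nat.factorial_pos _)
        rw [abs_mul, abs_div, abs_of_nonneg (by linarith : (0 : ℝ) ≤ ((m + 1).factorial : ℝ)),
          abs_pow, ← hv]
        have h2 : |t| ^ (m + 1) ≤ (c * δ) ^ (m + 1) :=
          pow_le_pow_left₀ (abs_nonneg _) hk _
        have h3 : c ^ (m + 1) ≤ c := by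
          calc c ^ (m + 1) = c ^ m * c := pow_succ _ _
            _ ≤ 1 * c := mul_le_mul_of_nonneg_right (pow_le_one₀ hc hc1) hc
            _ = c := one_mul _
        have h4 : v / ((m + 1).factorial : ℝ) ≤ v := div_le_self hv0 hf
        calc δ ^ l.length * (v / ((m + 1).factorial : ℝ) * |t| ^ (m + 1))
            ≤ δ ^ l.length * (v * (c * δ) ^ (m + 1)) := by
              refine mul_le_mul_of_nonneg_left ?_ hδl
              exact mul_le_mul h4 h2 (by positivity) hv0
          _ = c ^ (m + 1) * (δ ^ (m + 1) * δ ^ l.length * v) := by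
              rw [mul_pow]
              ring
          _ ≤ c * N := mul_le_mul h3 h1 (by positivity) hc
    _ = D * (c * N) := by rw [Finset.sum_const, Finset.card_range, nsmul_eq_mul]
    _ ≤ c * ((D + 1) * N) := by
        have : 0 ≤ c * N := mul_nonneg hc hN
        nlinarith

/-- Some coordinates are moved. -/
theorem move_set (R : MvPolynomial σ ℝ) {D : ℕ} (hR : R.totalDegree ≤ D) {X Y : σ → ℝ} {δ N c : ℝ}
    (hδ : 0 < δ) (hN : 0 ≤ N) (hc : 0 ≤ c) (hc1 : c ≤ 1)
    (h : ∀ l : List σ, δ ^ l.length * |MvPolynomial.eval X (dl l R)| ≤ N)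
    (hk : ∀ i, |Y i - X i| ≤ c * δ) (s : Finset σ) (l : List σ) :
    δ ^ l.length * |MvPolynomial.eval (fun i => if i ∈ s then Y i else X i) (dl l R) -
      MvPolynomial.eval X (dl l R)| ≤ ((1 + c * (D + 1)) ^ s.card - 1) * N := by
  induction s using Finset.induction_on generalizing l with
  | empty => simp
  | @insert k s hks ih =>
    obtain ⟨Z, hZ⟩ : ∃ Z : σ → ℝ, Z = fun i => if i ∈ s then Y i else X i := ⟨_, rfl⟩
    obtain ⟨Z', hZ'⟩ : ∃ Z' : σ → ℝ, Z' = fun i => if i ∈ insert k s then Y i else X i := ⟨_, rfl⟩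
    rw [← hZ] at ih
    rw [← hZ', Finset.card_insert_of_notMem hks]
    obtain ⟨K, hK⟩ : ∃ K : ℝ, K = (1 + c * (D + 1)) ^ s.card := ⟨_, rfl⟩
    rw [← hK] at ih
    have hK0 : 0 ≤ K := by rw [hK]; positivity
    have hZN : ∀ l : List σ, δ ^ l.length * |MvPolynomial.eval Z (dl l R)| ≤ K * N := by
      intro l
      have h1 := ih l
      have h2 := h l
      have hδl : 0 ≤ δ ^ l.length := by positivity
      have h3 : |MvPolynomial.eval Z (dl l R)| ≤ |MvPolynomial.eval Z (dl l R) -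
          MvPolynomial.eval X (dl l R)| + |MvPolynomial.eval X (dl l R)| := by
        have := abs_add_le (MvPolynomial.eval Z (dl l R) - MvPolynomial.eval X (dl l R))
          (MvPolynomial.eval X (dl l R))
        rwa [sub_add_cancel] at this
      have h4 := mul_le_mul_of_nonneg_left h3 hδl
      rw [mul_add] at h4
      linarith
    have h5 := move_one R hR hδ (mul_nonneg hK0 hN) hc hc1 (k := k) (X := Z) (Y := Z') hZN (by
      intro i hi
      rw [hZ, hZ']
      simp [hi]) (by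
      rw [hZ, hZ']
      simp only [Finset.mem_insert, true_or, if_true, if_neg hks]
      exact hk k) l
    have h6 := ih l
    have hδl : 0 ≤ δ ^ l.length := by positivity
    have h7 : |MvPolynomial.eval Z' (dl l R) - MvPolynomial.eval X (dl l R)| ≤
        |MvPolynomial.eval Z' (dl l R) - MvPolynomial.eval Z (dl l R)| +
        |MvPolynomial.eval Z (dl l R) - MvPolynomial.eval X (dl l R)| := by
      have := abs_add_le (MvPolynomial.eval Z' (dl l R) - MvPolynomial.eval Z (dl l R))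
        (MvPolynomial.eval Z (dl l R) - MvPolynomial.eval X (dl l R))
      rwa [sub_add_sub_cancel] at this
    have h8 := mul_le_mul_of_nonneg_left h7 hδl
    rw [mul_add] at h8
    rw [pow_succ, ← hK]
    have e : (K * (1 + c * (D + 1)) - 1) * N = (K - 1) * N + c * ((D + 1) * (K * N)) := by ring
    rw [e]
    linarith

/-- A polynomial all whose derivatives vanish at a point is zero. -/
theorem exists_dl_ne [Fintype σ] (R : MvPolynomial σ ℝ) (hR : R ≠ 0) (X : σ → ℝ) :
    ∃ l : List σ, MvPolynomial.eval X (dl l R) ≠ 0 := by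
  by_contra hcon
  push Not at hcon
  apply hR
  refine MvPolynomial.funext fun Y => ?_
  obtain ⟨δ, hδ, hY⟩ : ∃ δ : ℝ, 0 < δ ∧ ∀ i, |Y i - X i| ≤ 1 * δ := by
    refine ⟨1 + ∑ i, |Y i - X i|, by
      have : 0 ≤ ∑ i, |Y i - X i| := Finset.sum_nonneg fun i _ => abs_nonneg _
      linarith, fun i => ?_⟩
    have := Finset.single_le_sum (f := fun i => |Y i - X i|) (fun i _ => abs_nonneg _)
      (Finset.mem_univ i)
    linarith
  have h1 := move_set R le_rfl (N := 0) hδ le_rfl zero_le_one le_rfl (X := X) (Y := Y) (fun l => by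
    rw [hcon l, abs_zero, mul_zero]) hY Finset.univ []
  have e0 : MvPolynomial.eval X (dl [] R) = 0 := hcon []
  rw [e0] at h1
  simp only [Finset.mem_univ, if_true, List.length_nil, pow_zero, one_mul, mul_zero, sub_zero] at h1
  have h2 : MvPolynomial.eval Y (dl [] R) = 0 := abs_eq_zero.1 (le_antisymm h1 (abs_nonneg _))
  rw [map_zero]
  exact h2

/-! ### Smallness against the derivatives -/

/-- The polynomial is small at the point against one of its derivatives. -/
def sml (S : MvPolynomial σ ℝ) (p : ℕ) (X : σ → ℝ) : Prop :=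
  ∃ l : List σ, l ≠ [] ∧ |MvPolynomial.eval X S| ≤
    (1 / 2 ^ p) ^ l.length * |MvPolynomial.eval X (dl l S)|

omit [DecidableEq σ] in
/-- The maximal derivative. -/
theorem exists_top [Fintype σ] (S : MvPolynomial σ ℝ) {D : ℕ} (hS : S.totalDegree ≤ D) {δ : ℝ}
    (hδ : 0 < δ) (X : σ → ℝ) (h : ∃ l : List σ, l ≠ [] ∧ |MvPolynomial.eval X S| ≤
      δ ^ l.length * |MvPolynomial.eval X (dl l S)|) :
    ∃ (j : σ) (β : List σ), ∀ l, δ ^ l.length * |MvPolynomial.eval X (dl l S)| ≤
      δ ^ (j :: β).length * |MvPolynomial.eval X (dl (j :: β) S)| := by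
  classical
  obtain ⟨V, hV⟩ : ∃ V : List σ → ℝ, V = fun l => δ ^ l.length *
    |MvPolynomial.eval X (dl l S)| := ⟨_, rfl⟩
  have hV0 : ∀ l, 0 ≤ V l := by
    intro l
    rw [hV]
    positivity
  have hVD : ∀ l : List σ, D < l.length → V l = 0 := by
    intro l hl
    rw [hV]
    simp only
    rw [(dl_deg S hS l).2 hl, map_zero, abs_zero, mul_zero]
  obtain ⟨Ls, hLs⟩ : ∃ Ls, Ls = (List.finite_length_le σ D).toFinset := ⟨_, rfl⟩
  have hmem : ∀ l : List σ, l ∈ Ls ↔ l.length ≤ D := by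
    intro l
    rw [hLs, Set.Finite.mem_toFinset]
    rfl
  obtain ⟨l₀, hl₀, hmax⟩ := Finset.exists_max_image Ls V ⟨[], (hmem []).2 (Nat.zero_le _)⟩
  have hmax' : ∀ l, V l ≤ V l₀ := by
    intro l
    by_cases hl : l.length ≤ D
    · exact hmax l ((hmem l).2 hl)
    · rw [hVD l (by omega)]
      exact hV0 _
  rcases l₀ with _ | ⟨j, β⟩
  · obtain ⟨l, hl, h1⟩ := h
    rcases l with _ | ⟨j, β⟩
    · exact absurd rfl hl
    · refine ⟨j, β, fun l => ?_⟩
      have h2 := hmax' l
      rw [hV] at h2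
      refine h2.trans ?_
      simp only [List.length_nil, pow_zero, one_mul]
      exact h1
  · refine ⟨j, β, fun l => ?_⟩
    have h2 := hmax' l
    rw [hV] at h2
    exact h2

/-- Smallness at nearby points. -/
theorem sml_move (S : MvPolynomial (Fin 3) ℝ) {D : ℕ} (hS : S.totalDegree ≤ D) {P p : ℕ}
    (hp : p + (D + 7) ≤ P) {X Y : Fin 3 → ℝ} (h : sml S P X) (hY : ∀ i, |Y i - X i| ≤ 2 / 2 ^ P) :
    sml S p Y := by
  obtain ⟨δ, hδ⟩ : ∃ δ : ℝ, δ = 1 / 2 ^ (p + 1) := ⟨_, rfl⟩
  have hδ0 : 0 < δ := by rw [hδ]; positivity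
  obtain ⟨c, hc⟩ : ∃ c : ℝ, c = 1 / 2 ^ (D + 5) := ⟨_, rfl⟩
  have hc0 : 0 < c := by rw [hc]; positivity
  have hcD : c * (D + 1) ≤ 1 / 16 := by
    have h1 : ((D : ℝ) + 1) ≤ 2 ^ D := by
      have : D + 1 ≤ 2 ^ D := Nat.lt_two_pow_self
      exact_mod_cast this
    have h2 : (0 : ℝ) < 2 ^ D := by positivity
    rw [hc, pow_add, one_div_mul_eq_div, div_le_iff₀ (by positivity)]
    nlinarith
  have hc1 : c ≤ 1 := by
    have : c * 1 ≤ c * (D + 1) := mul_le_mul_of_nonneg_left (by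
      have : (0 : ℝ) ≤ D := Nat.cast_nonneg D
      linarith) hc0.le
    linarith
  have hP1 : (1 : ℝ) / 2 ^ P ≤ δ := by
    rw [hδ, div_le_div_iff₀ (by positivity) (by positivity), one_mul, one_mul]
    exact pow_le_pow_right₀ (by norm_num) (by omega)
  have hP2 : (2 : ℝ) / 2 ^ P ≤ c * δ := by
    have e1 : c * δ = 2 / 2 ^ (p + (D + 7)) := by
      rw [hc, hδ, one_div_mul_one_div, ← pow_add, div_eq_div_iff (by positivity) (by positivity),
        one_mul, ← pow_succ']
      congr 1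
      omega
    rw [e1]
    exact div_le_div_of_nonneg_left (by norm_num) (by positivity)
      (pow_le_pow_right₀ (by norm_num) hp)
  obtain ⟨j, β, hmax⟩ := exists_top S hS hδ0 X (by
    obtain ⟨l, hl, h1⟩ := h
    refine ⟨l, hl, h1.trans (mul_le_mul_of_nonneg_right ?_ (abs_nonneg _))⟩
    exact pow_le_pow_left₀ (by positivity) hP1 _)
  obtain ⟨N, hN⟩ : ∃ N, N = δ ^ (j :: β).length * |MvPolynomial.eval X (dl (j :: β) S)| := ⟨_, rfl⟩
  rw [← hN] at hmax
  have hN0 : 0 ≤ N := by rw [hN]; positivity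
  have hK : (1 + c * ((D : ℝ) + 1)) ^ (Finset.univ : Finset (Fin 3)).card - 1 ≤ 1 / 4 := by
    have h0 : (Finset.univ : Finset (Fin 3)).card = 3 := by simp
    rw [h0]
    have h2 : (1 + c * ((D : ℝ) + 1)) ^ 3 ≤ (1 + 1 / 16) ^ 3 :=
      pow_le_pow_left₀ (by positivity) (by linarith) 3
    norm_num at h2 ⊢
    linarith
  have hmove : ∀ l : List (Fin 3), δ ^ l.length * |MvPolynomial.eval Y (dl l S) -
      MvPolynomial.eval X (dl l S)| ≤ 1 / 4 * N := by
    intro l
    have h1 := move_set S hS (Y := Y) hδ0 hN0 hc0.le hc1 hmax (fun i => (hY i).trans hP2)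
      Finset.univ l
    simp only [Finset.mem_univ, if_true] at h1
    exact h1.trans (mul_le_mul_of_nonneg_right hK hN0)
  refine ⟨j :: β, List.cons_ne_nil _ _, ?_⟩
  have b1 := hmove []
  have b2 := hmove (j :: β)
  have b3 := hmax []
  simp only [List.length_nil, pow_zero, one_mul] at b1 b3
  obtain ⟨n, hn⟩ : ∃ n, n = (j :: β).length := ⟨_, rfl⟩
  have hn1 : 1 ≤ n := by rw [hn, List.length_cons]; omega
  rw [← hn] at b2 hN ⊢
  obtain ⟨x0, hx0⟩ : ∃ x0, x0 = MvPolynomial.eval X S := ⟨_, rfl⟩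
  obtain ⟨y0, hy0⟩ : ∃ y0, y0 = MvPolynomial.eval Y S := ⟨_, rfl⟩
  obtain ⟨x1, hx1⟩ : ∃ x1, x1 = MvPolynomial.eval X (dl (j :: β) S) := ⟨_, rfl⟩
  obtain ⟨y1, hy1⟩ : ∃ y1, y1 = MvPolynomial.eval Y (dl (j :: β) S) := ⟨_, rfl⟩
  have b1' : |y0 - x0| ≤ 1 / 4 * N := by rw [hy0, hx0]; exact b1
  have b3' : |x0| ≤ N := by rw [hx0]; exact b3
  rw [← hy1, ← hx1] at b2
  rw [← hx1] at hN
  rw [← hy0, ← hy1]
  have hδn : 0 < δ ^ n := by positivity
  have c1 : |y0| ≤ 5 / 4 * N := by
    have h1 : |y0| ≤ |y0 - x0| + |x0| := by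
      have := abs_add_le (y0 - x0) x0
      rwa [sub_add_cancel] at this
    linarith
  have c2 : 3 / 4 * N ≤ δ ^ n * |y1| := by
    have h1 : |x1| ≤ |y1 - x1| + |y1| := by
      have := abs_add_le (x1 - y1) y1
      rw [sub_add_cancel, abs_sub_comm] at this
      exact this
    have h2 := mul_le_mul_of_nonneg_left h1 hδn.le
    rw [mul_add] at h2
    linarith
  have c3 : 2 * (δ ^ n * |y1|) ≤ (1 / 2 ^ p) ^ n * |y1| := by
    have e1 : (1 : ℝ) / 2 ^ p = 2 * δ := by
      rw [hδ, pow_succ]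
      field_simp
    rw [e1, mul_pow, ← mul_assoc]
    refine mul_le_mul_of_nonneg_right ?_ (abs_nonneg _)
    refine mul_le_mul_of_nonneg_right ?_ hδn.le
    calc (2 : ℝ) = 2 ^ 1 := (pow_one _).symm
      _ ≤ 2 ^ n := pow_le_pow_right₀ (by norm_num) hn1
  linarith

/-! ### The thin set -/

/-- The roots of a polynomial in one variable, as a sequence. -/
noncomputable def rt (q : Polynomial ℝ) (a : ℕ) : ℂ :=
  ((q.map (algebraMap ℝ ℂ)).roots.toList).getD a 0

theorem exists_rt {q : Polynomial ℝ} {D : ℕ} (hq : q.natDegree ≤ D) {z : ℂ}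
    (hz : z ∈ (q.map (algebraMap ℝ ℂ)).roots) : ∃ a : Fin (D + 1), rt q a = z := by
  have h1 : z ∈ (q.map (algebraMap ℝ ℂ)).roots.toList := Multiset.mem_toList.2 hz
  obtain ⟨a, ha, h2⟩ := List.getElem_of_mem h1
  have h3 : a < D + 1 := by
    have h4 : (q.map (algebraMap ℝ ℂ)).roots.toList.length ≤ D := by
      rw [Multiset.length_toList]
      refine (Polynomial.card_roots' _).trans ?_
      exact Polynomial.natDegree_map_le.trans hq
    omega
  refine ⟨⟨a, h3⟩, ?_⟩
  unfold rt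
  simp only
  rw [List.getD_eq_getElem _ _ ha, h2]

/-- The restriction to a line does not depend on the coordinate. -/
theorem lin_congr {X Y : σ → ℝ} {k : σ} (h : ∀ i, i ≠ k → X i = Y i) (R : MvPolynomial σ ℝ) :
    lin X k R = lin Y k R := by
  unfold lin
  congr 2
  funext i
  by_cases hi : i = k
  · rw [if_pos hi, if_pos hi]
  · rw [if_neg hi, if_neg hi, h i hi]

theorem two_pow_ge (D : ℕ) : ((D : ℝ) + 1) ≤ 2 ^ D := by
  have : D + 1 ≤ 2 ^ D := Nat.lt_two_pow_self
  exact_mod_cast this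

/-- The data of a point of the thin set. -/
def Dat (D : ℕ) (C : ℝ) (S : MvPolynomial (Fin 3) ℝ) (p : ℕ) (X : Fin 3 → ℝ)
    (y : Fin 3 × ({l : List (Fin 3) | l.length ≤ D} × Fin (D + 1))) : Prop :=
  |X y.1 - (rt (lin (fun i => (⌊(2 : ℝ) ^ (p + (D + 5)) * X i⌋ : ℝ) / 2 ^ (p + (D + 5))) y.1
    (dl y.2.1.1 S)) y.2.2).re| ≤ C / 2 ^ p

/-- Points at which a polynomial is small against a derivative: one coordinate is near the root of
a polynomial which is known from the other ones. -/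
theorem exists_dat (D : ℕ) : ∃ C : ℝ, 1 ≤ C ∧ ∀ (S : MvPolynomial (Fin 3) ℝ), S.totalDegree ≤ D →
    S ≠ 0 → ∀ (p : ℕ) (X : Fin 3 → ℝ), sml S p X → ∃ y, Dat D C S p X y := by
  classical
  obtain ⟨C₁, hC₁, hnea⟩ := Pool.KJ.nea_thm (D + 1)
  refine ⟨2 * C₁, by linarith, ?_⟩
  intro S hS hS0 p X hi
  unfold sml at hi
  obtain ⟨δ, hδ⟩ : ∃ δ : ℝ, δ = 1 / 2 ^ p := ⟨_, rfl⟩
  have hδ0 : 0 < δ := by rw [hδ]; positivity
  rw [← hδ] at hi
  obtain ⟨k₀, hk₀⟩ : ∃ k₀, k₀ = D + 5 := ⟨_, rfl⟩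
  obtain ⟨c, hc⟩ : ∃ c : ℝ, c = 1 / 2 ^ k₀ := ⟨_, rfl⟩
  have hc0 : 0 < c := by rw [hc]; positivity
  have hcD : c * (D + 1) ≤ 1 / 16 := by
    rw [hc, hk₀, pow_add, one_div_mul_eq_div, div_le_iff₀ (by positivity)]
    have := two_pow_ge D
    have : (0 : ℝ) < 2 ^ D := by positivity
    nlinarith
  have hc1 : c ≤ 1 := by
    have : c * 1 ≤ c * (D + 1) := mul_le_mul_of_nonneg_left (by
      have : (0 : ℝ) ≤ D := Nat.cast_nonneg D
      linarith) hc0.le
    linarith
  -- the maximal derivative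
  obtain ⟨V, hV⟩ : ∃ V : List (Fin 3) → ℝ, V = fun l => δ ^ l.length *
    |MvPolynomial.eval X (dl l S)| := ⟨_, rfl⟩
  have hV0 : ∀ l, 0 ≤ V l := by
    intro l
    rw [hV]
    positivity
  have hVD : ∀ l : List (Fin 3), D < l.length → V l = 0 := by
    intro l hl
    rw [hV]
    simp only
    rw [(dl_deg S hS l).2 hl, map_zero, abs_zero, mul_zero]
  obtain ⟨j, β, htop⟩ := exists_top S hS hδ0 X hi
  obtain ⟨N, hN⟩ : ∃ N, N = V (j :: β) := ⟨_, rfl⟩
  have hmax' : ∀ l, V l ≤ N := by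
    intro l
    rw [hN, hV]
    exact htop l
  have hN0 : 0 < N := by
    obtain ⟨l, hl⟩ := exists_dl_ne S hS0 X
    refine lt_of_lt_of_le ?_ (hmax' l)
    rw [hV]
    have : 0 < |MvPolynomial.eval X (dl l S)| := abs_pos.2 hl
    positivity
  have hjβ : N ≤ V (j :: β) := hN.le
  have hβD : β.length ≤ D := by
    by_contra hcon
    have h1 : V (j :: β) = 0 := hVD _ (by rw [List.length_cons]; omega)
    rw [h1] at hjβ
    linarith
  -- the other coordinates are rounded
  obtain ⟨Y, hY⟩ : ∃ Y : Fin 3 → ℝ, Y = fun i => (⌊(2 : ℝ) ^ (p + k₀) * X i⌋ : ℝ) / 2 ^ (p + k₀) :=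
    ⟨_, rfl⟩
  have hYX : ∀ i, |Y i - X i| ≤ c * δ := by
    intro i
    have h2 : (0 : ℝ) < 2 ^ (p + k₀) := by positivity
    have e1 : c * δ = 1 / 2 ^ (p + k₀) := by
      rw [hc, hδ, one_div_mul_one_div, ← pow_add, add_comm]
    rw [e1, le_div_iff₀ h2]
    have e2 : |Y i - X i| * 2 ^ (p + k₀) = |(⌊(2 : ℝ) ^ (p + k₀) * X i⌋ : ℝ) -
        2 ^ (p + k₀) * X i| := by
      rw [hY]
      simp only
      rw [← abs_of_pos h2, ← abs_mul, abs_of_pos h2, sub_mul, div_mul_cancel₀ _ h2.ne',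
        mul_comm (X i)]
    rw [e2, abs_le]
    have a1 := Int.floor_le ((2 : ℝ) ^ (p + k₀) * X i)
    have a2 := Int.lt_floor_add_one ((2 : ℝ) ^ (p + k₀) * X i)
    constructor <;> linarith
  obtain ⟨s, hs⟩ : ∃ s : Finset (Fin 3), s = Finset.univ.filter (fun i => i ≠ j) := ⟨_, rfl⟩
  obtain ⟨Z, hZ⟩ : ∃ Z : Fin 3 → ℝ, Z = fun i => if i ∈ s then Y i else X i := ⟨_, rfl⟩
  have hZj : Z j = X j := by
    rw [hZ]
    simp [hs]
  have hZi : ∀ i, i ≠ j → Z i = Y i := by
    intro i hi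
    rw [hZ]
    simp [hs, hi]
  have hcard : s.card ≤ 3 := by
    have := Finset.card_le_univ s
    simpa using this
  have hK : (1 + c * ((D : ℝ) + 1)) ^ s.card - 1 ≤ 1 / 4 := by
    have h1 : (1 + c * ((D : ℝ) + 1)) ^ s.card ≤ (1 + c * ((D : ℝ) + 1)) ^ 3 :=
      pow_le_pow_right₀ (by
        have : 0 ≤ c * ((D : ℝ) + 1) := by positivity
        linarith) hcard
    have h2 : (1 + c * ((D : ℝ) + 1)) ^ 3 ≤ (1 + 1 / 16) ^ 3 :=
      pow_le_pow_left₀ (by positivity) (by linarith) 3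
    norm_num at h2 ⊢
    linarith
  have hmove : ∀ l : List (Fin 3), δ ^ l.length * |MvPolynomial.eval Z (dl l S) -
      MvPolynomial.eval X (dl l S)| ≤ 1 / 4 * N := by
    intro l
    have h1 := move_set S hS (Y := Y) hδ0 hN0.le hc0.le hc1 (fun l => by
      have := hmax' l
      rw [hV] at this
      exact this) hYX s l
    rw [← hZ] at h1
    exact h1.trans (mul_le_mul_of_nonneg_right hK hN0.le)
  obtain ⟨R, hR⟩ : ∃ R, R = dl β S := ⟨_, rfl⟩
  have hRd : R.totalDegree ≤ D := by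
    rw [hR]
    exact ((dl_deg S hS β).1).trans (Nat.sub_le _ _)
  obtain ⟨δβ, hδβ⟩ : ∃ δβ, δβ = δ ^ β.length := ⟨_, rfl⟩
  have hδβ0 : 0 < δβ := by rw [hδβ]; positivity
  have b1 := hmove β
  have b2 := hmove (j :: β)
  have b3 := hmax' β
  have b4 := hjβ
  rw [hV] at b3 b4
  rw [dl_cons, List.length_cons, pow_succ] at b2
  simp only [List.length_cons, pow_succ] at b3 b4
  rw [dl_cons] at b4
  rw [← hR, ← hδβ] at b1 b2 b3 b4
  obtain ⟨r0, hr0⟩ : ∃ r0, r0 = MvPolynomial.eval X R := ⟨_, rfl⟩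
  obtain ⟨r1, hr1⟩ : ∃ r1, r1 = MvPolynomial.eval Z R := ⟨_, rfl⟩
  obtain ⟨d0, hd0⟩ : ∃ d0, d0 = MvPolynomial.eval X (pderiv j R) := ⟨_, rfl⟩
  obtain ⟨d1, hd1⟩ : ∃ d1, d1 = MvPolynomial.eval Z (pderiv j R) := ⟨_, rfl⟩
  rw [← hr0, ← hr1] at b1
  rw [← hd0, ← hd1] at b2
  rw [← hr0] at b3
  rw [← hd0] at b4
  have c1 : δβ * |r1| ≤ 5 / 4 * N := by
    have h1 : |r1| ≤ |r1 - r0| + |r0| := by
      have := abs_add_le (r1 - r0) r0
      rwa [sub_add_cancel] at this
    have h2 := mul_le_mul_of_nonneg_left h1 hδβ0.le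
    rw [mul_add] at h2
    linarith
  have c2 : 3 / 4 * N ≤ δβ * δ * |d1| := by
    have h1 : |d0| ≤ |d1 - d0| + |d1| := by
      have := abs_add_le (d0 - d1) d1
      rw [sub_add_cancel, abs_sub_comm] at this
      exact this
    have h2 := mul_le_mul_of_nonneg_left h1 (mul_pos hδβ0 hδ0).le
    rw [mul_add] at h2
    linarith
  have c3 : |r1| ≤ 2 * δ * |d1| := by
    have h1 : δβ * |r1| ≤ δβ * (2 * δ * |d1|) := by
      have e1 : δβ * (2 * δ * |d1|) = 2 * (δβ * δ * |d1|) := by ring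
      rw [e1]
      linarith
    exact le_of_mul_le_mul_left h1 hδβ0
  have c4 : d1 ≠ 0 := by
    intro h0
    rw [h0, abs_zero, mul_zero] at c2
    linarith
  -- the polynomial in one variable
  obtain ⟨q, hq⟩ : ∃ q, q = lin Z j R := ⟨_, rfl⟩
  have e0 : ∀ P : MvPolynomial (Fin 3) ℝ, (lin Z j P).eval (X j) = MvPolynomial.eval Z P := by
    intro P
    rw [eval_lin]
    congr 1
    congr 1
    funext i
    by_cases hi : i = j
    · rw [if_pos hi, hi, hZj]
    · rw [if_neg hi]
  have e1 : q.eval (X j) = r1 := by rw [hq, e0, hr1]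
  have e2 : (Polynomial.derivative^[1] q).eval (X j) = d1 := by
    rw [Function.iterate_one, hq, derivative_lin, e0, hd1]
  have hq0 : q ≠ 0 := by
    intro h0
    apply c4
    rw [← e2, h0]
    simp
  have hqD : q.natDegree ≤ D := by
    rw [hq]
    exact natDegree_lin Z j R hRd
  obtain ⟨z, hz, hzX⟩ := hnea q (X j) (2 * δ) 1 (by omega) le_rfl (by omega) (by positivity) (by
    rw [e1, e2, pow_one]
    exact c3) hq0
  obtain ⟨a, ha⟩ := exists_rt hqD hz
  refine ⟨(j, (⟨β, hβD⟩, a)), ?_⟩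
  unfold Dat
  simp only
  have e3 : lin (fun i => (⌊(2 : ℝ) ^ (p + (D + 5)) * X i⌋ : ℝ) / 2 ^ (p + (D + 5))) j
      (dl β S) = q := by
    rw [hq, hR]
    refine lin_congr (fun i hi => ?_) _
    rw [hZi i hi, hY, hk₀]
  rw [e3, ha]
  refine hzX.trans (le_of_eq ?_)
  rw [hδ]
  ring

/-- The code of a point. -/
abbrev Kd (D : ℕ) : Type := Fin 3 × ({l : List (Fin 3) | l.length ≤ D} × Fin (D + 1))

noncomputable instance (D : ℕ) : Fintype {l : List (Fin 3) | l.length ≤ D} :=
  (List.finite_length_le (Fin 3) D).fintype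

/-- **The thin set.** Outside finitely many possibilities, one of the coordinates of a point at
which a polynomial is small against a derivative is known from the other ones. -/
theorem thin (D : ℕ) : ∃ (C : ℝ) (cd : MvPolynomial (Fin 3) ℝ → ℕ → (Fin 3 → ℝ) → Kd D), 1 ≤ C ∧
    ∀ (S : MvPolynomial (Fin 3) ℝ), S.totalDegree ≤ D → S ≠ 0 → ∀ (p : ℕ)
    (X X' : Fin 3 → ℝ), sml S p X → sml S p X' →
    cd S p X = cd S p X' → (∀ j, j ≠ (cd S p X).1 →
      ⌊(2 : ℝ) ^ (p + (D + 5)) * X j⌋ = ⌊(2 : ℝ) ^ (p + (D + 5)) * X' j⌋) →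
    |X (cd S p X).1 - X' (cd S p X).1| ≤ C / 2 ^ p := by
  classical
  obtain ⟨C, hC, hdat⟩ := exists_dat D
  have hne : Nonempty (Kd D) := ⟨(0, (⟨[], Nat.zero_le _⟩, 0))⟩
  refine ⟨2 * C, fun S p X => if h : ∃ y, Dat D C S p X y then h.choose else hne.some, by linarith,
    ?_⟩
  intro S hS hS0 p X X' hX hX' hcd hcell
  have h1 := hdat S hS hS0 p X hX
  have h2 := hdat S hS hS0 p X' hX'
  simp only [dif_pos h1, dif_pos h2] at hcd hcell ⊢
  have a1 := h1.choose_spec
  have a2 := h2.choose_spec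
  rw [← hcd] at a2
  obtain ⟨y, hy⟩ : ∃ y, y = h1.choose := ⟨_, rfl⟩
  rw [← hy] at a1 a2 hcell ⊢
  unfold Dat at a1 a2
  have e1 : lin (fun i => (⌊(2 : ℝ) ^ (p + (D + 5)) * X' i⌋ : ℝ) / 2 ^ (p + (D + 5))) y.1
      (dl y.2.1.1 S) = lin (fun i => (⌊(2 : ℝ) ^ (p + (D + 5)) * X i⌋ : ℝ) / 2 ^ (p + (D + 5))) y.1
      (dl y.2.1.1 S) := by
    refine lin_congr (fun i hi => ?_) _
    rw [hcell i hi]
  rw [e1] at a2
  have e2 : 2 * C / 2 ^ p = C / 2 ^ p + C / 2 ^ p := by ring
  rw [e2]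
  rw [abs_le] at a1 a2 ⊢
  constructor <;> linarith [a1.1, a1.2, a2.1, a2.2]

end Pool.LBW
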