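import Pool.Agent.H63.LBW.One

/-!
# Lemma B at the window of constant directions: one family
-/

set_option autoImplicit false

namespace Pool.LBW

open Finset Real
open Pool.Agent.H49.Ent Pool.Agent.H32.Dense Pool.STK Pool.KA Pool.KSAT Pool.K2S Pool.K3 Pool.PB
  Pool.KS6 Pool.S6C
open Pool.S6K (ball_claim exp_small)

/-- The labels of the blocks have bounded entropy, given the points of precision `Qt`. -/
theorem lab_small {J : ℕ} (F : Fam 3 J) {A : F.Ω → Prop} {Qt w lam J' : ℕ} {i₀ : Fin 3}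
    (h : w + J' ≤ J) (g : F.Ω → Fin 3 → ℝ)
    (hφ : ∃ φ : (Fin 3 → ℤ) × (ℕ × F.ζ) →
        (Fin 3 → ℤ) × (ℕ × (Fam.zm F w J' h (Box.plkC lam i₀) g).ζ), ∀ ω, A ω →
        Fam.pt (Fam.zm F w J' h (Box.plkC lam i₀) g) ω = φ (ptq F Qt ω)) (g₁ R₁ g₂ R₂ : ℕ)
    (hR₁ : (R₁ + 1) * g₁ ≤ J') (hR₂ : (R₂ + 1) * g₂ ≤ lam) (hQt : Qt = w + J' + lam)
    (hQJ : Qt ≤ J) (B : F.Ω → Prop) (hBA : Sub B A) (hB : 0 < Pe F.p B) :
    CH (Pool.Agent.H49.Ent.cond F.p B True)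
      (fun ω => ((fun l : Fin R₁ => (F.zm w J' h (Box.plkC lam i₀) g).c ((l : ℕ) * g₁) ω),
        (fun l : Fin R₂ => F.c (w + J' + (l : ℕ) * g₂) ω))) (ptq F Qt) ≤
      (R₁ + R₂) * cc 3 := by
  obtain ⟨φ, hφ⟩ := hφ
  have hlaw := isLaw_cond F.isLaw hB
  have hpos : ∀ ω, 0 < Pool.Agent.H49.Ent.cond F.p B True ω → A ω := fun ω hω => hBA ω (by
    have := ((cond_pos_iff F.isLaw.nonneg B True ω).1 hω).2
    simpa using this)
  have h1 := CH_pi_le hlaw.nonneg (c := cc 3) (ptq F Qt) R₁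
    (fun (l : Fin R₁) ω => (F.zm w J' h (Box.plkC lam i₀) g).c ((l : ℕ) * g₁) ω)
    (fun l => by
      have h2 : (l : ℕ) * g₁ ≤ J' := by
        have : (l : ℕ) * g₁ ≤ (R₁ + 1) * g₁ := Nat.mul_le_mul_right g₁ (by omega)
        omega
      have h3 : CH (Pool.Agent.H49.Ent.cond F.p B True)
          ((F.zm w J' h (Box.plkC lam i₀) g).c ((l : ℕ) * g₁))
          (Fam.pt (F.zm w J' h (Box.plkC lam i₀) g)) ≤ cc 3 :=
        Rows.CH_c_pt ((F.res B True hlaw).zm w J' h (Box.plkC lam i₀) g) h2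
      refine le_trans (CH_mono_cond hlaw.nonneg ?_) h3
      intro ω ω' a b e
      have e' : ptq F Qt ω = ptq F Qt ω' := e
      have k1 := hφ ω (hpos ω a)
      have k2 := hφ ω' (hpos ω' b)
      rw [e'] at k1
      exact k1.trans k2.symm)
  have h2 := CH_pi_le hlaw.nonneg (c := cc 3) (ptq F Qt) R₂
    (fun (l : Fin R₂) ω => F.c (w + J' + (l : ℕ) * g₂) ω)
    (fun l => by
      have h2 : (l : ℕ) * g₂ ≤ lam := by
        have : (l : ℕ) * g₂ ≤ (R₂ + 1) * g₂ := Nat.mul_le_mul_right g₂ (by omega)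
        omega
      exact CH_c_ptq (F.res B True hlaw) (w := w + J' + (l : ℕ) * g₂) (Qt := Qt) (by omega) hQJ)
  have h3 := CH_subadd hlaw.nonneg
    (fun ω (l : Fin R₁) => (F.zm w J' h (Box.plkC lam i₀) g).c ((l : ℕ) * g₁) ω)
    (fun ω (l : Fin R₂) => F.c (w + J' + (l : ℕ) * g₂) ω) (ptq F Qt)
  have e1 : ((R₁ : ℝ) + R₂) * cc 3 = R₁ * cc 3 + R₂ * cc 3 := by ring
  rw [e1]
  linarith

/-- Maximal families with a larger defect. -/
theorem Mx_mono {m J : ℕ} {F : Fam m J} {a R τ τ' : ℝ} (h : τ ≤ τ') (hM : F.Mx a R τ) :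
    F.Mx a R τ' := by
  have hJ : τ * (J : ℝ) ≤ τ' * J := mul_le_mul_of_nonneg_right h (Nat.cast_nonneg J)
  refine ⟨?_, ?_⟩
  · have := hM.1
    unfold Fam.Tm at this ⊢
    linarith
  · refine le_trans ?_ hM.2
    exact mul_le_mul_of_nonneg_right (by linarith) (Nat.cast_nonneg J)

/-- The numbers of the upper bound. -/
theorem upp_num {J : ℕ} {F : Fam 3 J} {Qt : ℕ} {i₀ i₁ : Fin 3}
    {w lam J' D P : ℕ} {h : w + J' ≤ J} {g : F.Ω → Fin 3 → ℝ} {V : Type} {z : F.Ω → V}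
    {R : V → MvPolynomial (Option (Fin 3)) ℝ} (hz : Zlb F Qt i₀ i₁ w lam J' D P h g z R)
    {CU : ℝ} (hCU : 0 ≤ CU)
    (hupp : ∀ {p w₀ : ℕ} {ε : ℝ}, w₀ ≤ w → p + (w - w₀) ≤ J' →
      Pe (prs F w₀) (fun v => ¬ Good F i₀ i₁ w lam J' p h g z R v) ≤ ε →
      CH (prs F w₀) (fun v => F.X Qt v.2)
      (fun v => ((z v.1, F.blab w (Box.plkC lam i₀) g v.1), (F.T v.1, F.W v.2))) ≤
      (4 * (J' : ℝ) + lam + 2 * ((w : ℝ) - w₀) - 2 * p) * Real.log 2 + CU +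
        4 * ε * ((Qt + 5) * Real.log 2))
    {w₀ x : ℕ} {e a b : ℝ} (hw₀ : w₀ ≤ w) (hQt : Qt = w + J' + lam) (hQJ : Qt ≤ J)
    (hD : 1 ≤ D) (hPJ : P ≤ J') (hx0 : 0 < x)
    (hxl : 2 * Real.log ((3 * dd D + 1 : ℕ) : ℝ) ≤ x * Real.log 2) (he : F.Tm (e * J)) (he0 : 0 ≤ e)
    (ha0 : 0 < a) (hax : a * J ≤ x) (hJ5 : 5 ≤ J)
    (hb : (J' : ℝ) - P ≤ b) :
    ∃ M E₀ : ℝ, 0 ≤ M ∧ M ≤ 2 * (b + D * (((w : ℝ) - w₀) + x + x + 4)) + 4 * ((w : ℝ) - w₀) + 20 ∧
      E₀ ≤ CU + 32 * (e * J + 1) / a ∧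
      CH (prs F w₀) (fun v => F.X Qt v.2)
      (fun v => ((z v.1, F.blab w (Box.plkC lam i₀) g v.1), (F.T v.1, F.W v.2))) ≤
      (2 * (J' : ℝ) + lam + M) * Real.log 2 + E₀ := by
  have hJr : (5 : ℝ) ≤ J := by exact_mod_cast hJ5
  have hl2 : 0 < Real.log 2 := Real.log_pos (by norm_num)
  have hl1 : Real.log 2 ≤ 1 := by
    have := Real.log_two_lt_d9
    linarith
  have hYr : (((w - w₀ : ℕ)) : ℝ) = w - w₀ := by rw [Nat.cast_sub hw₀]
  have hY0 : (0 : ℝ) ≤ (w : ℝ) - w₀ := by rw [← hYr]; positivity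
  have hPJr : (P : ℝ) ≤ J' := by exact_mod_cast hPJ
  by_cases hPc : D * ((w - w₀) + x + x + 4) ≤ P
  · obtain ⟨p, hp⟩ : ∃ p, p = P - D * ((w - w₀) + x + x + 4) := ⟨_, rfl⟩
    have hp1 : p + D * ((w - w₀) + x + x + 4) = P := by omega
    have hp1r : (p : ℝ) + D * (((w : ℝ) - w₀) + x + x + 4) = P := by
      rw [← hYr]
      exact_mod_cast hp1
    have hpJ : p + (w - w₀) ≤ J' := by
      have : (w - w₀) + x + x + 4 ≤ D * ((w - w₀) + x + x + 4) := Nat.le_mul_of_pos_left _ hD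
      omega
    have hxP : x ≤ P := by
      have : (w - w₀) + x + x + 4 ≤ D * ((w - w₀) + x + x + 4) := Nat.le_mul_of_pos_left _ hD
      omega
    have hbad := hz.bad hw₀ hxP hp1.le he hxl hx0
    have k1 := hupp hw₀ hpJ hbad
    refine ⟨2 * J' + 2 * ((w : ℝ) - w₀) - 2 * p, CU +
      4 * (4 * (e * J + Real.log 2) / (x * Real.log 2)) * ((Qt + 5) * Real.log 2), ?_, ?_, ?_, ?_⟩
    · have : (p : ℝ) ≤ J' := by exact_mod_cast (by omega : p ≤ J')
      linarith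
    · linarith
    · have hx0r : (0 : ℝ) < x := by exact_mod_cast hx0
      have e1 : 4 * (4 * (e * J + Real.log 2) / (x * Real.log 2)) * ((Qt + 5) * Real.log 2) =
          16 * (e * J + Real.log 2) * (Qt + 5) / x := by
        field_simp
        ring
      rw [e1]
      refine add_le_add le_rfl ?_
      have hQr : (Qt : ℝ) ≤ J := by exact_mod_cast hQJ
      have hJ0 : (0 : ℝ) < J := by linarith
      have heJ : 0 ≤ e * J := mul_nonneg he0 hJ0.le
      calc 16 * (e * J + Real.log 2) * (Qt + 5) / x ≤ 16 * (e * J + 1) * (J + J) / (a * J) := by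
            refine div_le_div₀ (by positivity) ?_ (by positivity) hax
            refine mul_le_mul ?_ (by linarith) (by positivity) (by positivity)
            exact mul_le_mul_of_nonneg_left (by linarith) (by norm_num)
        _ = 32 * (e * J + 1) / a := by
            field_simp
            ring
    · refine k1.trans (le_of_eq ?_)
      ring
  · push Not at hPc
    have hPr : (P : ℝ) ≤ D * (((w : ℝ) - w₀) + x + x + 4) := by
      rw [← hYr]
      exact_mod_cast hPc.le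
    have k1 := upp0 hz hw₀ hQt
    refine ⟨2 * J' + 4 * ((w : ℝ) - w₀) + 20, 0, by positivity, by linarith, ?_, ?_⟩
    · have : 0 ≤ e * (J : ℝ) := mul_nonneg he0 (by linarith)
      positivity
    · refine k1.trans (le_of_eq ?_)
      ring

end Pool.LBW
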