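import Pool.Agent.H42.S6C.Defs
import Pool.Agent.H63.LBW.Sprd

/-!
# Implicit labels in boxes: the relation at the times of a longer window
-/

set_option autoImplicit false

namespace Pool.LBW

open Finset Real
open Pool.Agent.H49.Ent Pool.Agent.H32.Dense Pool.STK Pool.KA Pool.KSAT Pool.K2S Pool.K3 Pool.PB
  Pool.KS6

/-- The grid time of a sample. -/
noncomputable def gtm {m J : ℕ} (F : Fam m J) (P : ℕ) (ω : F.Ω) : ℝ := (F.T1 P ω : ℝ) / 2 ^ P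

/-- **Implicit label in the boxes of frames.** -/
structure Zlb {J : ℕ} (F : Fam 3 J) (Qt : ℕ) (i₀ i₁ : Fin 3) (w lam J' D P : ℕ) (h : w + J' ≤ J)
    (g : F.Ω → Fin 3 → ℝ) {V : Type} (z : F.Ω → V) (R : V → MvPolynomial (Option (Fin 3)) ℝ) :
    Prop where
  bd : ∀ ω, 0 < F.p ω → ∀ j, |g ω j| ≤ 4
  win : ∀ ω ω', slam F w ω = slam F w ω' → g ω = g ω'
  vis : Det F.p (ptq F Qt) (fun ω => (z ω, Fam.pt (F.zm w J' h (Box.plkC lam i₀) g) ω))
  cls : Det F.p (slam (F.zm w J' h (Box.plkC lam i₀) g) 0) z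
  deg : ∀ v, (R v).totalDegree ≤ D
  rel : ∃ P₁ : ℕ, P ≤ P₁ ∧ P₁ ≤ J' ∧ ∀ ω, 0 < F.p ω →
    spc (gtm (F.zm w J' h (Box.plkC lam i₀) g) P₁ ω) i₁ (R (z ω)) ≠ 0 ∧
    sml (spc (gtm (F.zm w J' h (Box.plkC lam i₀) g) P₁ ω) i₁ (R (z ω))) P
      (fun j => (F.zm w J' h (Box.plkC lam i₀) g).u ω j +
        gtm (F.zm w J' h (Box.plkC lam i₀) g) P₁ ω * (F.zm w J' h (Box.plkC lam i₀) g).d ω j)

section Zoom

variable {J : ℕ} (F : Fam 3 J) {w J' : ℕ} (h : w + J' ≤ J) {κ : Type} (C : Crd 3 κ)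
  (g : F.Ω → κ)

/-- The line and the label of the box are functions of the line and of the window. -/
theorem zm_slam {g : F.Ω → κ} {ω ω' : F.Ω} (hg : g ω = g ω') (hs : slam F w ω = slam F w ω') :
    (F.zm w J' h C g).u ω = (F.zm w J' h C g).u ω' ∧
      (F.zm w J' h C g).d ω = (F.zm w J' h C g).d ω' ∧ F.blab w C g ω = F.blab w C g ω' := by
  have e1 := Prod.ext_iff.mp hs
  have e2 := Prod.ext_iff.mp e1.2
  obtain ⟨h1, h2⟩ := Box.blab_det F (C := C) (g := g) e1.1 e2.2 hg e2.1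
  have h3 := Prod.ext_iff.mp h2
  refine ⟨?_, ?_, h1⟩
  · funext i
    change (⌊(2 : ℝ) ^ J' * (F.box w C g).u ω i⌋ : ℝ) / 2 ^ J' =
      (⌊(2 : ℝ) ^ J' * (F.box w C g).u ω' i⌋ : ℝ) / 2 ^ J'
    have : (F.box w C g).u ω = (F.box w C g).u ω' := h3.1
    rw [this]
  · funext i
    change (⌊(2 : ℝ) ^ J' * (F.box w C g).d ω i⌋ : ℝ) / 2 ^ J' =
      (⌊(2 : ℝ) ^ J' * (F.box w C g).d ω' i⌋ : ℝ) / 2 ^ J'
    have : (F.box w C g).d ω = (F.box w C g).d ω' := h3.2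
    rw [this]

/-- The line of the zoom with its label is a function of the line and of the window. -/
theorem zm_slam0 {g : F.Ω → κ} {ω ω' : F.Ω} (hg : g ω = g ω') (hs : slam F w ω = slam F w ω') :
    slam (F.zm w J' h C g) 0 ω = slam (F.zm w J' h C g) 0 ω' := by
  obtain ⟨h1, h2, h3⟩ := zm_slam F h C hg hs
  have h4 : ∀ ω : F.Ω, (F.zm w J' h C g).T1 0 ω = 0 := by
    intro ω
    have := (F.zm w J' h C g).tim ω
    unfold Fam.T1
    rw [Nat.sub_zero]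
    exact Nat.div_eq_of_lt this
  have e1 : (F.zm w J' h C g).T1 0 ω = (F.zm w J' h C g).T1 0 ω' := (h4 ω).trans (h4 ω').symm
  exact Prod.ext (Prod.ext h1 h2) (Prod.ext h3 e1)

theorem rnd_mem {r : ℝ} (h0 : 0 ≤ r) (h1 : r < 1) (n : ℕ) :
    0 ≤ (⌊(2 : ℝ) ^ n * r⌋ : ℝ) / 2 ^ n ∧ (⌊(2 : ℝ) ^ n * r⌋ : ℝ) / 2 ^ n ≤ 1 := by
  have p0 : (0 : ℝ) < 2 ^ n := by positivity
  constructor
  · have : (0 : ℤ) ≤ ⌊(2 : ℝ) ^ n * r⌋ := Int.floor_nonneg.2 (by positivity)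
    have : (0 : ℝ) ≤ (⌊(2 : ℝ) ^ n * r⌋ : ℝ) := by exact_mod_cast this
    positivity
  · rw [div_le_one p0]
    have := Int.floor_le ((2 : ℝ) ^ n * r)
    nlinarith

theorem zm_abs_u (ω : F.Ω) (i : Fin 3) : |(F.zm w J' h C g).u ω i| ≤ 1 := by
  have h0 := Box.u_mem F w C g ω i
  have h1 := rnd_mem h0.1 h0.2 J'
  change |(⌊(2 : ℝ) ^ J' * (F.box w C g).u ω i⌋ : ℝ) / 2 ^ J'| ≤ 1
  rw [abs_of_nonneg h1.1]
  exact h1.2

theorem zm_abs_d (ω : F.Ω) (i : Fin 3) : |(F.zm w J' h C g).d ω i| ≤ 1 := by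
  have h0 := Box.d_mem F w C g ω i
  have h1 := rnd_mem h0.1 h0.2 J'
  change |(⌊(2 : ℝ) ^ J' * (F.box w C g).d ω i⌋ : ℝ) / 2 ^ J'| ≤ 1
  rw [abs_of_nonneg h1.1]
  exact h1.2

/-- The position of the zoom at the beginning of the window. -/
theorem zm_u (ω : F.Ω) (i : Fin 3) : |(F.zm w J' h C g).u ω i -
    (2 ^ w * C.L (g ω) (F.x1 w ω) i - F.bcl w C g ω i)| ≤ 1 / 2 ^ J' := by
  have p0 : (0 : ℝ) < 2 ^ J' := by positivity
  have h1 := Box.bcl_eq F w C g ω i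
  have e1 : 2 ^ w * C.L (g ω) (F.x1 w ω) i - F.bcl w C g ω i = (F.box w C g).u ω i := by linarith
  rw [e1]
  change |(⌊(2 : ℝ) ^ J' * (F.box w C g).u ω i⌋ : ℝ) / 2 ^ J' - (F.box w C g).u ω i| ≤ 1 / 2 ^ J'
  obtain ⟨r, hr⟩ : ∃ r, r = (F.box w C g).u ω i := ⟨_, rfl⟩
  rw [← hr]
  have a1 := Int.floor_le ((2 : ℝ) ^ J' * r)
  have a2 := Int.lt_floor_add_one ((2 : ℝ) ^ J' * r)
  have e : (⌊(2 : ℝ) ^ J' * r⌋ : ℝ) / 2 ^ J' - r =
      ((⌊(2 : ℝ) ^ J' * r⌋ : ℝ) - 2 ^ J' * r) / 2 ^ J' := by field_simp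
  rw [e, abs_div, abs_of_pos p0]
  refine div_le_div_of_nonneg_right ?_ p0.le
  rw [abs_le]
  constructor <;> linarith

/-- The position of the second sample, in the coordinates of the box of the first one. -/
noncomputable def yv (v : F.Ω × F.Ω) (j : Fin 3) : ℝ :=
  2 ^ w * C.L (g v.1) (F.x v.2) j - F.bcl w C g v.1 j - sv F w v * F.bvl C g v.1 j

/-- The position of the second sample is near the line of the zoom of the first one. -/
theorem yv_near {v : F.Ω × F.Ω} (hu : F.u v.1 = F.u v.2) (hd : F.d v.1 = F.d v.2) (j : Fin 3) :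
    |(F.zm w J' h C g).u v.1 j + sv F w v * (F.zm w J' h C g).d v.1 j -
      yv F (w := w) C g v j| ≤ (1 + |sv F w v|) / 2 ^ J' := by
  have h1 := zm_u F h C g v.1 j
  have h2 := Pool.ZCL.zm_d F h C g v.1 j
  have e1 : 2 ^ w * C.L (g v.1) (F.x v.2) j = 2 ^ w * C.L (g v.1) (F.x1 w v.1) j +
      sv F w v * C.L (g v.1) (F.d v.1) j := by
    have h3 : F.x v.2 = fun i => F.x1 w v.1 i + (sv F w v / 2 ^ w) * F.d v.1 i := by
      funext i
      have h4 : F.x v.2 i = F.u v.2 i + F.t v.2 * F.d v.2 i := rfl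
      have h5 : F.x1 w v.1 i = F.u v.1 i + (F.T1 w v.1 : ℝ) / 2 ^ w * F.d v.1 i := rfl
      rw [h4, h5, hu, hd]
      unfold sv
      field_simp
      ring
    rw [h3, C.lin]
    field_simp
  have e2 : (F.zm w J' h C g).u v.1 j + sv F w v * (F.zm w J' h C g).d v.1 j -
      yv F (w := w) C g v j = ((F.zm w J' h C g).u v.1 j -
      (2 ^ w * C.L (g v.1) (F.x1 w v.1) j - F.bcl w C g v.1 j)) +
      sv F w v * ((F.zm w J' h C g).d v.1 j -
        (C.L (g v.1) (F.d v.1) j - F.bvl C g v.1 j)) := by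
    unfold yv
    rw [e1]
    ring
  rw [e2]
  have h3 : |sv F w v * ((F.zm w J' h C g).d v.1 j -
        (C.L (g v.1) (F.d v.1) j - F.bvl C g v.1 j))| ≤ |sv F w v| * (1 / 2 ^ J') := by
    rw [abs_mul]
    exact mul_le_mul_of_nonneg_left h2 (abs_nonneg _)
  have e3 : (1 + |sv F w v|) / 2 ^ J' = 1 / 2 ^ J' + |sv F w v| * (1 / 2 ^ J') := by ring
  rw [e3]
  exact (abs_add_le _ _).trans (add_le_add h1 h3)

include h in
/-- Bound for the position of the second sample. -/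
theorem yv_le {v : F.Ω × F.Ω} (hu : F.u v.1 = F.u v.2) (hd : F.d v.1 = F.d v.2) (j : Fin 3) :
    |yv F (w := w) C g v j| ≤ 2 * (1 + |sv F w v|) := by
  have h1 := yv_near F h C g hu hd j
  have h2 := zm_abs_u F h C g v.1 j
  have h3 := zm_abs_d F h C g v.1 j
  have h4 : |(F.zm w J' h C g).u v.1 j + sv F w v * (F.zm w J' h C g).d v.1 j| ≤
      1 + |sv F w v| := by
    refine (abs_add_le _ _).trans (add_le_add h2 ?_)
    rw [abs_mul]
    calc _ ≤ |sv F w v| * 1 := mul_le_mul_of_nonneg_left h3 (abs_nonneg _)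
      _ = _ := mul_one _
  have h5 : (1 + |sv F w v|) / 2 ^ J' ≤ 1 + |sv F w v| := by
    have : (1 : ℝ) ≤ 2 ^ J' := one_le_pow₀ (by norm_num)
    exact div_le_self (by positivity) this
  obtain ⟨a, ha⟩ : ∃ a, a = (F.zm w J' h C g).u v.1 j + sv F w v * (F.zm w J' h C g).d v.1 j :=
    ⟨_, rfl⟩
  rw [← ha] at h1 h4
  have h6 : |yv F (w := w) C g v j| ≤ |a| + |a - yv F (w := w) C g v j| := by
    have := abs_sub a (a - yv F (w := w) C g v j)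
    rwa [sub_sub_cancel] at this
  linarith

/-- The time digits of the zoom. -/
theorem T1_zm {x : ℕ} (hx : x ≤ J') (ω : F.Ω) :
    F.T1 (w + x) ω = 2 ^ x * F.T1 w ω + (F.zm w J' h C g).T1 x ω := by
  have h1 := Box.T1_box F (w := w) (K := x) (by omega) C g ω
  rw [h1]
  congr 1
  change F.T ω % 2 ^ (J - w) / 2 ^ (J - w - x) =
    F.T ω % 2 ^ (J - w) / 2 ^ (J - w - J') / 2 ^ (J' - x)
  rw [Nat.div_div_eq_div_mul, ← pow_add]
  congr 2
  omega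

end Zoom

theorem Zlb.cls' {J : ℕ} {F : Fam 3 J} {Qt : ℕ} {i₀ i₁ : Fin 3} {w lam J' D P : ℕ}
    {h : w + J' ≤ J} {g : F.Ω → Fin 3 → ℝ} {V : Type} {z : F.Ω → V}
    {R : V → MvPolynomial (Option (Fin 3)) ℝ} (hz : Zlb F Qt i₀ i₁ w lam J' D P h g z R) :
    Det F.p (slam F w) z := by
  intro ω ω' a b e
  exact hz.cls ω ω' a b (zm_slam0 F h (Box.plkC lam i₀) (hz.win _ _ e) e)

/-- The grid times. -/
theorem gtm_mem {m J : ℕ} (F : Fam m J) {P : ℕ} (h : P ≤ J) (ω : F.Ω) :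
    0 ≤ gtm F P ω ∧ gtm F P ω ≤ 1 := by
  have h1 := F.tim ω
  unfold gtm
  constructor
  · positivity
  · rw [div_le_one (by positivity)]
    have : F.T1 P ω < 2 ^ P := by
      unfold Fam.T1
      rw [Nat.div_lt_iff_lt_mul (by positivity), ← pow_add]
      have e1 : P + (J - P) = J := by omega
      rwa [e1]
    exact_mod_cast this.le

theorem gtm_T1 {m J : ℕ} (F : Fam m J) {x P : ℕ} (hx : x ≤ P) (h : P ≤ J) (ω : F.Ω) :
    (F.T1 x ω : ℝ) ≤ 2 ^ x * gtm F P ω ∧ 2 ^ x * gtm F P ω ≤ F.T1 x ω + 1 := by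
  obtain ⟨K, rfl⟩ := Nat.exists_eq_add_of_le hx
  have h3 := T1_div F h ω
  have a1 := Nat.div_add_mod (F.T1 (x + K) ω) (2 ^ K)
  have a3 := Nat.mod_lt (F.T1 (x + K) ω) (show 0 < 2 ^ K by positivity)
  rw [← h3] at a1
  have b1 : (2 ^ K * (F.T1 x ω : ℝ) + ((F.T1 (x + K) ω % 2 ^ K : ℕ) : ℝ)) = F.T1 (x + K) ω := by
    exact_mod_cast a1
  have b3 : ((F.T1 (x + K) ω % 2 ^ K : ℕ) : ℝ) ≤ 2 ^ K := by exact_mod_cast a3.le
  have b4 : (0 : ℝ) ≤ ((F.T1 (x + K) ω % 2 ^ K : ℕ) : ℝ) := by positivity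
  have e1 : (2 : ℝ) ^ x * gtm F (x + K) ω = F.T1 (x + K) ω / 2 ^ K := by
    unfold gtm
    rw [pow_add]
    field_simp
  have p0 : (0 : ℝ) < 2 ^ K := by positivity
  rw [e1, le_div_iff₀ p0, div_le_iff₀ p0]
  constructor <;> nlinarith

/-- The relation at the time of the second sample, with the constant `2 ^ (-p)`. -/
def Good {J : ℕ} (F : Fam 3 J) (i₀ i₁ : Fin 3) (w lam J' p : ℕ) (h : w + J' ≤ J)
    (g : F.Ω → Fin 3 → ℝ) {V : Type} (z : F.Ω → V) (R : V → MvPolynomial (Option (Fin 3)) ℝ)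
    (v : F.Ω × F.Ω) : Prop :=
  spc (sv F w v) i₁ (R (z v.1)) ≠ 0 ∧
    sml (spc (sv F w v) i₁ (R (z v.1))) p (fun j => (F.zm w J' h (Box.plkC lam i₀) g).u v.1 j +
      sv F w v * (F.zm w J' h (Box.plkC lam i₀) g).d v.1 j)

/-- **The relation holds at typical times of a longer window.** -/
theorem Zlb.good {J : ℕ} {F : Fam 3 J} {Qt : ℕ} {i₀ i₁ : Fin 3} {w lam J' D P : ℕ}
    {h : w + J' ≤ J} {g : F.Ω → Fin 3 → ℝ} {V : Type} {z : F.Ω → V}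
    {R : V → MvPolynomial (Option (Fin 3)) ℝ} (hz : Zlb F Qt i₀ i₁ w lam J' D P h g z R)
    {w₀ x x' p : ℕ} (hw₀ : w₀ ≤ w) (hxP : x ≤ P) (hp : p + D * ((w - w₀) + x + x' + 4) ≤ P)
    {v : F.Ω × F.Ω} (hv : 0 < prs F w₀ v)
    (h1 : ¬ (vals F w x (slam F w v.1)).card ≤ 2 * D)
    (h2 : ∀ l : List (Fin 3), l.length ≤ D → ¬ ∃ z' ∈
      ((dcv ((F.zm w J' h (Box.plkC lam i₀) g).u v.1)
      ((F.zm w J' h (Box.plkC lam i₀) g).d v.1) i₁ (R (z v.1)) l).map (algebraMap ℝ ℂ)).roots,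
      |sv F w v - z'.re| < 2 ^ (w - w₀) / 2 ^ x') :
    Good F i₀ i₁ w lam J' p h g z R v := by
  classical
  obtain ⟨P₁, hP₁, hP₁J, hrel⟩ := hz.rel
  have hxJ : x ≤ J' := by omega
  obtain ⟨a1, a2, a3, a4, a5, a6⟩ := prs_pos hv
  push Not at h1
  obtain ⟨N₀, hN₀, hcard, hsep⟩ := exists_sep (vals F w x (slam F w v.1)) (D := D) h1
  -- representatives
  have hrep : ∀ a ∈ N₀, ∃ ω : F.Ω, 0 < F.p ω ∧ slam F w ω = slam F w v.1 ∧ F.T1 (w + x) ω = a := by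
    intro a ha
    have h3 := hN₀ ha
    unfold vals at h3
    rw [Finset.mem_image] at h3
    obtain ⟨ω, h4, h5⟩ := h3
    rw [Finset.mem_filter] at h4
    exact ⟨ω, h4.2.1, h4.2.2, h5⟩
  have : Nonempty F.Ω := ⟨v.1⟩
  choose! f hf using hrep
  have hT1 : ∀ a ∈ N₀, (F.zm w J' h (Box.plkC lam i₀) g).T1 x (f a) + 2 ^ x * F.T1 w v.1 = a := by
    intro a ha
    obtain ⟨b1, b2, b3⟩ := hf a ha
    have h3 := T1_zm F h (Box.plkC lam i₀) g hxJ (f a)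
    have h4 : F.T1 w (f a) = F.T1 w v.1 := (Prod.ext_iff.mp (Prod.ext_iff.mp b2).2).2
    rw [b3, h4] at h3
    omega
  have htm : ∀ a ∈ N₀, |(2 : ℝ) ^ x * gtm (F.zm w J' h (Box.plkC lam i₀) g) P₁ (f a) +
      2 ^ x * F.T1 w v.1 - a - 1 / 2| ≤ 1 / 2 := by
    intro a ha
    have h3 := gtm_T1 (F.zm w J' h (Box.plkC lam i₀) g) (hxP.trans hP₁) hP₁J (f a)
    have h4 := hT1 a ha
    have h5 : (((F.zm w J' h (Box.plkC lam i₀) g).T1 x (f a) : ℕ) : ℝ) + 2 ^ x * F.T1 w v.1 =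
        a := by exact_mod_cast h4
    rw [abs_le]
    constructor <;> linarith [h3.1, h3.2]
  obtain ⟨N, hN⟩ : ∃ N : Finset ℝ, N = N₀.image
      (fun a => gtm (F.zm w J' h (Box.plkC lam i₀) g) P₁ (f a)) := ⟨_, rfl⟩
  have px : (0 : ℝ) < 2 ^ x := by positivity
  have hsep' : ∀ a ∈ N₀, ∀ b ∈ N₀, a ≠ b → 1 / 2 ^ x ≤
      |gtm (F.zm w J' h (Box.plkC lam i₀) g) P₁ (f a) -
        gtm (F.zm w J' h (Box.plkC lam i₀) g) P₁ (f b)| := by
    intro a ha b hb hab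
    have h3 := htm a ha
    have h4 := htm b hb
    obtain ⟨s, hs⟩ : ∃ s, s = gtm (F.zm w J' h (Box.plkC lam i₀) g) P₁ (f a) := ⟨_, rfl⟩
    obtain ⟨s', hs'⟩ : ∃ s', s' = gtm (F.zm w J' h (Box.plkC lam i₀) g) P₁ (f b) := ⟨_, rfl⟩
    rw [← hs] at h3
    rw [← hs'] at h4
    rw [← hs, ← hs', div_le_iff₀ px]
    have h5 : |s - s'| * 2 ^ x = |2 ^ x * s - 2 ^ x * s'| := by
      rw [← mul_sub, abs_mul, abs_of_pos px, mul_comm]
    rw [h5]
    rw [abs_le] at h3 h4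
    rcases hsep a ha b hb hab with h6 | h6
    · have h7 : (a : ℝ) + 2 ≤ b := by exact_mod_cast h6
      rw [le_abs]
      right
      linarith [h3.1, h3.2, h4.1, h4.2]
    · have h7 : (b : ℝ) + 2 ≤ a := by exact_mod_cast h6
      rw [le_abs]
      left
      linarith [h3.1, h3.2, h4.1, h4.2]
  have hinj : Set.InjOn (fun a => gtm (F.zm w J' h (Box.plkC lam i₀) g) P₁ (f a)) N₀ := by
    intro a ha b hb hab
    by_contra hne
    have h3 := hsep' a ha b hb hne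
    simp only at hab
    rw [hab, sub_self, abs_zero] at h3
    have : (0 : ℝ) < 1 / 2 ^ x := by positivity
    linarith
  refine typ (R (z v.1)) (hz.deg _) _ _ i₁ N ?_ ?_ ?_ ?_ (Y := w - w₀) ?_ hp (fun l hl => by
    have := h2 l hl
    push Not at this
    exact this)
  · rw [hN, Finset.card_image_of_injOn hinj, hcard]
  · intro s hs
    rw [hN, Finset.mem_image] at hs
    obtain ⟨a, ha, rfl⟩ := hs
    have h3 := gtm_mem (F.zm w J' h (Box.plkC lam i₀) g) hP₁J (f a)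
    rw [abs_of_nonneg h3.1]
    exact h3.2
  · intro s hs s' hs' hne
    rw [hN, Finset.mem_image] at hs hs'
    obtain ⟨a, ha, rfl⟩ := hs
    obtain ⟨b, hb, rfl⟩ := hs'
    exact hsep' a ha b hb (fun h3 => hne (by rw [h3]))
  · intro s hs
    rw [hN, Finset.mem_image] at hs
    obtain ⟨a, ha, rfl⟩ := hs
    obtain ⟨b1, b2, b3⟩ := hf a ha
    obtain ⟨c1, c2, -⟩ := zm_slam F h (Box.plkC lam i₀) (hz.win _ _ b2) b2
    have h3 := hrel (f a) b1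
    rw [c1, c2, hz.cls' _ _ b1 a1 b2] at h3
    exact h3
  · exact sv_le F hw₀ (by omega) a6

end Pool.LBW
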