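import Pool.Agent.H63.LBW.Cln

/-!
# The label of `CIQ` in restricted families, and the arithmetic of lemma B
-/

set_option autoImplicit false

namespace Pool.LBW

open Finset Real
open Pool.Agent.H49.Ent Pool.Agent.H32.Dense Pool.STK Pool.KA Pool.KSAT Pool.K2S Pool.K3 Pool.PB
  Pool.KS6 Pool.S6C

/-- The relation at the grid point gives smallness on the line, at the grid time. -/
theorem sml_of {m : ℕ} (G : Fam 3 m) (i₁ : Fin 3) {D P P₁ p : ℕ}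
    (R : MvPolynomial (Option (Fin 3)) ℝ) (hR : R.totalDegree ≤ D) (hP : P ≤ P₁) (hP₁ : P₁ ≤ m)
    (hp : p + (D + 7) ≤ P) (ω : G.Ω)
    (h1 : MvPolynomial.eval (txg G i₁ P₁ ω) (MvPolynomial.pderiv none R) ≠ 0)
    (h2 : |MvPolynomial.eval (txg G i₁ P₁ ω) R| ≤
        1 / 2 ^ P * |MvPolynomial.eval (txg G i₁ P₁ ω) (MvPolynomial.pderiv none R)|) :
    spc (gtm G P₁ ω) i₁ R ≠ 0 ∧ sml (spc (gtm G P₁ ω) i₁ R) p
      (fun j => G.u ω j + gtm G P₁ ω * G.d ω j) := by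
  obtain ⟨Y, hY⟩ : ∃ Y : Fin 3 → ℝ, Y = fun j => (G.X P₁ ω j : ℝ) / 2 ^ P₁ := ⟨_, rfl⟩
  have hev : ∀ S : MvPolynomial (Option (Fin 3)) ℝ, MvPolynomial.eval Y (spc (gtm G P₁ ω) i₁ S) =
      MvPolynomial.eval (txg G i₁ P₁ ω) S := by
    intro S
    rw [eval_spc]
    congr 1
    congr 1
    funext o
    cases o with
    | none => rw [hY]; rfl
    | some j => rw [hY]; rfl
  have hd : MvPolynomial.pderiv i₁ (spc (gtm G P₁ ω) i₁ R) =
      spc (gtm G P₁ ω) i₁ (MvPolynomial.pderiv none R) := by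
    rw [pderiv_spc]
    unfold sl
    rw [if_pos rfl]
  constructor
  · intro h0
    apply h1
    rw [← hev, ← hd, h0, map_zero, map_zero]
  · refine sml_move _ (totalDegree_spc _ _ hR) hp (X := Y) ⟨[i₁], List.cons_ne_nil _ _, ?_⟩ ?_
    · have e1 : dl [i₁] (spc (gtm G P₁ ω) i₁ R) =
        MvPolynomial.pderiv i₁ (spc (gtm G P₁ ω) i₁ R) := rfl
      rw [e1, hd, hev, hev, List.length_singleton, pow_one]
      exact h2
    · intro j
      have p1 : (0 : ℝ) < 2 ^ P₁ := by positivity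
      have h3 := T1_real G hP₁ ω
      have h4 := G.dir ω j
      have h5 := Int.floor_le ((2 : ℝ) ^ P₁ * G.x ω j)
      have h6 := Int.lt_floor_add_one ((2 : ℝ) ^ P₁ * G.x ω j)
      have e0 : G.x ω j = G.u ω j + G.t ω * G.d ω j := rfl
      have e1 : Y j = (⌊(2 : ℝ) ^ P₁ * G.x ω j⌋ : ℝ) / 2 ^ P₁ := by rw [hY]; rfl
      have h7 : |G.u ω j + gtm G P₁ ω * G.d ω j - Y j| * 2 ^ P₁ ≤ 2 := by
        have e2 : |G.u ω j + gtm G P₁ ω * G.d ω j - Y j| * 2 ^ P₁ =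
            |(2 ^ P₁ * G.x ω j - (⌊(2 : ℝ) ^ P₁ * G.x ω j⌋ : ℝ)) -
              (2 ^ P₁ * G.t ω - G.T1 P₁ ω) * G.d ω j| := by
          rw [← abs_of_pos p1, ← abs_mul, abs_of_pos p1]
          congr 1
          rw [e1]
          obtain ⟨f, hf⟩ : ∃ f : ℝ, f = (⌊(2 : ℝ) ^ P₁ * G.x ω j⌋ : ℝ) := ⟨_, rfl⟩
          rw [← hf, e0]
          unfold gtm
          field_simp
          ring
        rw [e2]
        refine (abs_sub _ _).trans ?_
        have h8 : |2 ^ P₁ * G.x ω j - (⌊(2 : ℝ) ^ P₁ * G.x ω j⌋ : ℝ)| ≤ 1 := by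
          rw [abs_le]
          constructor <;> linarith
        have h9 : |(2 ^ P₁ * G.t ω - G.T1 P₁ ω) * G.d ω j| ≤ 1 := by
          rw [abs_mul, abs_of_nonneg h3.1]
          calc _ ≤ 1 * (1 : ℝ) := mul_le_mul h3.2.le h4 (abs_nonneg _) zero_le_one
            _ = 1 := one_mul _
        linarith
      have h8 : |G.u ω j + gtm G P₁ ω * G.d ω j - Y j| ≤ 2 / 2 ^ P₁ := by
        rw [le_div_iff₀ p1]
        exact h7
      refine h8.trans ?_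
      exact div_le_div_of_nonneg_left (by norm_num) (by positivity)
        (pow_le_pow_right₀ (by norm_num) hP)

/-- The data of `CIQ`. -/
theorem exists_zlb {J : ℕ} (F : Fam 3 J) {Qt : ℕ} {i₀ : Fin 3} {w lam J' D P p : ℕ}
    {A : F.Ω → Prop} (hp : p + (D + 8) ≤ P) (hC : CIQ F Qt i₀ w lam J' D P A) :
    ∃ (h : w + J' ≤ J) (g : F.Ω → Fin 3 → ℝ) (i₁ : Fin 3) (V : Type) (z : F.Ω → V)
      (R : V → MvPolynomial (Option (Fin 3)) ℝ),
      (∃ γ : (Fin 3 → ℤ) × (ℕ × F.ζ) → Fin 3 → ℝ, ∀ ω, A ω → g ω = γ (ptq F Qt ω)) ∧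
      (∃ φ : (Fin 3 → ℤ) × (ℕ × F.ζ) →
        (Fin 3 → ℤ) × (ℕ × (Fam.zm F w J' h (Box.plkC lam i₀) g).ζ), ∀ ω, A ω →
        Fam.pt (Fam.zm F w J' h (Box.plkC lam i₀) g) ω = φ (ptq F Qt ω)) ∧
      ∀ (A' : F.Ω → Prop) (hlaw : IsLaw (Pool.Agent.H49.Ent.cond F.p A' True)), Sub A' A →
        Zlb (F.res A' True hlaw) Qt i₀ i₁ w lam J' (D + 1) p h g z R := by
  obtain ⟨h, g, n, hb, ⟨φ₀, hφ₀⟩, ⟨ψ, hψ⟩, ⟨φ, hφ⟩, i₁, P₁, V, z₀, z', R, hPP, hPJ, hdeg,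
    hrel⟩ := hC
  refine ⟨h, g, i₁, V, fun ω => z₀ (ptr (Fam.zm F w J' h (Box.plkC lam i₀) g) J' ω), R,
    ⟨fun y => (φ₀ y).1, fun ω hω => ?_⟩, ⟨φ, hφ⟩, fun A' hlaw hA' => ?_⟩
  · exact (Prod.ext_iff.mp (hφ₀ ω hω)).1
  have hA : ∀ ω, 0 < (F.res A' True hlaw).p ω → A ω := fun ω hω => hA' ω (by
    have := ((cond_pos_iff F.isLaw.nonneg A' True ω).1 hω).2
    simpa using this)
  refine ⟨?_, ?_, ?_, ?_, ?_, P₁, by omega, hPJ, ?_⟩
  · intro ω hω j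
    exact (hb ω (hA ω hω) j).1
  · intro ω ω' e
    have e' : slam F w ω = slam F w ω' := e
    rw [hψ ω, hψ ω', e']
  · intro ω ω' a b e
    have e' : ptq F Qt ω = ptq F Qt ω' := e
    have h1 : Fam.pt (Fam.zm F w J' h (Box.plkC lam i₀) g) ω =
        Fam.pt (Fam.zm F w J' h (Box.plkC lam i₀) g) ω' := by
      rw [hφ ω (hA ω a), hφ ω' (hA ω' b), e']
    refine Prod.ext ?_ h1
    change z₀ (Fam.pt (Fam.zm F w J' h (Box.plkC lam i₀) g) ω) =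
      z₀ (Fam.pt (Fam.zm F w J' h (Box.plkC lam i₀) g) ω')
    rw [h1]
  · intro ω ω' a b e
    have e' : slam (Fam.zm F w J' h (Box.plkC lam i₀) g) 0 ω =
      slam (Fam.zm F w J' h (Box.plkC lam i₀) g) 0 ω' := e
    simp only
    rw [(hrel ω (hA ω a)).1, (hrel ω' (hA ω' b)).1, e']
  · intro v
    exact (hdeg v).trans (by omega)
  · intro ω hω
    obtain ⟨-, h2, h3⟩ := hrel ω (hA ω hω)
    exact sml_of (Fam.zm F w J' h (Box.plkC lam i₀) g) i₁ _ (D := D + 1)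
      ((hdeg _).trans (Nat.le_succ D)) hPP hPJ (by omega) ω h2 h3

/-- Blocks of length `g`. -/
theorem blk {g N : ℕ} (hg : 0 < g) (hN : g ≤ N) : ∃ R : ℕ, (R + 1) * g ≤ N ∧ N < (R + 2) * g := by
  refine ⟨N / g - 1, ?_, ?_⟩
  · have h1 : 1 ≤ N / g := (Nat.one_le_div_iff hg).2 hN
    rw [Nat.sub_add_cancel h1]
    exact Nat.div_mul_le_self N g
  · have h1 : 1 ≤ N / g := (Nat.one_le_div_iff hg).2 hN
    have h2 : N / g - 1 + 2 = N / g + 1 := by omega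
    rw [h2]
    have := Nat.lt_div_mul_add hg (a := N)
    rw [Nat.add_mul, one_mul]
    exact this

/-- The logarithm of the number of directions. -/
theorem log_dir (q : ℕ) : Real.log (2 * (2 * 2 ^ q + 1) + 1) ≤ q + 3 := by
  have hl2 : Real.log 2 ≤ 1 := by
    have := Real.log_two_lt_d9
    linarith
  have h2 := log_cell (n := q + 3) (c := 1) (x := 2 * (2 * 2 ^ q + 1) + 1)
    le_rfl (by positivity) (by
      have e1 : (2 : ℝ) ^ (q + 3) = 2 ^ q * 8 := by rw [pow_add]; norm_num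
      have e2 : (1 : ℝ) ≤ 2 ^ q := one_le_pow₀ (by norm_num)
      rw [e1]
      linarith)
  rw [Real.log_one, add_zero] at h2
  push_cast at h2
  have h3 : 0 ≤ Real.log 2 := Real.log_nonneg (by norm_num)
  have h4 : ((q : ℝ) + 3) * Real.log 2 ≤ (q + 3) * 1 :=
    mul_le_mul_of_nonneg_left hl2 (by positivity)
  linarith

/-- The arithmetic of the last step: the sum of the errors. -/
theorem err_arith {J g β D L E₀ M Jp lam R₁ R₂ g₁ g₂ τ C ρ s act lg : ℝ} (hJ : 0 < J) (hg : 0 < g)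
    (hL0 : 0 ≤ L) (hL1 : L ≤ 1) (hR₁ : 0 ≤ R₁) (hR₂ : 0 ≤ R₂) (hτ : 0 ≤ τ) (hC : 0 ≤ C)
    (hρ : 0 ≤ ρ) (hM0 : 0 ≤ M) (hgJ₁ : g * J ≤ g₁) (hgJ₂ : g * J ≤ g₂)
    (hg₁ : g₁ ≤ 3 * (g * J) + 12) (hg₂ : g₂ ≤ 2 * (g * J) + 7)
    (hb₁ : Jp ≤ (R₁ + 2) * g₁) (hb₂ : lam ≤ (R₂ + 2) * g₂) (hr₁ : R₁ * g₁ ≤ J)
    (hr₂ : R₂ * g₂ ≤ J) (hM : M ≤ (2 * D + 5) * β * J + (44 + 16 * D))
    (hE : E₀ + (7 * τ / g + 3 * τ) * J + 13 * ρ * J + s * (3 * lg) + (2 * C / g + C) +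
      (706 + 16 * D) ≤ β / 2 * J) (h172 : 172 * g ≤ β)
    (hact : act ≤ ((2 * Jp + lam + M) * L + E₀) - (R₁ * (2 * (g₁ * L)) - 36 * (g₁ * L) -
        R₁ * (4 * (τ * J) + 9 * (g₁ * L) * ρ + C)) -
      (R₂ * (g₂ * L) - 24 * (g₂ * L) -
        R₂ * (3 * (τ * J) + 4 * (g₂ * L) * ρ + C)) + 3 * (τ * J) + C +
      3 * (s * lg)) : act ≤ (2 * D + 7) * β * J := by
  have hgJ : 0 < g * J := mul_pos hg hJ
  have hg₁0 : 0 < g₁ := by linarith
  have hg₂0 : 0 < g₂ := by linarith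
  have hRg₁ : R₁ ≤ 1 / g := by
    rw [le_div_iff₀ hg]
    have : R₁ * (g * J) ≤ R₁ * g₁ := mul_le_mul_of_nonneg_left hgJ₁ hR₁
    have h2 : (R₁ * g) * J ≤ 1 * J := by linarith
    exact le_of_mul_le_mul_right h2 hJ
  have hRg₂ : R₂ ≤ 1 / g := by
    rw [le_div_iff₀ hg]
    have : R₂ * (g * J) ≤ R₂ * g₂ := mul_le_mul_of_nonneg_left hgJ₂ hR₂
    have h2 : (R₂ * g) * J ≤ 1 * J := by linarith
    exact le_of_mul_le_mul_right h2 hJ
  have t1 : R₁ * (4 * (τ * J) + 9 * (g₁ * L) * ρ + C) ≤ 4 * τ / g * J + 9 * ρ * J + C / g := by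
    have a1 : R₁ * (4 * (τ * J)) ≤ 1 / g * (4 * (τ * J)) :=
      mul_le_mul_of_nonneg_right hRg₁ (by positivity)
    have a2 : R₁ * (9 * (g₁ * L) * ρ) ≤ 9 * ρ * J := by
      have : R₁ * (9 * (g₁ * L) * ρ) = (9 * ρ * L) * (R₁ * g₁) := by ring
      rw [this]
      have b1 : (9 * ρ * L) * (R₁ * g₁) ≤ (9 * ρ * L) * J :=
        mul_le_mul_of_nonneg_left hr₁ (by positivity)
      have b2 : 9 * ρ * L * J ≤ 9 * ρ * 1 * J := by
        refine mul_le_mul_of_nonneg_right ?_ hJ.le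
        exact mul_le_mul_of_nonneg_left hL1 (by positivity)
      linarith
    have a3 : R₁ * C ≤ 1 / g * C := mul_le_mul_of_nonneg_right hRg₁ hC
    have e1 : 1 / g * (4 * (τ * J)) = 4 * τ / g * J := by ring
    have e2 : 1 / g * C = C / g := by ring
    rw [e1] at a1
    rw [e2] at a3
    have e3 : R₁ * (4 * (τ * J) + 9 * (g₁ * L) * ρ + C) = R₁ * (4 * (τ * J)) +
      R₁ * (9 * (g₁ * L) * ρ) + R₁ * C := by ring
    rw [e3]
    linarith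
  have t2 : R₂ * (3 * (τ * J) + 4 * (g₂ * L) * ρ + C) ≤ 3 * τ / g * J + 4 * ρ * J + C / g := by
    have a1 : R₂ * (3 * (τ * J)) ≤ 1 / g * (3 * (τ * J)) :=
      mul_le_mul_of_nonneg_right hRg₂ (by positivity)
    have a2 : R₂ * (4 * (g₂ * L) * ρ) ≤ 4 * ρ * J := by
      have : R₂ * (4 * (g₂ * L) * ρ) = (4 * ρ * L) * (R₂ * g₂) := by ring
      rw [this]
      have b1 : (4 * ρ * L) * (R₂ * g₂) ≤ (4 * ρ * L) * J :=
        mul_le_mul_of_nonneg_left hr₂ (by positivity)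
      have b2 : 4 * ρ * L * J ≤ 4 * ρ * 1 * J := by
        refine mul_le_mul_of_nonneg_right ?_ hJ.le
        exact mul_le_mul_of_nonneg_left hL1 (by positivity)
      linarith
    have a3 : R₂ * C ≤ 1 / g * C := mul_le_mul_of_nonneg_right hRg₂ hC
    have e1 : 1 / g * (3 * (τ * J)) = 3 * τ / g * J := by ring
    have e2 : 1 / g * C = C / g := by ring
    rw [e1] at a1
    rw [e2] at a3
    have e3 : R₂ * (3 * (τ * J) + 4 * (g₂ * L) * ρ + C) = R₂ * (3 * (τ * J)) +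
      R₂ * (4 * (g₂ * L) * ρ) + R₂ * C := by ring
    rw [e3]
    linarith
  -- the main term
  have m1 : (2 * Jp + lam + M) * L - R₁ * (2 * (g₁ * L)) + 36 * (g₁ * L) - R₂ * (g₂ * L) +
      24 * (g₂ * L) ≤ (M + 40 * g₁ + 26 * g₂) * L := by
    have e1 : (2 * Jp + lam + M) * L - R₁ * (2 * (g₁ * L)) + 36 * (g₁ * L) - R₂ * (g₂ * L) +
      24 * (g₂ * L) = (2 * Jp + lam + M - 2 * (R₁ * g₁) + 36 * g₁ - R₂ * g₂ + 24 * g₂) * L := by
      ring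
    rw [e1]
    refine mul_le_mul_of_nonneg_right ?_ hL0
    have e2 : (R₁ + 2) * g₁ = R₁ * g₁ + 2 * g₁ := by ring
    have e3 : (R₂ + 2) * g₂ = R₂ * g₂ + 2 * g₂ := by ring
    rw [e2] at hb₁
    rw [e3] at hb₂
    linarith
  have m2 : (M + 40 * g₁ + 26 * g₂) * L ≤ (M + 40 * g₁ + 26 * g₂) * 1 :=
    mul_le_mul_of_nonneg_left hL1 (by positivity)
  have m3 : 172 * g * J ≤ β * J := mul_le_mul_of_nonneg_right h172 hJ.le
  have e7 : 4 * τ / g * J + 3 * τ / g * J = 7 * τ / g * J := by ring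
  have e8 : C / g + C / g = 2 * C / g := by ring
  have e9 : (7 * τ / g + 3 * τ) * J = 7 * τ / g * J + 3 * (τ * J) := by ring
  rw [e9] at hE
  have e10 : (2 * D + 7) * β * J = (2 * D + 5) * β * J + 2 * (β * J) := by ring
  rw [e10]
  have e11 : β / 2 * J = (β * J) / 2 := by ring
  rw [e11] at hE
  have hβJ : 0 < β * J := by
    have : 0 < 172 * g * J := by positivity
    linarith
  linarith

end Pool.LBW
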